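import Pool.Agent.NUDi.F

/-!
# Two species, whole line statistics with a cut function ([4.5], [4.6])

`Ω = (Fin p → ℝ) × (Fin n → ℝ)`, positions anywhere on the line,
`W₁(t, t') ≤ WX(t) WY(t') e^{QFF}`. `OneF b ρ W B q0 M`: the one component bound (exponential moments of
all the modes `b(t) cos(a t)`, `b(t) sin(a t)`).
-/

set_option autoImplicit false

open Finset Filter MeasureTheory
open scoped Topology ENNReal

namespace NUDi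

open NUKer

variable {p n : ℕ}

/-- positions of the two species -/
def spF (p n : ℕ) : ∀ k : Bool, (Fin p → ℝ) × (Fin n → ℝ) → Fin (nn p n k) → ℝ
  | true => fun ω => ω.1
  | false => fun ω => ω.2

theorem measurable_spF (k : Bool) : Measurable (spF p n k) := by
  cases k
  · exact measurable_snd
  · exact measurable_fst

/-- one component: exponential moments of the modes -/
def OneF (b ρ : ℝ → ℝ) (W : (Fin n → ℝ) → ℝ≥0∞) (B : ℝ≥0∞) (q0 M : ℝ) : Prop :=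
  ExpF volume W b ρ (fun t => t) B q0 M

/-- change of the constants -/
theorem ExpF.mono {Ω ι : Type*} [MeasurableSpace Ω] [Fintype ι] {μ : Measure Ω}
    {W W' : Ω → ℝ≥0∞} {b ρ : ℝ → ℝ} {s : Ω → ι → ℝ} {B B' : ℝ≥0∞} {q0 q0' M M' : ℝ}
    (h : ExpF μ W b ρ s B q0 M) (hW : ∀ ω, W' ω ≤ W ω) (hB : B ≤ B') (hq : q0 ≤ q0')
    (hM : M * q0 ≤ M' * q0') : ExpF μ W' b ρ s B' q0' M' := by
  have go : ∀ a l q : ℝ, ∀ f : ℝ → ℝ, q ≤ q0 * (1 + |a|) → l ^ 2 ≤ M * (q0 * (1 + |a|)) →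
      (∀ x : ℝ, ∫⁻ ω, W ω * ENNReal.ofReal (Real.exp (x * nuF ρ (s ω) f)) ∂μ ≤
        B * ENNReal.ofReal (Real.exp (l * x + q * x ^ 2 / 2))) →
      q ≤ q0' * (1 + |a|) ∧ l ^ 2 ≤ M' * (q0' * (1 + |a|)) ∧
      (∀ x : ℝ, ∫⁻ ω, W' ω * ENNReal.ofReal (Real.exp (x * nuF ρ (s ω) f)) ∂μ ≤
        B' * ENNReal.ofReal (Real.exp (l * x + q * x ^ 2 / 2))) := by
    intro a l q f h1 h2 h3
    have ha : 0 ≤ 1 + |a| := by positivity
    refine ⟨h1.trans (by gcongr), ?_, fun x => ?_⟩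
    · refine h2.trans ?_
      rw [← mul_assoc, ← mul_assoc]
      gcongr
    · refine le_trans (lintegral_mono fun ω => ?_) ((h3 x).trans ?_)
      · have := hW ω
        gcongr
      · gcongr
  constructor
  · intro a
    obtain ⟨l, q, h1, h2, h3⟩ := h.cos a
    exact ⟨l, q, go a l q _ h1 h2 h3⟩
  · intro a
    obtain ⟨l, q, h1, h2, h3⟩ := h.sin a
    exact ⟨l, q, go a l q _ h1 h2 h3⟩

theorem ExpF.prod {Ω Ω' : Type*} [MeasurableSpace Ω] [MeasurableSpace Ω'] {N : ℕ}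
    {μ : Measure Ω} {μ' : Measure Ω'} [SFinite μ] [SFinite μ'] {W : Ω → ℝ≥0∞} {W' : Ω' → ℝ≥0∞}
    (hW : Measurable W) (hW' : Measurable W') {q0 M : ℝ} {b ρ : ℝ → ℝ} (hb : Continuous b)
    {s : Ω → Fin N → ℝ} (hs : Measurable s) {B B' : ℝ≥0∞} (h : ExpF μ W b ρ s B q0 M)
    (h' : ∫⁻ ω, W' ω ∂μ' ≤ B') :
    ExpF (μ.prod μ') (fun ω => W ω.1 * W' ω.2) b ρ (fun ω => s ω.1) (B * B') q0 M := by
  have go : ∀ f : ℝ → ℝ, Continuous f → ∀ x l q : ℝ,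
      ∫⁻ ω, W ω * ENNReal.ofReal (Real.exp (x * nuF ρ (s ω) f)) ∂μ ≤
        B * ENNReal.ofReal (Real.exp (l * x + q * x ^ 2 / 2)) →
      ∫⁻ ω : Ω × Ω', W ω.1 * W' ω.2 * ENNReal.ofReal (Real.exp (x * nuF ρ (s ω.1) f)) ∂μ.prod μ' ≤
        B * B' * ENNReal.ofReal (Real.exp (l * x + q * x ^ 2 / 2)) := by
    intro f hf x l q hx
    have hmf := measurable_nuF (ρ := ρ) hs hf
    have e : ∀ ω : Ω × Ω', W ω.1 * W' ω.2 * ENNReal.ofReal (Real.exp (x * nuF ρ (s ω.1) f)) =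
        (W ω.1 * ENNReal.ofReal (Real.exp (x * nuF ρ (s ω.1) f))) * W' ω.2 := fun ω => by ring
    rw [lintegral_congr e, lintegral_prod_mul (f := fun ω => W ω *
      ENNReal.ofReal (Real.exp (x * nuF ρ (s ω) f))) (g := W') (by fun_prop) (by fun_prop)]
    calc _ ≤ (B * ENNReal.ofReal (Real.exp (l * x + q * x ^ 2 / 2))) * B' := by gcongr
      _ = _ := by ring
  constructor
  · intro a
    obtain ⟨l, q, h1, h2, h3⟩ := h.cos a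
    exact ⟨l, q, h1, h2, fun x => go _ (by fun_prop) x l q (h3 x)⟩
  · intro a
    obtain ⟨l, q, h1, h2, h3⟩ := h.sin a
    exact ⟨l, q, h1, h2, fun x => go _ (by fun_prop) x l q (h3 x)⟩

theorem ExpF.swap {Ω Ω' : Type*} [MeasurableSpace Ω] [MeasurableSpace Ω'] {N : ℕ}
    {μ : Measure Ω} {μ' : Measure Ω'} [SFinite μ] [SFinite μ'] {W : Ω → ℝ≥0∞} {W' : Ω' → ℝ≥0∞}
    (hW : Measurable W) (hW' : Measurable W') {q0 M : ℝ} {b ρ : ℝ → ℝ} (hb : Continuous b)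
    {s : Ω' → Fin N → ℝ} (hs : Measurable s) {B B' : ℝ≥0∞} (h : ∫⁻ ω, W ω ∂μ ≤ B)
    (h' : ExpF μ' W' b ρ s B' q0 M) :
    ExpF (μ.prod μ') (fun ω => W ω.1 * W' ω.2) b ρ (fun ω => s ω.2) (B * B') q0 M := by
  have go : ∀ f : ℝ → ℝ, Continuous f → ∀ x l q : ℝ,
      ∫⁻ ω, W' ω * ENNReal.ofReal (Real.exp (x * nuF ρ (s ω) f)) ∂μ' ≤
        B' * ENNReal.ofReal (Real.exp (l * x + q * x ^ 2 / 2)) →
      ∫⁻ ω : Ω × Ω', W ω.1 * W' ω.2 * ENNReal.ofReal (Real.exp (x * nuF ρ (s ω.2) f)) ∂μ.prod μ' ≤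
        B * B' * ENNReal.ofReal (Real.exp (l * x + q * x ^ 2 / 2)) := by
    intro f hf x l q hx
    have hmf := measurable_nuF (ρ := ρ) hs hf
    have e : ∀ ω : Ω × Ω', W ω.1 * W' ω.2 * ENNReal.ofReal (Real.exp (x * nuF ρ (s ω.2) f)) =
        W ω.1 * (W' ω.2 * ENNReal.ofReal (Real.exp (x * nuF ρ (s ω.2) f))) := fun ω => by ring
    rw [lintegral_congr e, lintegral_prod_mul (f := W) (g := fun ω => W' ω *
      ENNReal.ofReal (Real.exp (x * nuF ρ (s ω) f))) (by fun_prop) (by fun_prop)]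
    calc _ ≤ B * (B' * ENNReal.ofReal (Real.exp (l * x + q * x ^ 2 / 2))) := by gcongr
      _ = _ := by ring
  constructor
  · intro a
    obtain ⟨l, q, h1, h2, h3⟩ := h'.cos a
    exact ⟨l, q, h1, h2, fun x => go _ (by fun_prop) x l q (h3 x)⟩
  · intro a
    obtain ⟨l, q, h1, h2, h3⟩ := h'.sin a
    exact ⟨l, q, h1, h2, fun x => go _ (by fun_prop) x l q (h3 x)⟩

variable {R q0 M : ℝ} {b : ℝ → ℝ} {ρ : Bool → ℝ → ℝ} {WX : (Fin p → ℝ) → ℝ≥0∞}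
  {WY : (Fin n → ℝ) → ℝ≥0∞} {BX BY : ℝ≥0∞} {κ : Bool → Bool → ℝ → ℝ → ℝ} {Λ : Bool → Bool → ℝ}
  {Λ0 : ℝ}

theorem two_expF (hb : Continuous b) (hX : Measurable WX) (hY : Measurable WY)
    (hWX : OneF b (ρ true) WX BX q0 M) (hWY : OneF b (ρ false) WY BY q0 M) (k : Bool) :
    ExpF volume (fun ω : (Fin p → ℝ) × (Fin n → ℝ) => WX ω.1 * WY ω.2) b (ρ k) (spF p n k)
      (BX * BY) q0 M := by
  cases k
  · exact ExpF.swap hX hY hb measurable_id hWX.mass hWY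
  · exact ExpF.prod hX hY hb measurable_id hWX hWY.mass

/-- **[4.5]**, two species -/
theorem crudeF2 (hb : Cutf R b) (hρ : ∀ k, Continuous (ρ k)) (hX : Measurable WX)
    (hY : Measurable WY) (hK : ∀ k k', KC R (Λ k k') (fun t t' => (κ k k' t t' : ℂ)))
    (hΛ0 : 0 < Λ0) (hΛ : ∑ k, ∑ k', Λ k k' ≤ Λ0) (hq0 : 0 ≤ q0) (hM : 0 ≤ M)
    (hq : 8 * Λ0 * q0 ≤ 1) (hWX : OneF b (ρ true) WX BX q0 M) (hWY : OneF b (ρ false) WY BY q0 M)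
    {W₁ : (Fin p → ℝ) × (Fin n → ℝ) → ℝ≥0∞}
    (hle : ∀ ω, W₁ ω ≤ WX ω.1 * WY ω.2 * ENNReal.ofReal (Real.exp (QFF b ρ κ (spF p n) ω))) :
    ∫⁻ ω, W₁ ω ≤ BX * BY * ENNReal.ofReal (Real.sqrt 2 * Real.exp (4 * Λ0 * q0 * M)) := by
  refine (lintegral_mono hle).trans ?_
  exact crudeF (μ := volume) (W := fun ω : (Fin p → ℝ) × (Fin n → ℝ) => WX ω.1 * WY ω.2) hb
    (by fun_prop) measurable_spF hρ hK hΛ0 hΛ hq0 hM hq (two_expF hb.cont hX hY hWX hWY)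

/-- **[4.6]**, two species -/
theorem dichoF2 (hb : Cutf R b) (hρ : ∀ k, Continuous (ρ k)) (hX : Measurable WX)
    (hY : Measurable WY) (hK : ∀ k k', KC R (Λ k k') (fun t t' => (κ k k' t t' : ℂ)))
    (hΛ0 : 0 < Λ0) (hΛ : ∑ k, ∑ k', Λ k k' ≤ Λ0) (hq0 : 0 < q0) (hM : 0 ≤ M)
    (hq : 16 * Λ0 * q0 ≤ 1) (hBX : BX ≠ ∞) (hBY : BY ≠ ∞)
    (hWX : OneF b (ρ true) WX BX q0 M) (hWY : OneF b (ρ false) WY BY q0 M)
    {W₁ : (Fin p → ℝ) × (Fin n → ℝ) → ℝ≥0∞} (hW₁ : Measurable W₁)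
    (hle : ∀ ω, W₁ ω ≤ WX ω.1 * WY ω.2 * ENNReal.ofReal (Real.exp (QFF b ρ κ (spF p n) ω)))
    {A : ℝ} (hA : 0 ≤ A) (hlow : BX * BY * ENNReal.ofReal (Real.exp (-A)) ≤ ∫⁻ ω, W₁ ω) (k : Bool) :
    MBF volume W₁ b (ρ k) (spF p n k) (8 * q0 * (A + 1 + M)) :=
  MBF.of_low (W := fun ω : (Fin p → ℝ) × (Fin n → ℝ) => WX ω.1 * WY ω.2) hb (by fun_prop)
    measurable_spF hρ hK hΛ0 hΛ hq0 hM hq (ENNReal.mul_ne_top hBX hBY)
    (two_expF hb.cont hX hY hWX hWY) hW₁ hle hA hlow k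

end NUDi
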