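import Pool.Agent.NUDi.FtoB

/-!
# A cut function with slope at most one

`exists_cutN`: `b = 1` on `[-R, R]`, `b = 0` off `[-R-N, R+N]`, `|b'| ≤ 1`, `N` a constant.
-/

set_option autoImplicit false

open MeasureTheory Set Filter Topology

namespace NUDi

open NUKer

noncomputable section

/-- the cut function -/
def cN (N R t : ℝ) : ℝ :=
  Real.smoothTransition ((R + N - t) / N) * Real.smoothTransition ((R + N + t) / N)

/-- its derivative -/
def cN1 (N R t : ℝ) : ℝ :=
  -(deriv Real.smoothTransition ((R + N - t) / N) / N) * Real.smoothTransition ((R + N + t) / N) +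
    Real.smoothTransition ((R + N - t) / N) * (deriv Real.smoothTransition ((R + N + t) / N) / N)

theorem cN_hd (N R t : ℝ) : HasDerivAt (cN N R) (cN1 N R t) t := by
  have h1 : HasDerivAt (fun t => Real.smoothTransition ((R + N - t) / N))
      (-(deriv Real.smoothTransition ((R + N - t) / N) / N)) t := by
    have h2 : HasDerivAt (fun t => (R + N - t) / N) (-1 / N) t :=
      ((hasDerivAt_id t).const_sub (R + N)).div_const N
    have := (sig_hd ((R + N - t) / N)).comp t h2
    have e : deriv Real.smoothTransition ((R + N - t) / N) * (-1 / N) =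
        -(deriv Real.smoothTransition ((R + N - t) / N) / N) := by ring
    rw [e] at this
    exact this
  have h3 : HasDerivAt (fun t => Real.smoothTransition ((R + N + t) / N))
      (deriv Real.smoothTransition ((R + N + t) / N) / N) t := by
    have h2 : HasDerivAt (fun t => (R + N + t) / N) (1 / N) t :=
      ((hasDerivAt_id t).const_add (R + N)).div_const N
    have := (sig_hd ((R + N + t) / N)).comp t h2
    have e : deriv Real.smoothTransition ((R + N + t) / N) * (1 / N) =
        deriv Real.smoothTransition ((R + N + t) / N) / N := by ring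
    rw [e] at this
    exact this
  exact h1.mul h3

/-- **cut function with slope at most one** -/
theorem exists_cutN : ∃ N : ℝ, 1 ≤ N ∧ ∀ R : ℝ, 0 ≤ R → Cutf (R + N) (cN N R) ∧
    (∀ x, HasDerivAt (cN N R) (cN1 N R x) x) ∧ Continuous (cN1 N R) ∧ (∀ x, |cN1 N R x| ≤ 1) ∧
    (∀ x, 0 ≤ cN N R x) ∧ (∀ x, cN N R x ≤ 1) ∧ ∀ x, |x| ≤ R → cN N R x = 1 := by
  obtain ⟨C, hC0, hC⟩ := exists_sig
  refine ⟨max 1 (2 * C), le_max_left _ _, fun R hR => ?_⟩
  obtain ⟨N, hN⟩ : ∃ N : ℝ, N = max 1 (2 * C) := ⟨_, rfl⟩
  rw [← hN]
  have hN1 : 1 ≤ N := by rw [hN]; exact le_max_left _ _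
  have hNC : 2 * C ≤ N := by rw [hN]; exact le_max_right _ _
  have hN0 : 0 < N := by linarith
  have p1 : ∀ x, 0 ≤ cN N R x := fun x =>
    mul_nonneg (Real.smoothTransition.nonneg _) (Real.smoothTransition.nonneg _)
  have p2 : ∀ x, cN N R x ≤ 1 := by
    intro x
    unfold cN
    have h1 := Real.smoothTransition.le_one ((R + N - x) / N)
    have h2 := Real.smoothTransition.le_one ((R + N + x) / N)
    have h3 := Real.smoothTransition.nonneg ((R + N - x) / N)
    have h4 := Real.smoothTransition.nonneg ((R + N + x) / N)
    nlinarith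
  have hc : Continuous (deriv Real.smoothTransition) :=
    (Real.smoothTransition.contDiff (n := 1)).continuous_deriv le_rfl
  have hs := Real.smoothTransition.continuous
  refine ⟨⟨by linarith, ?_, ?_, ?_⟩, cN_hd N R, ?_, ?_, p1, p2, ?_⟩
  · exact continuous_iff_continuousAt.2 fun x => (cN_hd N R x).continuousAt
  · intro x
    rw [abs_of_nonneg (p1 x)]
    exact p2 x
  · intro x hx
    unfold cN
    rcases lt_abs.1 hx with h | h
    · rw [Real.smoothTransition.zero_of_nonpos (div_nonpos_of_nonpos_of_nonneg (by linarith) hN0.le),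
        zero_mul]
    · rw [Real.smoothTransition.zero_of_nonpos (x := (R + N + x) / N)
        (div_nonpos_of_nonpos_of_nonneg (by linarith) hN0.le), mul_zero]
  · unfold cN1
    fun_prop
  · intro x
    unfold cN1
    have h1 := Real.smoothTransition.le_one ((R + N - x) / N)
    have h2 := Real.smoothTransition.le_one ((R + N + x) / N)
    have h3 := Real.smoothTransition.nonneg ((R + N - x) / N)
    have h4 := Real.smoothTransition.nonneg ((R + N + x) / N)
    have h5 : |deriv Real.smoothTransition ((R + N - x) / N) / N| ≤ 1 / 2 := by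
      rw [abs_div, abs_of_pos hN0, div_le_iff₀ hN0]
      have := hC ((R + N - x) / N)
      linarith
    have h6 : |deriv Real.smoothTransition ((R + N + x) / N) / N| ≤ 1 / 2 := by
      rw [abs_div, abs_of_pos hN0, div_le_iff₀ hN0]
      have := hC ((R + N + x) / N)
      linarith
    refine (abs_add_le _ _).trans ?_
    rw [abs_mul, abs_mul, abs_neg, abs_of_nonneg h3, abs_of_nonneg h4]
    have h7 : |deriv Real.smoothTransition ((R + N - x) / N) / N| *
        Real.smoothTransition ((R + N + x) / N) ≤ 1 / 2 * 1 := by gcongr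
    have h8 : Real.smoothTransition ((R + N - x) / N) *
        |deriv Real.smoothTransition ((R + N + x) / N) / N| ≤ 1 * (1 / 2) := by gcongr
    linarith
  · intro x hx
    rw [abs_le] at hx
    unfold cN
    rw [Real.smoothTransition.one_of_one_le (by rw [le_div_iff₀ hN0]; linarith),
      Real.smoothTransition.one_of_one_le (by rw [le_div_iff₀ hN0]; linarith), mul_one]

end

end NUDi
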