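import Pool.Agent.NUDi.Moment

/-!
# Crude bound with small kernels and squares, dichotomy, moments ([4.5], [4.6])

* `ExpB`: Gaussian exponential moments of all Fourier modes;
* `crude`, `crude_sq`: the weight with small kernels (class `KC`), and with one more square;
* `MB`: second moments of the Fourier modes; `MB.of_low`: they follow from `crude_sq` and a lower
  bound of the total weight (the dichotomy);
* `MB.kc`, `MB.lin`, `MB.lin_sq`: all small quadratic forms and linear statistics.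
-/

set_option autoImplicit false

open Complex Finset Filter MeasureTheory
open scoped Topology ENNReal

namespace NUDi

open NUKer

variable {Ω : Type*} [MeasurableSpace Ω]

/-- Gaussian exponential moments of the Fourier modes of one species -/
structure ExpB {ι : Type*} [Fintype ι] (μ : Measure Ω) (W : Ω → ℝ≥0∞) (R : ℝ) (ρ : ℝ → ℝ)
    (s : Ω → ι → ℝ) (B : ℝ≥0∞) (q0 M : ℝ) : Prop where
  cos : ∀ a : ℝ, ∃ l q : ℝ, q ≤ q0 * (1 + |a|) ∧ l ^ 2 ≤ M * (q0 * (1 + |a|)) ∧ ∀ x : ℝ,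
    ∫⁻ ω, W ω * ENNReal.ofReal (Real.exp (x * nu R ρ (s ω) fun t => Real.cos (a * t))) ∂μ ≤
      B * ENNReal.ofReal (Real.exp (l * x + q * x ^ 2 / 2))
  sin : ∀ a : ℝ, ∃ l q : ℝ, q ≤ q0 * (1 + |a|) ∧ l ^ 2 ≤ M * (q0 * (1 + |a|)) ∧ ∀ x : ℝ,
    ∫⁻ ω, W ω * ENNReal.ofReal (Real.exp (x * nu R ρ (s ω) fun t => Real.sin (a * t))) ∂μ ≤
      B * ENNReal.ofReal (Real.exp (l * x + q * x ^ 2 / 2))

/-- second moments of the Fourier modes of one species, weight `W` not normalised -/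
structure MB {ι : Type*} [Fintype ι] (μ : Measure Ω) (W : Ω → ℝ≥0∞) (R : ℝ) (ρ : ℝ → ℝ)
    (s : Ω → ι → ℝ) (m : ℝ) : Prop where
  cos : ∀ a : ℝ, ∫⁻ ω, W ω * ENNReal.ofReal ((nu R ρ (s ω) fun t => Real.cos (a * t)) ^ 2) ∂μ ≤
    ENNReal.ofReal (m * (1 + |a|)) * ∫⁻ ω, W ω ∂μ
  sin : ∀ a : ℝ, ∫⁻ ω, W ω * ENNReal.ofReal ((nu R ρ (s ω) fun t => Real.sin (a * t)) ^ 2) ∂μ ≤
    ENNReal.ofReal (m * (1 + |a|)) * ∫⁻ ω, W ω ∂μ

variable {μ : Measure Ω} {W : Ω → ℝ≥0∞} {B : ℝ≥0∞} {R q0 M : ℝ}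

theorem ExpB.sq_cos [SFinite μ] {n : ℕ} {ρ : ℝ → ℝ} {s : Ω → Fin n → ℝ} (hs : Measurable s)
    (hW : Measurable W) (h : ExpB μ W R ρ s B q0 M) (hq0 : 0 ≤ q0) (hM : 0 ≤ M) {c : ℝ} (hc : 0 ≤ c)
    (hcq : 4 * c * q0 ≤ 1) (a : ℝ) :
    ∫⁻ ω, W ω * ENNReal.ofReal (Real.exp (c / (1 + |a|) *
      (nu R ρ (s ω) fun t => Real.cos (a * t)) ^ 2)) ∂μ ≤
      B * ENNReal.ofReal (Real.sqrt 2 * Real.exp (2 * c * q0 * M)) := by
  obtain ⟨l, q, h1, h2, h3⟩ := h.cos a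
  exact sq_of_exp hW (measurable_nu hs (by fun_prop)) (by positivity) hc hq0 hM hcq h1 h2 h3

theorem ExpB.sq_sin [SFinite μ] {n : ℕ} {ρ : ℝ → ℝ} {s : Ω → Fin n → ℝ} (hs : Measurable s)
    (hW : Measurable W) (h : ExpB μ W R ρ s B q0 M) (hq0 : 0 ≤ q0) (hM : 0 ≤ M) {c : ℝ} (hc : 0 ≤ c)
    (hcq : 4 * c * q0 ≤ 1) (a : ℝ) :
    ∫⁻ ω, W ω * ENNReal.ofReal (Real.exp (c / (1 + |a|) *
      (nu R ρ (s ω) fun t => Real.sin (a * t)) ^ 2)) ∂μ ≤
      B * ENNReal.ofReal (Real.sqrt 2 * Real.exp (2 * c * q0 * M)) := by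
  obtain ⟨l, q, h1, h2, h3⟩ := h.sin a
  exact sq_of_exp hW (measurable_nu hs (by fun_prop)) (by positivity) hc hq0 hM hcq h1 h2 h3

section species

variable {σ : Type} [Fintype σ] [Nonempty σ] {n : σ → ℕ} {s : ∀ k, Ω → Fin (n k) → ℝ}
  {ρ : σ → ℝ → ℝ} {κ : σ → σ → ℝ → ℝ → ℝ} {Λ : σ → σ → ℝ} {Λ0 : ℝ}

/-- the quadratic form of all species -/
noncomputable def QF (R : ℝ) (ρ : σ → ℝ → ℝ) (κ : σ → σ → ℝ → ℝ → ℝ) (s : ∀ k, Ω → Fin (n k) → ℝ)
    (ω : Ω) : ℝ :=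
  ∑ k, ∑ k', nu2 R (ρ k) (ρ k') (s k ω) (s k' ω) (κ k k')

theorem nu2_smul {ι ι' : Type*} [Fintype ι] [Fintype ι'] {R : ℝ} {ρ ρ' : ℝ → ℝ} {s : ι → ℝ}
    {s' : ι' → ℝ} (c : ℝ) (κ : ℝ → ℝ → ℝ) :
    nu2 R ρ ρ' s s' (fun t t' => c * κ t t') = c * nu2 R ρ ρ' s s' κ := by
  unfold nu2
  have h1 : ∀ t, nu R ρ' s' (fun t' => c * κ t t') = c * nu R ρ' s' (κ t) := fun t => nu_smul c _
  simp only [h1]
  exact nu_smul c _

omit [MeasurableSpace Ω] [Nonempty σ] in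
theorem QF_smul (c : ℝ) (ω : Ω) :
    QF R ρ (fun k k' t t' => c * κ k k' t t') s ω = c * QF R ρ κ s ω := by
  unfold QF
  rw [mul_sum]
  refine sum_congr rfl fun k _ => ?_
  rw [mul_sum]
  exact sum_congr rfl fun k' _ => nu2_smul c _

theorem measurable_nu2 {n n' : ℕ} {R : ℝ} {ρ ρ' : ℝ → ℝ} (hρ : Continuous ρ) (hρ' : Continuous ρ')
    {s : Ω → Fin n → ℝ} {s' : Ω → Fin n' → ℝ} (hs : Measurable s) (hs' : Measurable s')
    {κ : ℝ → ℝ → ℝ} (hκ : Continuous fun p : ℝ × ℝ => κ p.1 p.2) :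
    Measurable fun ω => nu2 R ρ ρ' (s ω) (s' ω) κ := by
  have e1 : ∀ ω, nu2 R ρ ρ' (s ω) (s' ω) κ =
      ((∑ i, ∑ j, κ (s ω i) (s' ω j)) - ∑ i, ∫ u in (-R)..R, κ (s ω i) u * ρ' u) -
        ((∑ j, ∫ t in (-R)..R, κ t (s' ω j) * ρ t) -
          ∫ t in (-R)..R, (∫ u in (-R)..R, κ t u * ρ' u) * ρ t) := by
    intro ω
    unfold nu2 nu
    rw [← sum_sub_distrib]
    congr 1
    have c1 : Continuous fun t => ∫ u in (-R)..R, κ t u * ρ' u := by
      apply intervalIntegral.continuous_parametric_intervalIntegral_of_continuous'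
      exact (by fun_prop : Continuous fun p : ℝ × ℝ => κ p.1 p.2 * ρ' p.2)
    have c2 : ∀ j, Continuous fun t => κ t (s' ω j) := fun j =>
      hκ.comp (by fun_prop : Continuous fun t => (t, s' ω j))
    have i1 : ∀ j, IntervalIntegrable (fun t => κ t (s' ω j) * ρ t) volume (-R) R :=
      fun j => ((c2 j).mul hρ).intervalIntegrable _ _
    have i2 : IntervalIntegrable (fun t => (∫ u in (-R)..R, κ t u * ρ' u) * ρ t) volume (-R) R :=
      (c1.mul hρ).intervalIntegrable _ _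
    have i3 : IntervalIntegrable (fun t => ∑ j, κ t (s' ω j) * ρ t) volume (-R) R :=
      (continuous_finsetSum _ fun j _ => (c2 j).mul hρ).intervalIntegrable _ _
    simp only [sub_mul, sum_mul]
    rw [intervalIntegral.integral_sub i3 i2, intervalIntegral.integral_finsetSum fun j _ => i1 j]
  have m1 : Measurable fun ω => ∑ i, ∑ j, κ (s ω i) (s' ω j) := by
    refine Finset.measurable_fun_sum _ fun i _ => Finset.measurable_fun_sum _ fun j _ => ?_
    exact hκ.measurable.comp (by fun_prop : Measurable fun ω => (s ω i, s' ω j))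
  have m2 : Measurable fun ω => ∑ i, ∫ u in (-R)..R, κ (s ω i) u * ρ' u := by
    refine Finset.measurable_fun_sum _ fun i _ => ?_
    have c1 : Continuous fun t => ∫ u in (-R)..R, κ t u * ρ' u := by
      apply intervalIntegral.continuous_parametric_intervalIntegral_of_continuous'
      exact (by fun_prop : Continuous fun p : ℝ × ℝ => κ p.1 p.2 * ρ' p.2)
    exact c1.measurable.comp (by fun_prop : Measurable fun ω => s ω i)
  have m3 : Measurable fun ω => ∑ j, ∫ t in (-R)..R, κ t (s' ω j) * ρ t := by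
    refine Finset.measurable_fun_sum _ fun i _ => ?_
    have c1 : Continuous fun u => ∫ t in (-R)..R, κ t u * ρ t := by
      apply intervalIntegral.continuous_parametric_intervalIntegral_of_continuous'
      exact ((hκ.comp (by fun_prop : Continuous fun p : ℝ × ℝ => (p.2, p.1))).mul
        (by fun_prop : Continuous fun p : ℝ × ℝ => ρ p.2))
    exact c1.measurable.comp (by fun_prop : Measurable fun ω => s' ω i)
  rw [funext e1]
  exact (m1.sub m2).sub (m3.sub measurable_const)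

omit [Nonempty σ] in
theorem measurable_QF (hs : ∀ k, Measurable (s k)) (hρ : ∀ k, Continuous (ρ k))
    (hκ : ∀ k k', Continuous fun p : ℝ × ℝ => κ k k' p.1 p.2) : Measurable (QF R ρ κ s) := by
  unfold QF
  exact Finset.measurable_fun_sum _ fun k _ => Finset.measurable_fun_sum _ fun k' _ =>
    measurable_nu2 (hρ k) (hρ k') (hs k) (hs k') (hκ k k')

/-- **[4.5]** small kernels cost a bounded factor -/
theorem crude [SFinite μ] (hW : Measurable W) (hs : ∀ k, Measurable (s k)) (hR : 0 ≤ R)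
    (hsR : ∀ k ω i, |s k ω i| ≤ R) (hρ : ∀ k, Continuous (ρ k))
    (hκ : ∀ k k', Continuous fun p : ℝ × ℝ => κ k k' p.1 p.2)
    (hK : ∀ k k', KC R (Λ k k') (fun t t' => (κ k k' t t' : ℂ))) (hΛ0 : 0 < Λ0)
    (hΛ : ∑ k, ∑ k', Λ k k' ≤ Λ0) (hq0 : 0 ≤ q0) (hM : 0 ≤ M) (hq : 8 * Λ0 * q0 ≤ 1)
    (h : ∀ k, ExpB μ W R (ρ k) (s k) B q0 M) :
    ∫⁻ ω, W ω * ENNReal.ofReal (Real.exp (QF R ρ κ s ω)) ∂μ ≤
      B * ENNReal.ofReal (Real.sqrt 2 * Real.exp (4 * Λ0 * q0 * M)) := by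
  have e : 2 * (2 * Λ0) * q0 * M = 4 * Λ0 * q0 * M := by ring
  refine jensen hs hR hsR hρ hκ hK hΛ0 hΛ hW (fun k a => ?_) fun k a => ?_
  · rw [← e]
    exact (h k).sq_cos (hs k) hW hq0 hM (by positivity) (by linarith) a
  · rw [← e]
    exact (h k).sq_sin (hs k) hW hq0 hM (by positivity) (by linarith) a

/-- **[4.5]** with one more square -/
theorem crude_sq [SFinite μ] (hW : Measurable W) (hs : ∀ k, Measurable (s k)) (hR : 0 ≤ R)
    (hsR : ∀ k ω i, |s k ω i| ≤ R) (hρ : ∀ k, Continuous (ρ k))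
    (hκ : ∀ k k', Continuous fun p : ℝ × ℝ => κ k k' p.1 p.2)
    (hK : ∀ k k', KC R (Λ k k') (fun t t' => (κ k k' t t' : ℂ))) (hΛ0 : 0 < Λ0)
    (hΛ : ∑ k, ∑ k', Λ k k' ≤ Λ0) (hq0 : 0 ≤ q0) (hM : 0 ≤ M) {c : ℝ} (hc : 2 * Λ0 ≤ c)
    (hcq : 8 * c * q0 ≤ 1) (h : ∀ k, ExpB μ W R (ρ k) (s k) B q0 M) (k : σ) (a : ℝ) :
    ∫⁻ ω, W ω * ENNReal.ofReal (Real.exp (QF R ρ κ s ω + c / (1 + |a|) *
      (nu R (ρ k) (s k ω) fun t => Real.cos (a * t)) ^ 2)) ∂μ ≤
      B * ENNReal.ofReal (Real.sqrt 2 * Real.exp (4 * c * q0 * M)) ∧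
    ∫⁻ ω, W ω * ENNReal.ofReal (Real.exp (QF R ρ κ s ω + c / (1 + |a|) *
      (nu R (ρ k) (s k ω) fun t => Real.sin (a * t)) ^ 2)) ∂μ ≤
      B * ENNReal.ofReal (Real.sqrt 2 * Real.exp (4 * c * q0 * M)) := by
  have hc0 : 0 ≤ c := by linarith
  have h8 : 8 * (2 * Λ0) * q0 ≤ 1 := by
    have : 8 * (2 * Λ0) * q0 ≤ 8 * c * q0 := by gcongr
    linarith
  -- the kernels doubled
  have hG : ∫⁻ ω, W ω * ENNReal.ofReal (Real.exp (2 * QF R ρ κ s ω)) ∂μ ≤
      B * ENNReal.ofReal (Real.sqrt 2 * Real.exp (4 * c * q0 * M)) := by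
    have h1 := crude (μ := μ) (κ := fun k k' t t' => 2 * κ k k' t t')
      (Λ := fun k k' => 2 * Λ k k') (Λ0 := 2 * Λ0) hW hs hR hsR hρ
      (fun k k' => continuous_const.mul (hκ k k')) (fun k k' => by
        have := (hK k k').smul 2
        simpa using this) (by positivity) (by
        simp_rw [← mul_sum]
        linarith) hq0 hM h8 h
    refine le_trans (le_of_eq ?_) (h1.trans ?_)
    · exact lintegral_congr fun ω => by rw [QF_smul]
    · have h2 : 4 * (2 * Λ0) * q0 * M ≤ 4 * c * q0 * M := by gcongr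
      have h3 := Real.exp_le_exp.2 h2
      exact mul_le_mul_right (ENNReal.ofReal_le_ofReal
        (mul_le_mul_of_nonneg_left h3 (Real.sqrt_nonneg 2))) B
  have e : 2 * (2 * c) * q0 * M = 4 * c * q0 * M := by ring
  constructor
  · refine two_exp hW (measurable_QF hs hρ hκ) ?_ hG ?_
    · exact ((measurable_nu (hs k) (by fun_prop)).pow_const 2).const_mul _
    · have h1 := (h k).sq_cos (hs k) hW hq0 hM (c := 2 * c) (by positivity) (by linarith) a
      rw [e] at h1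
      refine le_trans (le_of_eq ?_) h1
      refine lintegral_congr fun ω => ?_
      congr 3
      ring
  · refine two_exp hW (measurable_QF hs hρ hκ) ?_ hG ?_
    · exact ((measurable_nu (hs k) (by fun_prop)).pow_const 2).const_mul _
    · have h1 := (h k).sq_sin (hs k) hW hq0 hM (c := 2 * c) (by positivity) (by linarith) a
      rw [e] at h1
      refine le_trans (le_of_eq ?_) h1
      refine lintegral_congr fun ω => ?_
      congr 3
      ring

end species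

end NUDi
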