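import Pool.Agent.NUDi.MB

/-!
# The dichotomy and linear statistics ([4.6])

* `MB.of_low`: `W₁ = W e^{QF}`, exponential moments of `W` and `∫ W₁ ≥ e^{-A} B` give `MB` for `W₁`
  with `m = 8 q0 (A + 1 + M)`;
* `MB.lin`, `MB.lin_sq`: linear statistics;
* `int_of_lint`: from `∫⁻ W |f| ≤ K ∫⁻ W` to the normalised measure.
-/

set_option autoImplicit false

open Complex Finset Filter MeasureTheory
open scoped Topology ENNReal

namespace NUDi

open NUKer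

variable {Ω : Type*} [MeasurableSpace Ω] {μ : Measure Ω} {W : Ω → ℝ≥0∞} {B : ℝ≥0∞} {R q0 M : ℝ}

/-- from a bound of the exponential moment of a square and a lower bound of the mass -/
theorem sq_moment {W₁ : Ω → ℝ≥0∞} (hW : Measurable W₁) {N : Ω → ℝ} (hN : Measurable N)
    {α c A K : ℝ} (hα : 0 < α) (hc : 0 < c) (hA : 0 ≤ A + K) (hB : B ≠ ∞)
    (h : ∫⁻ ω, W₁ ω * ENNReal.ofReal (Real.exp (c / α * N ω ^ 2)) ∂μ ≤
      B * ENNReal.ofReal (Real.exp K))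
    (hlow : B * ENNReal.ofReal (Real.exp (-A)) ≤ ∫⁻ ω, W₁ ω ∂μ) :
    ∫⁻ ω, W₁ ω * ENNReal.ofReal (N ω ^ 2) ∂μ ≤
      ENNReal.ofReal ((A + K) / c * α) * ∫⁻ ω, W₁ ω ∂μ := by
  have hf : ∫⁻ ω, W₁ ω ∂μ ≠ ∞ := by
    have h1 : ∫⁻ ω, W₁ ω ∂μ ≤ B * ENNReal.ofReal (Real.exp K) := by
      refine le_trans (lintegral_mono fun ω => ?_) h
      calc W₁ ω = W₁ ω * ENNReal.ofReal 1 := by simp
        _ ≤ _ := by
          gcongr
          exact Real.one_le_exp (by positivity)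
    exact ne_top_of_le_ne_top (ENNReal.mul_ne_top hB ENNReal.ofReal_ne_top) h1
  have h2 : ∫⁻ ω, W₁ ω * ENNReal.ofReal (Real.exp (c / α * N ω ^ 2)) ∂μ ≤
      ENNReal.ofReal (Real.exp (A + K)) * ∫⁻ ω, W₁ ω ∂μ := by
    refine h.trans ?_
    calc B * ENNReal.ofReal (Real.exp K) =
        ENNReal.ofReal (Real.exp (A + K)) * (B * ENNReal.ofReal (Real.exp (-A))) := by
          rw [mul_comm (ENNReal.ofReal (Real.exp (A + K))), mul_assoc,
            ← ENNReal.ofReal_mul (Real.exp_pos _).le, ← Real.exp_add]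
          congr 3
          ring
      _ ≤ _ := by gcongr
  have h3 := moment hW (G := fun ω => c / α * N ω ^ 2) (by fun_prop) (fun ω => by positivity) hA hf h2
  have h4 : ∀ ω, W₁ ω * ENNReal.ofReal (N ω ^ 2) =
      ENNReal.ofReal (α / c) * (W₁ ω * ENNReal.ofReal (c / α * N ω ^ 2)) := by
    intro ω
    rw [mul_left_comm, ← ENNReal.ofReal_mul (by positivity)]
    congr 2
    field_simp
  rw [lintegral_congr h4, lintegral_const_mul _ (by fun_prop)]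
  calc _ ≤ ENNReal.ofReal (α / c) * (ENNReal.ofReal (A + K) * ∫⁻ ω, W₁ ω ∂μ) := by gcongr
    _ = _ := by
      rw [← mul_assoc, ← ENNReal.ofReal_mul (by positivity)]
      congr 2
      ring

section species

variable {σ : Type} [Fintype σ] [Nonempty σ] {n : σ → ℕ} {s : ∀ k, Ω → Fin (n k) → ℝ}
  {ρ : σ → ℝ → ℝ} {κ : σ → σ → ℝ → ℝ → ℝ} {Λ : σ → σ → ℝ} {Λ0 : ℝ}

/-- **[4.6] dichotomy**: second moments of all Fourier modes for the weight `W₁ ≤ W e^{QF}`. -/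
theorem MB.of_low [SFinite μ] (hW : Measurable W) (hs : ∀ k, Measurable (s k)) (hR : 0 ≤ R)
    (hsR : ∀ k ω i, |s k ω i| ≤ R) (hρ : ∀ k, Continuous (ρ k))
    (hκ : ∀ k k', Continuous fun p : ℝ × ℝ => κ k k' p.1 p.2)
    (hK : ∀ k k', KC R (Λ k k') (fun t t' => (κ k k' t t' : ℂ))) (hΛ0 : 0 < Λ0)
    (hΛ : ∑ k, ∑ k', Λ k k' ≤ Λ0) (hq0 : 0 < q0) (hM : 0 ≤ M) (hq : 16 * Λ0 * q0 ≤ 1)
    (hB : B ≠ ∞) (h : ∀ k, ExpB μ W R (ρ k) (s k) B q0 M)
    {W₁ : Ω → ℝ≥0∞} (hW₁ : Measurable W₁)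
    (hle : ∀ ω, W₁ ω ≤ W ω * ENNReal.ofReal (Real.exp (QF R ρ κ s ω)))
    {A : ℝ} (hA : 0 ≤ A) (hlow : B * ENNReal.ofReal (Real.exp (-A)) ≤ ∫⁻ ω, W₁ ω ∂μ) (k : σ) :
    MB μ W₁ R (ρ k) (s k) (8 * q0 * (A + 1 + M)) := by
  obtain ⟨c, hc⟩ : ∃ c : ℝ, c = 1 / (8 * q0) := ⟨_, rfl⟩
  have hc0 : 0 < c := by rw [hc]; positivity
  have hcq : 8 * c * q0 = 1 := by rw [hc]; field_simp
  have hcΛ : 2 * Λ0 ≤ c := by
    rw [hc, le_div_iff₀ (by positivity)]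
    linarith
  have hs2 : Real.sqrt 2 ≤ Real.exp (1 / 2) := by
    have h1 : Real.sqrt 2 ≤ 3 / 2 := by
      rw [Real.sqrt_le_left (by norm_num)]
      norm_num
    have h2 := Real.add_one_le_exp (1 / 2)
    linarith
  have hK2 : Real.sqrt 2 * Real.exp (4 * c * q0 * M) ≤ Real.exp (1 + M) := by
    have e : 4 * c * q0 * M = M / 2 := by
      rw [show 4 * c * q0 * M = (8 * c * q0) * M / 2 by ring, hcq]
      ring
    rw [e]
    calc Real.sqrt 2 * Real.exp (M / 2) ≤ Real.exp (1 / 2) * Real.exp (M / 2) := by gcongr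
      _ = Real.exp (1 / 2 + M / 2) := (Real.exp_add _ _).symm
      _ ≤ _ := Real.exp_le_exp.2 (by linarith)
  have hcs := crude_sq (μ := μ) (c := c) hW hs hR hsR hρ hκ hK hΛ0 hΛ hq0.le hM hcΛ hcq.le h k
  have go : ∀ N : Ω → ℝ, ∀ a : ℝ, ∫⁻ ω, W ω * ENNReal.ofReal (Real.exp (QF R ρ κ s ω +
      c / (1 + |a|) * N ω ^ 2)) ∂μ ≤ B * ENNReal.ofReal (Real.sqrt 2 * Real.exp (4 * c * q0 * M)) →
      ∫⁻ ω, W₁ ω * ENNReal.ofReal (Real.exp (c / (1 + |a|) * N ω ^ 2)) ∂μ ≤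
        B * ENNReal.ofReal (Real.exp (1 + M)) := by
    intro N a hN
    refine (lintegral_mono fun ω => ?_).trans (hN.trans ?_)
    · rw [Real.exp_add, ENNReal.ofReal_mul (Real.exp_pos _).le, ← mul_assoc]
      exact mul_le_mul_left (hle ω) _
    · exact mul_le_mul_right (ENNReal.ofReal_le_ofReal hK2) B
  have e : (A + (1 + M)) / c = 8 * q0 * (A + 1 + M) := by
    rw [hc]
    field_simp
    ring
  constructor
  · intro a
    have h1 := sq_moment (μ := μ) (B := B) hW₁ (N := fun ω => nu R (ρ k) (s k ω)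
      fun t => Real.cos (a * t)) (measurable_nu (hs k) (by fun_prop)) (α := 1 + |a|) (c := c) (A := A)
      (K := 1 + M) (by positivity) hc0 (by linarith) hB (go _ a (hcs a).1) hlow
    rwa [e] at h1
  · intro a
    have h1 := sq_moment (μ := μ) (B := B) hW₁ (N := fun ω => nu R (ρ k) (s k ω)
      fun t => Real.sin (a * t)) (measurable_nu (hs k) (by fun_prop)) (α := 1 + |a|) (c := c) (A := A)
      (K := 1 + M) (by positivity) hc0 (by linarith) hB (go _ a (hcs a).2) hlow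
    rwa [e] at h1

end species

/-- the square of a linear statistic -/
theorem nu2_tensor {ι : Type*} [Fintype ι] {ρ : ℝ → ℝ} {s : ι → ℝ} (f : ℝ → ℝ) :
    nu2 R ρ ρ s s (fun t t' => f t * f t') = nu R ρ s f ^ 2 := by
  rw [nu2_prod, sq]

/-- **[4.6]** linear statistics: second moment -/
theorem MB.lin_sq {n : ℕ} {ρ : ℝ → ℝ} {s : Ω → Fin n → ℝ} (hW : Measurable W)
    (hf : ∫⁻ ω, W ω ∂μ ≠ ∞) (hs : Measurable s) (hR : 0 ≤ R) (hsR : ∀ ω i, |s ω i| ≤ R)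
    (hρ : Continuous ρ) {m : ℝ} (hm : 0 ≤ m) (h : MB μ W R ρ s m) {f : ℝ → ℝ} (hfc : Continuous f)
    {Λ : ℝ} (hK : KC R Λ (fun t _ => (f t : ℂ))) :
    ∫⁻ ω, W ω * ENNReal.ofReal (nu R ρ (s ω) f ^ 2) ∂μ ≤
      ENNReal.ofReal (2 * m * Λ ^ 2) * ∫⁻ ω, W ω ∂μ := by
  have hK' : KC R Λ (fun _ t' => (f t' : ℂ)) := by
    intro ε hε
    obtain ⟨ι, hι, c, a, b, h1, h2⟩ := hK ε hε
    refine ⟨ι, hι, fun i => c i * cexp (((b i * 0 : ℝ) : ℂ) * I), fun _ => 0, a, ?_, ?_⟩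
    · refine le_trans (sum_le_sum fun i _ => ?_) h1
      rw [norm_mul, norm_e, mul_one, abs_zero, add_zero]
      have := abs_nonneg (b i)
      exact mul_le_mul_of_nonneg_left (by linarith) (norm_nonneg _)
    · intro t t' ht ht'
      have h3 := h2 t' 0 ht' (by simpa using hR)
      refine le_trans (le_of_eq ?_) h3
      congr 2
      refine sum_congr rfl fun i _ => ?_
      rw [mul_assoc, ← Complex.exp_add]
      congr 2
      push_cast
      ring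
  have hT : KC R (Λ * Λ) (fun t t' => ((f t * f t' : ℝ) : ℂ)) := by
    have := hK.mul hK'
    simpa using this
  have h1 := MB.kc (κ := fun t t' => f t * f t') hW hf hs hs hR hsR hsR hρ hρ hm h h (by fun_prop) hT
  rw [sq Λ]
  refine le_trans (le_of_eq ?_) h1
  refine lintegral_congr fun ω => ?_
  rw [nu2_tensor, abs_of_nonneg (sq_nonneg _)]

/-- **[4.6]** linear statistics: first absolute moment -/
theorem MB.lin {n : ℕ} {ρ : ℝ → ℝ} {s : Ω → Fin n → ℝ} (hW : Measurable W)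
    (hf : ∫⁻ ω, W ω ∂μ ≠ ∞) (hs : Measurable s) (hR : 0 ≤ R) (hsR : ∀ ω i, |s ω i| ≤ R)
    (hρ : Continuous ρ) {m : ℝ} (hm : 0 < m) (h : MB μ W R ρ s m) {f : ℝ → ℝ} (hfc : Continuous f)
    {Λ : ℝ} (hΛ : 0 < Λ) (hK : KC R Λ (fun t _ => (f t : ℂ))) :
    ∫⁻ ω, W ω * ENNReal.ofReal |nu R ρ (s ω) f| ∂μ ≤
      ENNReal.ofReal (2 * Real.sqrt m * Λ) * ∫⁻ ω, W ω ∂μ := by
  have h1 := MB.lin_sq hW hf hs hR hsR hρ hm.le h hfc hK
  obtain ⟨b, hb⟩ : ∃ b : ℝ, b = 2 * Real.sqrt m * Λ := ⟨_, rfl⟩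
  have hsm := Real.sqrt_pos.2 hm
  have hb0 : 0 < b := by rw [hb]; positivity
  have hb2 : 2 * m * Λ ^ 2 = b ^ 2 / 2 := by
    rw [hb, mul_pow, mul_pow, Real.sq_sqrt hm.le]
    ring
  -- `|x| ≤ x²/(2b) + b/2`
  have h2 : ∀ ω, W ω * ENNReal.ofReal |nu R ρ (s ω) f| ≤
      ENNReal.ofReal (1 / (2 * b)) * (W ω * ENNReal.ofReal (nu R ρ (s ω) f ^ 2)) +
        ENNReal.ofReal (b / 2) * W ω := by
    intro ω
    have h3 : |nu R ρ (s ω) f| ≤ 1 / (2 * b) * nu R ρ (s ω) f ^ 2 + b / 2 := by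
      rw [← sq_abs (nu R ρ (s ω) f)]
      have e : 1 / (2 * b) * |nu R ρ (s ω) f| ^ 2 + b / 2 - |nu R ρ (s ω) f| =
          (|nu R ρ (s ω) f| - b) ^ 2 / (2 * b) := by
        field_simp
        ring
      have : 0 ≤ (|nu R ρ (s ω) f| - b) ^ 2 / (2 * b) := by positivity
      linarith
    have h4 := ENNReal.ofReal_le_ofReal h3
    rw [ENNReal.ofReal_add (by positivity) (by positivity), ENNReal.ofReal_mul (by positivity)] at h4
    calc _ ≤ W ω * (ENNReal.ofReal (1 / (2 * b)) * ENNReal.ofReal (nu R ρ (s ω) f ^ 2) +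
        ENNReal.ofReal (b / 2)) := by gcongr
      _ = _ := by ring
  refine (lintegral_mono h2).trans ?_
  have := (measurable_nu (R := R) (ρ := ρ) hs hfc)
  rw [lintegral_add_left (by fun_prop), lintegral_const_mul _ (by fun_prop),
    lintegral_const_mul _ hW]
  calc _ ≤ ENNReal.ofReal (1 / (2 * b)) * (ENNReal.ofReal (2 * m * Λ ^ 2) * ∫⁻ ω, W ω ∂μ) +
      ENNReal.ofReal (b / 2) * ∫⁻ ω, W ω ∂μ := by gcongr
    _ = ENNReal.ofReal (1 / (2 * b) * (b ^ 2 / 2) + b / 2) * ∫⁻ ω, W ω ∂μ := by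
      rw [hb2, ← mul_assoc, ← ENNReal.ofReal_mul (by positivity), ← add_mul,
        ← ENNReal.ofReal_add (by positivity) (by positivity)]
    _ ≤ _ := by
      refine mul_le_mul_left (ENNReal.ofReal_le_ofReal ?_) _
      rw [← hb]
      have : 1 / (2 * b) * (b ^ 2 / 2) = b / 4 := by
        field_simp
        ring
      rw [this]
      linarith

/-- the normalised measure -/
noncomputable def prb (μ : Measure Ω) (W : Ω → ℝ≥0∞) : Measure Ω :=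
  (∫⁻ ω, W ω ∂μ)⁻¹ • μ.withDensity W

theorem prb_prob (h0 : ∫⁻ ω, W ω ∂μ ≠ 0) (hf : ∫⁻ ω, W ω ∂μ ≠ ∞) :
    IsProbabilityMeasure (prb μ W) := by
  constructor
  unfold prb
  rw [Measure.smul_apply, withDensity_apply _ MeasurableSet.univ, Measure.restrict_univ, smul_eq_mul]
  exact ENNReal.inv_mul_cancel h0 hf

/-- from `∫⁻ W |f| ≤ K ∫⁻ W` to the normalised measure -/
theorem int_of_lint (hW : Measurable W) (h0 : ∫⁻ ω, W ω ∂μ ≠ 0) (hf : ∫⁻ ω, W ω ∂μ ≠ ∞)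
    {f : Ω → ℝ} (hfm : Measurable f) {K : ℝ} (hK : 0 ≤ K)
    (h : ∫⁻ ω, W ω * ENNReal.ofReal |f ω| ∂μ ≤ ENNReal.ofReal K * ∫⁻ ω, W ω ∂μ) :
    Integrable f (prb μ W) ∧ ∫ ω, |f ω| ∂(prb μ W) ≤ K ∧ |∫ ω, f ω ∂(prb μ W)| ≤ K := by
  have h1 : ∫⁻ ω, ENNReal.ofReal |f ω| ∂(prb μ W) ≤ ENNReal.ofReal K := by
    unfold prb
    rw [lintegral_smul_measure, smul_eq_mul, lintegral_withDensity_eq_lintegral_mul _ hW
      (by fun_prop)]
    simp only [Pi.mul_apply]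
    calc _ ≤ (∫⁻ ω, W ω ∂μ)⁻¹ * (ENNReal.ofReal K * ∫⁻ ω, W ω ∂μ) := by gcongr
      _ = ENNReal.ofReal K * ((∫⁻ ω, W ω ∂μ)⁻¹ * ∫⁻ ω, W ω ∂μ) := by ring
      _ = _ := by rw [ENNReal.inv_mul_cancel h0 hf, mul_one]
  have hi : Integrable f (prb μ W) := by
    refine ⟨hfm.aestronglyMeasurable, ?_⟩
    unfold HasFiniteIntegral
    refine lt_of_le_of_lt (le_trans (le_of_eq ?_) h1) ENNReal.ofReal_lt_top
    refine lintegral_congr fun ω => ?_
    rw [← ofReal_norm, Real.norm_eq_abs]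
  have h2 : ∫ ω, |f ω| ∂(prb μ W) ≤ K := by
    rw [integral_eq_lintegral_of_nonneg_ae (Filter.Eventually.of_forall fun ω => abs_nonneg _)
      hi.abs.aestronglyMeasurable]
    exact ENNReal.toReal_le_of_le_ofReal hK h1
  exact ⟨hi, h2, (abs_integral_le_integral_abs).trans h2⟩

end NUDi
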