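import Pool.Agent.NUWC.Four
import Pool.Agent.NUC62.Bound

/-!
# Fourier data of a `C¹` function on the circle

`f : ℝ → ℝ` is `C¹` with `f (Λ/2) = f (-(Λ/2))` (no periodicity, no condition on `f'`).

* `fc_deriv`, `pars`, `half_le`: coefficients of the derivative, Bessel;
* `summable_fc`, `ser`: absolutely convergent Fourier series on `|t| ≤ Λ/2`;
* `energy_le`, `energy_uh`: `H^{1/2}` energy.
-/

set_option autoImplicit false

open MeasureTheory Set Filter Topology Pool.Agent.Szego62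
open scoped Real

namespace NUDi

open NUWC NUC62

noncomputable section

variable {Λ : ℝ}

/-- the exponential of the Fourier coefficient -/
def ex (Λ : ℝ) (k : ℤ) (x : ℝ) : ℂ := Complex.exp (-(2 * π * k / Λ * x : ℝ) * Complex.I)

lemma fc_ex (Λ : ℝ) (f : ℝ → ℝ) (k : ℤ) :
    fc Λ f k = (1 / Λ : ℝ) * ∫ x in (-(Λ / 2))..(Λ / 2), ex Λ k x * (f x : ℂ) := rfl

lemma ex_deriv (Λ : ℝ) (k : ℤ) (x : ℝ) :
    HasDerivAt (ex Λ k) (-(2 * π * k / Λ : ℝ) * Complex.I * ex Λ k x) x := by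
  unfold ex
  have h1 : HasDerivAt (fun x : ℝ => (-(2 * π * k / Λ * x : ℝ) * Complex.I : ℂ))
      (-(2 * π * k / Λ : ℝ) * Complex.I) x := by
    have h2 : HasDerivAt (fun x : ℝ => ((2 * π * k / Λ * x : ℝ) : ℂ)) ((2 * π * k / Λ : ℝ) : ℂ) x := by
      have := ((hasDerivAt_id x).const_mul (2 * π * k / Λ : ℝ)).ofReal_comp
      simpa using this
    exact (h2.neg).mul_const _
  have h3 := h1.cexp
  have e : Complex.exp (-((2 * π * k / Λ * x : ℝ) : ℂ) * Complex.I) *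
      (-((2 * π * k / Λ : ℝ) : ℂ) * Complex.I) =
      -((2 * π * k / Λ : ℝ) : ℂ) * Complex.I * Complex.exp (-((2 * π * k / Λ * x : ℝ) : ℂ) * Complex.I) := by
    ring
  rw [e] at h3
  exact h3

lemma ex_cont (Λ : ℝ) (k : ℤ) : Continuous (ex Λ k) := by
  unfold ex
  fun_prop

lemma ex_end (hΛ : 0 < Λ) (k : ℤ) : ex Λ k (Λ / 2) = ex Λ k (-(Λ / 2)) := by
  unfold ex
  have h1 : (-((2 * π * k / Λ * (-(Λ / 2)) : ℝ) : ℂ) * Complex.I) =
      (-((2 * π * k / Λ * (Λ / 2) : ℝ) : ℂ) * Complex.I) + (k : ℂ) * (2 * π * Complex.I) := by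
    have hΛ' : (Λ : ℂ) ≠ 0 := by exact_mod_cast hΛ.ne'
    push_cast
    field_simp
    ring
  rw [h1, Complex.exp_add, Complex.exp_int_mul_two_pi_mul_I, mul_one]

/-- coefficients of the derivative -/
theorem fc_deriv (hΛ : 0 < Λ) {f f1 : ℝ → ℝ} (hf : ∀ x, HasDerivAt f (f1 x) x)
    (hf1 : Continuous f1) (hend : f (Λ / 2) = f (-(Λ / 2))) (k : ℤ) :
    fc Λ f1 k = (2 * π * k / Λ : ℝ) * Complex.I * fc Λ f k := by
  have h1 := intervalIntegral.integral_mul_deriv_eq_deriv_mul (a := -(Λ / 2)) (b := Λ / 2)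
    (u := ex Λ k) (v := fun x => (f x : ℂ)) (u' := fun x => -(2 * π * k / Λ : ℝ) * Complex.I * ex Λ k x)
    (v' := fun x => (f1 x : ℂ)) (fun x _ => ex_deriv Λ k x) (fun x _ => (hf x).ofReal_comp)
    (by
      apply Continuous.intervalIntegrable
      have := ex_cont Λ k
      fun_prop)
    (by
      apply Continuous.intervalIntegrable
      fun_prop)
  rw [fc_ex, fc_ex, h1, ex_end hΛ, hend, sub_self, zero_sub]
  have h2 : ∀ x : ℝ, -((2 * π * k / Λ : ℝ) : ℂ) * Complex.I * ex Λ k x * (f x : ℂ) =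
      (-((2 * π * k / Λ : ℝ) : ℂ) * Complex.I) * (ex Λ k x * (f x : ℂ)) := fun x => by ring
  simp_rw [h2]
  rw [intervalIntegral.integral_const_mul]
  ring

/-- Parseval -/
theorem pars (hΛ : 0 < Λ) {f : ℝ → ℝ} (hf : Continuous f) :
    HasSum (fun k : ℤ => ‖fc Λ f k‖ ^ 2) (1 / Λ * ∫ x in (-(Λ / 2))..(Λ / 2), f x ^ 2) := by
  have hab : -(Λ / 2) < Λ / 2 := by linarith
  have hL2 : MemLp (fun x => (f x : ℂ)) 2 (volume.restrict (Ioc (-(Λ / 2)) (Λ / 2))) := by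
    obtain ⟨C, hC⟩ := isCompact_Icc.exists_bound_of_continuousOn (s := Icc (-(Λ / 2)) (Λ / 2))
      (f := fun x => (f x : ℂ)) (by fun_prop)
    refine MemLp.of_bound ?_ C ?_
    · exact (Complex.continuous_ofReal.comp hf).aestronglyMeasurable
    · refine (ae_restrict_iff' measurableSet_Ioc).2 (Eventually.of_forall fun x hx => ?_)
      exact hC x ⟨hx.1.le, hx.2⟩
  have h1 := hasSum_sq_fourierCoeffOn hab hL2
  have e : ∀ k : ℤ, fourierCoeffOn hab (fun x => (f x : ℂ)) k = fc Λ f k := by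
    intro k
    rw [fourierCoeffOn_eq_integral, fc_ex]
    have e1 : (Λ / 2 - -(Λ / 2)) = Λ := by ring
    rw [Complex.real_smul]
    congr 1
    · rw [e1]
    · refine intervalIntegral.integral_congr fun x _ => ?_
      simp only [smul_eq_mul]
      rw [fourier_coe_apply, ex]
      congr 2
      rw [e1]
      push_cast
      ring
  simp_rw [e] at h1
  have e2 : (Λ / 2 - -(Λ / 2))⁻¹ • ∫ x in (-(Λ / 2))..(Λ / 2), ‖(f x : ℂ)‖ ^ 2 =
      1 / Λ * ∫ x in (-(Λ / 2))..(Λ / 2), f x ^ 2 := by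
    rw [show (Λ / 2 - -(Λ / 2)) = Λ by ring, smul_eq_mul, one_div]
    congr 1
    refine intervalIntegral.integral_congr fun x _ => ?_
    simp only [Complex.norm_real, Real.norm_eq_abs, sq_abs]
  rw [e2] at h1
  exact h1

lemma half_sum {g : ℤ → ℝ} (hg : ∀ k, 0 ≤ g k) (hev : ∀ k, g (-k) = g k) {S : ℝ} (h : HasSum g S) (K : ℕ) :
    ∑ p ∈ Finset.range K, g ((p : ℤ) + 1) ≤ S / 2 := by
  have h1 : ∑ k ∈ (Finset.range K).image (fun p : ℕ => (p : ℤ) + 1) ∪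
      (Finset.range K).image (fun p : ℕ => -((p : ℤ) + 1)), g k ≤ S :=
    sum_le_hasSum _ (fun k _ => hg k) h
  rw [Finset.sum_union, Finset.sum_image, Finset.sum_image] at h1
  · have h2 : ∑ x ∈ Finset.range K, g (-((x : ℤ) + 1)) = ∑ x ∈ Finset.range K, g ((x : ℤ) + 1) :=
      Finset.sum_congr rfl fun x _ => hev _
    rw [h2] at h1
    linarith
  · intro a _ b _ h
    simp only [neg_inj, add_left_inj, Nat.cast_inj] at h
    exact h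
  · intro a _ b _ h
    simp only [add_left_inj, Nat.cast_inj] at h
    exact h
  · rw [Finset.disjoint_left]
    intro k hk hk'
    simp only [Finset.mem_image, Finset.mem_range] at hk hk'
    obtain ⟨a, _, rfl⟩ := hk
    obtain ⟨b, _, hb⟩ := hk'
    omega

/-- Bessel, one side -/
theorem half_le (hΛ : 0 < Λ) {f : ℝ → ℝ} (hf : Continuous f) (K : ℕ) :
    ∑ p ∈ Finset.range K, Λ * ‖fc Λ f ((p : ℤ) + 1)‖ ^ 2 ≤
      1 / 2 * ∫ x in (-(Λ / 2))..(Λ / 2), f x ^ 2 := by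
  have h1 := half_sum (g := fun k : ℤ => ‖fc Λ f k‖ ^ 2) (fun k => by positivity) (fun k => by
    rw [fc_neg, Complex.norm_conj]) (pars hΛ hf) K
  rw [← Finset.mul_sum]
  calc Λ * ∑ i ∈ Finset.range K, ‖fc Λ f ((i : ℤ) + 1)‖ ^ 2 ≤
      Λ * ((1 / Λ * ∫ x in (-(Λ / 2))..(Λ / 2), f x ^ 2) / 2) := by gcongr
    _ = _ := by field_simp

theorem norm_fc_deriv (hΛ : 0 < Λ) {f f1 : ℝ → ℝ} (hf : ∀ x, HasDerivAt f (f1 x) x)
    (hf1 : Continuous f1) (hend : f (Λ / 2) = f (-(Λ / 2))) (p : ℕ) :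
    ‖fc Λ f1 ((p : ℤ) + 1)‖ = kp Λ p * ‖fc Λ f ((p : ℤ) + 1)‖ := by
  rw [fc_deriv hΛ hf hf1 hend, norm_mul, norm_mul, Complex.norm_I, mul_one, Complex.norm_real,
    Real.norm_eq_abs]
  unfold kp
  push_cast
  rw [abs_of_pos (by positivity)]

theorem summable_fc (hΛ : 0 < Λ) {f f1 : ℝ → ℝ} (hf : ∀ x, HasDerivAt f (f1 x) x)
    (hf1 : Continuous f1) (hend : f (Λ / 2) = f (-(Λ / 2))) :
    Summable fun p : ℕ => ‖fc Λ f ((p : ℤ) + 1)‖ := by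
  have h1 : Summable fun k : ℤ => ‖fc Λ f1 k‖ ^ 2 := (pars hΛ hf1).summable
  have h2 : Summable fun p : ℕ => ‖fc Λ f1 ((p : ℤ) + 1)‖ ^ 2 := by
    refine h1.comp_injective (i := fun p : ℕ => (p : ℤ) + 1) ?_
    intro a b h
    simpa using h
  have h3 : Summable fun p : ℕ => 1 / kp Λ p ^ 2 := by
    have h4 : Summable fun p : ℕ => 1 / ((p : ℝ) + 1) ^ 2 := by
      have := (summable_nat_add_iff 1).2 (Real.summable_one_div_nat_pow.2 (by norm_num : 1 < 2))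
      refine this.congr fun p => ?_
      push_cast
      rfl
    refine (h4.mul_left ((Λ / (2 * π)) ^ 2)).congr fun p => ?_
    unfold kp
    field_simp
  refine Summable.of_nonneg_of_le (fun p => norm_nonneg _) (fun p => ?_) ((h2.add h3).mul_left (1 / 2))
  have h5 := norm_fc_deriv hΛ hf hf1 hend p
  have h6 : 0 < kp Λ p := kp_pos hΛ p
  have h7 : ‖fc Λ f ((p : ℤ) + 1)‖ = ‖fc Λ f1 ((p : ℤ) + 1)‖ * (1 / kp Λ p) := by
    rw [h5]
    field_simp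
  rw [h7]
  have h8 : 1 / kp Λ p ^ 2 = (1 / kp Λ p) ^ 2 := by rw [div_pow, one_pow]
  rw [h8]
  nlinarith [sq_nonneg (‖fc Λ f1 ((p : ℤ) + 1)‖ - 1 / kp Λ p)]

/-- energy with the weight `1 + k` -/
theorem energy_le (hΛ : 0 < Λ) {f f1 : ℝ → ℝ} (hf : ∀ x, HasDerivAt f (f1 x) x)
    (hf1 : Continuous f1) (hend : f (Λ / 2) = f (-(Λ / 2))) {A B : ℝ}
    (hA : ∫ x in (-(Λ / 2))..(Λ / 2), f x ^ 2 ≤ A ^ 2) (hB : ∫ x in (-(Λ / 2))..(Λ / 2), f1 x ^ 2 ≤ B ^ 2)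
    (hA0 : 0 ≤ A) (hB0 : 0 ≤ B) (K : ℕ) :
    ∑ p ∈ Finset.range K, Λ * ‖fc Λ f ((p : ℤ) + 1)‖ ^ 2 * (1 + kp Λ p) ≤ 1 / 2 * (A ^ 2 + A * B) := by
  have hfc : Continuous f := continuous_iff_continuousAt.2 fun x => (hf x).continuousAt
  have h1 := half_le hΛ hfc K
  have h2 := half_le hΛ hf1 K
  have h3 : ∑ p ∈ Finset.range K, Λ * ‖fc Λ f ((p : ℤ) + 1)‖ ^ 2 * kp Λ p ≤ 1 / 2 * (A * B) := by
    have h4 : (∑ p ∈ Finset.range K, Λ * ‖fc Λ f ((p : ℤ) + 1)‖ ^ 2 * kp Λ p) ^ 2 ≤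
        (∑ p ∈ Finset.range K, Λ * ‖fc Λ f ((p : ℤ) + 1)‖ ^ 2) *
        ∑ p ∈ Finset.range K, Λ * ‖fc Λ f1 ((p : ℤ) + 1)‖ ^ 2 := by
      have h5 := Finset.sum_mul_sq_le_sq_mul_sq (Finset.range K)
        (fun p => √Λ * ‖fc Λ f ((p : ℤ) + 1)‖) (fun p => √Λ * ‖fc Λ f1 ((p : ℤ) + 1)‖)
      have e1 : ∀ p ∈ Finset.range K, √Λ * ‖fc Λ f ((p : ℤ) + 1)‖ * (√Λ * ‖fc Λ f1 ((p : ℤ) + 1)‖) =
          Λ * ‖fc Λ f ((p : ℤ) + 1)‖ ^ 2 * kp Λ p := by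
        intro p _
        rw [norm_fc_deriv hΛ hf hf1 hend]
        have := Real.mul_self_sqrt hΛ.le
        linear_combination (‖fc Λ f ((p : ℤ) + 1)‖ ^ 2 * kp Λ p) * this
      have e2 : ∀ g : ℝ → ℝ, ∀ p ∈ Finset.range K, (√Λ * ‖fc Λ g ((p : ℤ) + 1)‖) ^ 2 =
          Λ * ‖fc Λ g ((p : ℤ) + 1)‖ ^ 2 := by
        intro g p _
        rw [mul_pow, Real.sq_sqrt hΛ.le]
      rw [Finset.sum_congr rfl e1, Finset.sum_congr rfl (e2 f), Finset.sum_congr rfl (e2 f1)] at h5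
      exact h5
    have h0 : 0 ≤ ∑ p ∈ Finset.range K, Λ * ‖fc Λ f ((p : ℤ) + 1)‖ ^ 2 * kp Λ p :=
      Finset.sum_nonneg fun p _ => by
        have := kp_pos hΛ p
        positivity
    refine le_of_sq_le_sq ?_ (by positivity)
    refine h4.trans ?_
    have g1 : 0 ≤ ∑ p ∈ Finset.range K, Λ * ‖fc Λ f1 ((p : ℤ) + 1)‖ ^ 2 :=
      Finset.sum_nonneg fun p _ => by positivity
    calc _ ≤ (1 / 2 * A ^ 2) * (1 / 2 * B ^ 2) := by
          refine mul_le_mul (h1.trans (by linarith)) (h2.trans (by linarith)) g1 (by positivity)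
      _ = _ := by ring
  have e3 : ∑ p ∈ Finset.range K, Λ * ‖fc Λ f ((p : ℤ) + 1)‖ ^ 2 * (1 + kp Λ p) =
      ∑ p ∈ Finset.range K, Λ * ‖fc Λ f ((p : ℤ) + 1)‖ ^ 2 +
      ∑ p ∈ Finset.range K, Λ * ‖fc Λ f ((p : ℤ) + 1)‖ ^ 2 * kp Λ p := by
    rw [← Finset.sum_add_distrib]
    exact Finset.sum_congr rfl fun p _ => by ring
  rw [e3]
  linarith

theorem inv_uh_le {G k : ℝ} (hG : 9 ≤ G) (hk : 0 < k) : 1 / uh G k ≤ 2 * (1 + k) := by
  have h1 := uh_ge hG hk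
  have h2 := ratio_half hG hk
  have h3 := Vh_ge hk
  have h4 : 0 < 1 / (1 + k) := by positivity
  have h5 : 1 / (2 * (1 + k)) ≤ uh G k := by
    calc 1 / (2 * (1 + k)) = 1 / 2 * (1 / (1 + k)) := by field_simp
      _ ≤ (1 - eG G / (1 + k)) * Vh k := by
        refine mul_le_mul (by linarith) h3 h4.le (by linarith)
      _ ≤ _ := h1
  calc 1 / uh G k ≤ 1 / (1 / (2 * (1 + k))) := one_div_le_one_div_of_le (by positivity) h5
    _ = _ := by rw [one_div_one_div]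

/-- energy in the norm of the circle bound -/
theorem energy_uh {G : ℝ} (hG : 9 ≤ G) (hΛ : 0 < Λ) {f f1 : ℝ → ℝ} (hf : ∀ x, HasDerivAt f (f1 x) x)
    (hf1 : Continuous f1) (hend : f (Λ / 2) = f (-(Λ / 2))) {A B : ℝ}
    (hA : ∫ x in (-(Λ / 2))..(Λ / 2), f x ^ 2 ≤ A ^ 2) (hB : ∫ x in (-(Λ / 2))..(Λ / 2), f1 x ^ 2 ≤ B ^ 2)
    (hA0 : 0 ≤ A) (hB0 : 0 ≤ B) (K : ℕ) :
    ∑ p ∈ Finset.range K, Λ * ‖fc Λ f ((p : ℤ) + 1)‖ ^ 2 / uh G (kp Λ p) ≤ A ^ 2 + A * B := by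
  have h1 := energy_le hΛ hf hf1 hend hA hB hA0 hB0 K
  have h2 : ∑ p ∈ Finset.range K, Λ * ‖fc Λ f ((p : ℤ) + 1)‖ ^ 2 / uh G (kp Λ p) ≤
      2 * ∑ p ∈ Finset.range K, Λ * ‖fc Λ f ((p : ℤ) + 1)‖ ^ 2 * (1 + kp Λ p) := by
    rw [Finset.mul_sum]
    refine Finset.sum_le_sum fun p _ => ?_
    have h3 := inv_uh_le hG (kp_pos hΛ p)
    calc Λ * ‖fc Λ f ((p : ℤ) + 1)‖ ^ 2 / uh G (kp Λ p) =
        Λ * ‖fc Λ f ((p : ℤ) + 1)‖ ^ 2 * (1 / uh G (kp Λ p)) := by ring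
      _ ≤ Λ * ‖fc Λ f ((p : ℤ) + 1)‖ ^ 2 * (2 * (1 + kp Λ p)) := by gcongr
      _ = _ := by ring
  linarith

end

end NUDi
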