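import Pool.Agent.NUDi.Energy

/-!
# Fourier series on the circle of a `C¹` function given on a window

* `ser`: `f t = a0 + Aser c (2 π t / Λ)` for `|t| ≤ Λ/2`, if `f (Λ/2) = f (-(Λ/2))`;
* `hodd`: odd `C¹` function, `0` on `|t| ≤ T`, `1` at `Λ/2`;
* `fe`: the correction of `f` outside the window, `fe_deriv`, `fe_end`, `fe_eq`, bounds.
-/

set_option autoImplicit false

open MeasureTheory Set Filter Topology Pool.Agent.Szego62
open scoped Real

namespace NUDi

open NUWC NUC62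

noncomputable section

variable {Λ : ℝ}

/-- periodic extension -/
theorem exists_pext (hΛ : 0 < Λ) {f : ℝ → ℝ} (hf : Continuous f) (hend : f (Λ / 2) = f (-(Λ / 2))) :
    ∃ F : ℝ → ℝ, Continuous F ∧ Function.Periodic F Λ ∧ ∀ x, |x| ≤ Λ / 2 → F x = f x := by
  have : Fact (0 < Λ) := ⟨hΛ⟩
  refine ⟨fun x => AddCircle.liftIco Λ (-(Λ / 2)) f (x : AddCircle Λ), ?_, ?_, ?_⟩
  · have h1 : Continuous (AddCircle.liftIco Λ (-(Λ / 2)) f) := by
      refine AddCircle.liftIco_continuous ?_ hf.continuousOn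
      rw [← hend]
      congr 1
      ring
    exact h1.comp (AddCircle.continuous_mk' Λ)
  · intro x
    simp only [AddCircle.coe_add_period]
  · intro x hx
    have hx' := abs_le.1 hx
    rcases eq_or_lt_of_le hx'.2 with h | h
    · subst h
      have e1 : (((Λ / 2 : ℝ)) : AddCircle Λ) = ((-(Λ / 2) : ℝ) : AddCircle Λ) := by
        have := AddCircle.coe_add_period Λ (-(Λ / 2))
        rw [← this]
        congr 1
        ring
      change AddCircle.liftIco Λ (-(Λ / 2)) f (((Λ / 2 : ℝ)) : AddCircle Λ) = f (Λ / 2)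
      rw [e1, AddCircle.liftIco_coe_apply, hend]
      constructor <;> linarith
    · exact AddCircle.liftIco_coe_apply ⟨hx'.1, by linarith⟩

theorem fc_congr (hΛ : 0 < Λ) {f g : ℝ → ℝ} (h : ∀ x, |x| ≤ Λ / 2 → f x = g x) (k : ℤ) :
    fc Λ f k = fc Λ g k := by
  rw [fc_ex, fc_ex]
  congr 1
  refine intervalIntegral.integral_congr fun x hx => ?_
  rw [uIcc_of_le (by linarith)] at hx
  rw [h x (abs_le.2 hx)]

/-- Fourier series -/
theorem ser (hΛ : 0 < Λ) {f f1 : ℝ → ℝ} (hf : ∀ x, HasDerivAt f (f1 x) x)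
    (hf1 : Continuous f1) (hend : f (Λ / 2) = f (-(Λ / 2))) {t : ℝ} (ht : |t| ≤ Λ / 2) :
    f t = (fc Λ f 0).re + Aser (fun k => fc Λ f ((k : ℤ) + 1)) (2 * π * t / Λ) := by
  have hfc : Continuous f := continuous_iff_continuousAt.2 fun x => (hf x).continuousAt
  obtain ⟨F, hF, hp, he⟩ := exists_pext hΛ hfc hend
  have h1 : ∀ k, fc Λ F k = fc Λ f k := fc_congr hΛ he
  have h2 := ser_of_coef hΛ hF hp (by
    simp_rw [h1]
    exact summable_fc hΛ hf hf1 hend) t
  simp_rw [h1] at h2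
  rw [he t ht] at h2
  exact h2

/-- `(x_+)^2` -/
theorem hasDerivAt_pos_sq (x : ℝ) : HasDerivAt (fun x : ℝ => (max x 0) ^ 2) (2 * max x 0) x := by
  rcases lt_trichotomy x 0 with h | h | h
  · have h1 : (fun x : ℝ => (max x 0) ^ 2) =ᶠ[𝓝 x] fun _ => 0 := by
      filter_upwards [gt_mem_nhds h] with y hy
      rw [max_eq_right hy.le]
      norm_num
    rw [max_eq_right h.le, mul_zero]
    exact (hasDerivAt_const x (0 : ℝ)).congr_of_eventuallyEq h1
  · subst h
    rw [max_self, mul_zero, hasDerivAt_iff_isLittleO_nhds_zero]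
    simp only [zero_add, max_self, smul_eq_mul, mul_zero, sub_zero]
    refine Asymptotics.isLittleO_iff.2 fun c hc => ?_
    filter_upwards [Metric.ball_mem_nhds (0 : ℝ) hc] with y hy
    rw [Metric.mem_ball, dist_zero_right] at hy
    have h2 : |max y 0| ≤ |y| := by
      rcases le_total 0 y with h | h
      · rw [max_eq_left h]
      · rw [max_eq_right h, abs_zero]; exact abs_nonneg _
    have e : ‖max y 0 ^ 2 - 0 ^ 2‖ = |max y 0| * |max y 0| := by
      rw [Real.norm_eq_abs, ← abs_mul]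
      congr 1
      ring
    rw [e]
    rw [Real.norm_eq_abs] at hy ⊢
    calc |max y 0| * |max y 0| ≤ |y| * |y| := by gcongr
      _ ≤ c * |y| := by gcongr
  · have h1 : (fun x : ℝ => (max x 0) ^ 2) =ᶠ[𝓝 x] fun x => x ^ 2 := by
      filter_upwards [lt_mem_nhds h] with y hy
      rw [max_eq_left (le_of_lt hy)]
    rw [max_eq_left h.le]
    have h2 := (hasDerivAt_pow 2 x).congr_of_eventuallyEq h1
    simpa using h2

/-- odd `C¹` function, zero on the window, `1` at `Λ/2` -/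
def hodd (T Λ t : ℝ) : ℝ := ((max (t - T) 0) ^ 2 - (max (-t - T) 0) ^ 2) / (Λ / 2 - T) ^ 2

/-- its derivative -/
def hodd1 (T Λ t : ℝ) : ℝ := 2 * (max (t - T) 0 + max (-t - T) 0) / (Λ / 2 - T) ^ 2

theorem hodd_deriv (T Λ t : ℝ) : HasDerivAt (hodd T Λ) (hodd1 T Λ t) t := by
  have h1 : HasDerivAt (fun t : ℝ => (max (t - T) 0) ^ 2) (2 * max (t - T) 0) t := by
    have := (hasDerivAt_pos_sq (t - T)).comp t ((hasDerivAt_id t).sub_const T)
    rw [mul_one] at this
    exact this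
  have h2 : HasDerivAt (fun t : ℝ => (max (-t - T) 0) ^ 2) (-(2 * max (-t - T) 0)) t := by
    have := (hasDerivAt_pos_sq (-t - T)).comp t ((hasDerivAt_neg t).sub_const T)
    rw [mul_neg_one] at this
    exact this
  have h3 := (h1.sub h2).div_const ((Λ / 2 - T) ^ 2)
  have e : (2 * max (t - T) 0 - -(2 * max (-t - T) 0)) / (Λ / 2 - T) ^ 2 = hodd1 T Λ t := by
    unfold hodd1
    ring
  rw [e] at h3
  exact h3

theorem hodd1_cont (T Λ : ℝ) : Continuous (hodd1 T Λ) := by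
  unfold hodd1
  fun_prop

theorem hodd_win {T : ℝ} {t : ℝ} (ht : |t| ≤ T) : hodd T Λ t = 0 := by
  have := abs_le.1 ht
  unfold hodd
  rw [max_eq_right (by linarith), max_eq_right (by linarith)]
  simp

theorem hodd_end {T : ℝ} (hT : 0 ≤ T) (hTΛ : T < Λ / 2) : hodd T Λ (Λ / 2) = 1 := by
  unfold hodd
  rw [max_eq_left (by linarith), max_eq_right (by linarith)]
  have : (Λ / 2 - T) ^ 2 ≠ 0 := by
    have : Λ / 2 - T ≠ 0 := by linarith
    positivity
  rw [zero_pow (by norm_num), sub_zero, div_self this]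

theorem hodd_end' {T : ℝ} (hT : 0 ≤ T) (hTΛ : T < Λ / 2) : hodd T Λ (-(Λ / 2)) = -1 := by
  unfold hodd
  rw [max_eq_right (by linarith), neg_neg, max_eq_left (by linarith)]
  have : (Λ / 2 - T) ^ 2 ≠ 0 := by
    have : Λ / 2 - T ≠ 0 := by linarith
    positivity
  rw [zero_pow (by norm_num), zero_sub, neg_div, div_self this]

theorem hodd_abs {T : ℝ} (hT : 0 ≤ T) (hTΛ : T < Λ / 2) {t : ℝ} (ht : |t| ≤ Λ / 2) :
    |hodd T Λ t| ≤ 1 := by
  have h1 := abs_le.1 ht
  have h0 : 0 < Λ / 2 - T := by linarith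
  unfold hodd
  rw [abs_div, abs_of_pos (pow_pos h0 2), div_le_one (pow_pos h0 2)]
  rcases le_total 0 t with h | h
  · rw [max_eq_right (by linarith : -t - T ≤ 0)]
    have h2 : 0 ≤ max (t - T) 0 := le_max_right _ _
    have h3 : max (t - T) 0 ≤ Λ / 2 - T := max_le (by linarith) (by linarith)
    rw [zero_pow (by norm_num), sub_zero, abs_of_nonneg (by positivity)]
    nlinarith
  · rw [max_eq_right (by linarith : t - T ≤ 0)]
    have h2 : 0 ≤ max (-t - T) 0 := le_max_right _ _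
    have h3 : max (-t - T) 0 ≤ Λ / 2 - T := max_le (by linarith) (by linarith)
    rw [zero_pow (by norm_num), zero_sub, abs_neg, abs_of_nonneg (by positivity)]
    nlinarith

theorem hodd1_abs {T : ℝ} (hT : 0 ≤ T) (hTΛ : T < Λ / 2) {t : ℝ} (ht : |t| ≤ Λ / 2) :
    |hodd1 T Λ t| ≤ 2 / (Λ / 2 - T) := by
  have h1 := abs_le.1 ht
  have h0 : 0 < Λ / 2 - T := by linarith
  have h2 : 0 ≤ max (t - T) 0 := le_max_right _ _
  have h2' : 0 ≤ max (-t - T) 0 := le_max_right _ _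
  unfold hodd1
  rw [abs_of_nonneg (by positivity), div_le_div_iff₀ (pow_pos h0 2) h0]
  have h3 : max (t - T) 0 + max (-t - T) 0 ≤ Λ / 2 - T := by
    rcases le_total 0 t with h | h
    · rw [max_eq_right (by linarith : -t - T ≤ 0), add_zero]
      exact max_le (by linarith) (by linarith)
    · rw [max_eq_right (by linarith : t - T ≤ 0), zero_add]
      exact max_le (by linarith) (by linarith)
  calc 2 * (max (t - T) 0 + max (-t - T) 0) * (Λ / 2 - T) ≤ 2 * (Λ / 2 - T) * (Λ / 2 - T) := by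
        gcongr
    _ = _ := by ring

/-- half the jump -/
def jmp (Λ : ℝ) (f : ℝ → ℝ) : ℝ := (f (Λ / 2) - f (-(Λ / 2))) / 2

/-- correction outside the window -/
def fe (T Λ : ℝ) (f : ℝ → ℝ) (t : ℝ) : ℝ := f t - jmp Λ f * hodd T Λ t

/-- derivative of `fe` -/
def fe1 (T Λ : ℝ) (f f1 : ℝ → ℝ) (t : ℝ) : ℝ := f1 t - jmp Λ f * hodd1 T Λ t

theorem fe_deriv {T : ℝ} {f f1 : ℝ → ℝ} (hf : ∀ x, HasDerivAt f (f1 x) x) (x : ℝ) :
    HasDerivAt (fe T Λ f) (fe1 T Λ f f1 x) x :=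
  (hf x).sub ((hodd_deriv T Λ x).const_mul _)

theorem fe1_cont {T : ℝ} {f f1 : ℝ → ℝ} (hf1 : Continuous f1) : Continuous (fe1 T Λ f f1) := by
  unfold fe1
  have := hodd1_cont T Λ
  fun_prop

theorem fe_end {T : ℝ} (hT : 0 ≤ T) (hTΛ : T < Λ / 2) (f : ℝ → ℝ) :
    fe T Λ f (Λ / 2) = fe T Λ f (-(Λ / 2)) := by
  unfold fe jmp
  rw [hodd_end hT hTΛ, hodd_end' hT hTΛ]
  ring

theorem fe_eq {T : ℝ} {f : ℝ → ℝ} {t : ℝ} (ht : |t| ≤ T) : fe T Λ f t = f t := by
  unfold fe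
  rw [hodd_win ht, mul_zero, sub_zero]

theorem jmp_abs {f : ℝ → ℝ} {C : ℝ} (h1 : |f (Λ / 2)| ≤ C) (h2 : |f (-(Λ / 2))| ≤ C) :
    |jmp Λ f| ≤ C := by
  unfold jmp
  rw [abs_le] at *
  constructor <;> linarith [h1.1, h1.2, h2.1, h2.2]

end

end NUDi
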