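import Pool.Agent.NUDi.Two

/-!
# The moment bounds for kernels and functions that are only of the class `KC`
-/

set_option autoImplicit false

open Finset Filter MeasureTheory
open scoped Topology ENNReal

namespace NUDi

open NUKer

variable {Ω : Type*} [MeasurableSpace Ω] {μ : Measure Ω} {W : Ω → ℝ≥0∞} {R : ℝ}

/-- **[4.6]** quadratic forms, kernels only of the class `KC` -/
theorem MB.kc' {n n' : ℕ} {ρ ρ' : ℝ → ℝ} {s : Ω → Fin n → ℝ} {s' : Ω → Fin n' → ℝ}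
    (hW : Measurable W) (hf : ∫⁻ ω, W ω ∂μ ≠ ∞)
    (hs : Measurable s) (hs' : Measurable s') (hR : 0 ≤ R)
    (hsR : ∀ ω i, |s ω i| ≤ R) (hsR' : ∀ ω i, |s' ω i| ≤ R) (hρ : Continuous ρ)
    (hρ' : Continuous ρ') {m : ℝ} (hm : 0 ≤ m) (h : MB μ W R ρ s m) (h' : MB μ W R ρ' s' m)
    {κ : ℝ → ℝ → ℝ} {Λ : ℝ} (hK : KC R Λ (fun t t' => (κ t t' : ℂ))) :
    ∫⁻ ω, W ω * ENNReal.ofReal |nu2 R ρ ρ' (s ω) (s' ω) κ| ∂μ ≤
      ENNReal.ofReal (2 * m * Λ) * ∫⁻ ω, W ω ∂μ := by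
  obtain ⟨h1, h2⟩ := hK.clamp hR
  refine le_trans (le_of_eq ?_) (MB.kc hW hf hs hs' hR hsR hsR' hρ hρ' hm h h' h1 h2)
  refine lintegral_congr fun ω => ?_
  congr 3
  exact nu2_congr hR (hsR ω) (hsR' ω) fun t t' ht ht' => by rw [cl_eq ht, cl_eq ht']

/-- `nu2` is measurable for kernels of the class `KC` -/
theorem measurable_nu2' {n n' : ℕ} {ρ ρ' : ℝ → ℝ} {s : Ω → Fin n → ℝ} {s' : Ω → Fin n' → ℝ}
    (hs : Measurable s) (hs' : Measurable s') (hR : 0 ≤ R)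
    (hsR : ∀ ω i, |s ω i| ≤ R) (hsR' : ∀ ω i, |s' ω i| ≤ R) (hρ : Continuous ρ)
    (hρ' : Continuous ρ') {κ : ℝ → ℝ → ℝ} {Λ : ℝ} (hK : KC R Λ (fun t t' => (κ t t' : ℂ))) :
    Measurable fun ω => nu2 R ρ ρ' (s ω) (s' ω) κ := by
  obtain ⟨h1, _⟩ := hK.clamp hR
  have h2 := NUDi.measurable_nu2 (R := R) (κ := fun t t' => κ (cl R t) (cl R t')) hρ hρ' hs hs' h1
  have e : (fun ω => nu2 R ρ ρ' (s ω) (s' ω) κ) =
      fun ω => nu2 R ρ ρ' (s ω) (s' ω) (fun t t' => κ (cl R t) (cl R t')) := by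
    funext ω
    exact (nu2_congr hR (hsR ω) (hsR' ω) fun t t' ht ht' => by rw [cl_eq ht, cl_eq ht']).symm
  rw [e]
  exact h2

theorem lin_clamp (hR : 0 ≤ R) {f : ℝ → ℝ} {Λ : ℝ} (hK : KC R Λ (fun t _ => (f t : ℂ))) :
    Continuous (fun t => f (cl R t)) ∧ KC R Λ (fun t _ => ((f (cl R t) : ℝ) : ℂ)) := by
  obtain ⟨h1, h2⟩ := KC.clamp (κ := fun t _ => f t) hR hK
  exact ⟨h1.comp (by fun_prop : Continuous fun t : ℝ => (t, (0:ℝ))), h2⟩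

theorem measurable_nu' {n : ℕ} {ρ : ℝ → ℝ} {s : Ω → Fin n → ℝ} (hs : Measurable s) (hR : 0 ≤ R)
    (hsR : ∀ ω i, |s ω i| ≤ R) {f : ℝ → ℝ} {Λ : ℝ} (hK : KC R Λ (fun t _ => (f t : ℂ))) :
    Measurable fun ω => nu R ρ (s ω) f := by
  obtain ⟨h1, _⟩ := lin_clamp hR hK
  have h2 := measurable_nu (R := R) (ρ := ρ) hs h1
  have e : (fun ω => nu R ρ (s ω) f) = fun ω => nu R ρ (s ω) (fun t => f (cl R t)) := by
    funext ω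
    exact (nu_congr hR (hsR ω) fun t ht => by rw [cl_eq ht]).symm
  rw [e]
  exact h2

/-- **[4.6]** linear statistics -/
theorem MB.lin_sq' {n : ℕ} {ρ : ℝ → ℝ} {s : Ω → Fin n → ℝ} (hW : Measurable W)
    (hf : ∫⁻ ω, W ω ∂μ ≠ ∞) (hs : Measurable s) (hR : 0 ≤ R) (hsR : ∀ ω i, |s ω i| ≤ R)
    (hρ : Continuous ρ) {m : ℝ} (hm : 0 ≤ m) (h : MB μ W R ρ s m) {f : ℝ → ℝ}
    {Λ : ℝ} (hK : KC R Λ (fun t _ => (f t : ℂ))) :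
    ∫⁻ ω, W ω * ENNReal.ofReal (nu R ρ (s ω) f ^ 2) ∂μ ≤
      ENNReal.ofReal (2 * m * Λ ^ 2) * ∫⁻ ω, W ω ∂μ := by
  obtain ⟨h1, h2⟩ := lin_clamp hR hK
  refine le_trans (le_of_eq ?_) (MB.lin_sq hW hf hs hR hsR hρ hm h h1 h2)
  refine lintegral_congr fun ω => ?_
  congr 3
  exact nu_congr hR (hsR ω) fun t ht => by rw [cl_eq ht]

/-- **[4.6]** linear statistics -/
theorem MB.lin' {n : ℕ} {ρ : ℝ → ℝ} {s : Ω → Fin n → ℝ} (hW : Measurable W)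
    (hf : ∫⁻ ω, W ω ∂μ ≠ ∞) (hs : Measurable s) (hR : 0 ≤ R) (hsR : ∀ ω i, |s ω i| ≤ R)
    (hρ : Continuous ρ) {m : ℝ} (hm : 0 < m) (h : MB μ W R ρ s m) {f : ℝ → ℝ}
    {Λ : ℝ} (hΛ : 0 < Λ) (hK : KC R Λ (fun t _ => (f t : ℂ))) :
    ∫⁻ ω, W ω * ENNReal.ofReal |nu R ρ (s ω) f| ∂μ ≤
      ENNReal.ofReal (2 * Real.sqrt m * Λ) * ∫⁻ ω, W ω ∂μ := by
  obtain ⟨h1, h2⟩ := lin_clamp hR hK
  refine le_trans (le_of_eq ?_) (MB.lin hW hf hs hR hsR hρ hm h h1 hΛ h2)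
  refine lintegral_congr fun ω => ?_
  congr 3
  exact nu_congr hR (hsR ω) fun t ht => by rw [cl_eq ht]

end NUDi
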