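import Pool.Agent.NUKer.JenF
import Pool.Agent.NUDi.Wrap

/-!
# Whole line statistics with a cut function ([4.5], [4.6])

The version of `Crude`, `MB`, `Dicho` for whole line statistics `nuF` and modes `b(t) cos(a t)`,
`b(t) sin(a t)`, `b` a cut function (`Cutf R b`). The points may be anywhere on the line.

* `ExpF`: Gaussian exponential moments of all Fourier modes; `MBF`: second moments;
* `crudeF`, `crudeF_sq`: the weight with small kernels `b(t) b(t') κ(t,t')`, `κ` of the class `KC`;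
* `MBF.of_low`: the dichotomy; `MBF.kcs`, `MBF.kc`: quadratic forms; `MBF.lin_sq`, `MBF.lin`: linear
  statistics `ν(b f)`.
-/

set_option autoImplicit false

open Complex Finset Filter MeasureTheory
open scoped Topology ENNReal

namespace NUDi

open NUKer

variable {Ω : Type*} [MeasurableSpace Ω]

/-- Gaussian exponential moments of the Fourier modes of one species -/
structure ExpF {ι : Type*} [Fintype ι] (μ : Measure Ω) (W : Ω → ℝ≥0∞) (b ρ : ℝ → ℝ)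
    (s : Ω → ι → ℝ) (B : ℝ≥0∞) (q0 M : ℝ) : Prop where
  cos : ∀ a : ℝ, ∃ l q : ℝ, q ≤ q0 * (1 + |a|) ∧ l ^ 2 ≤ M * (q0 * (1 + |a|)) ∧ ∀ x : ℝ,
    ∫⁻ ω, W ω * ENNReal.ofReal (Real.exp (x * nuF ρ (s ω) fun t => b t * Real.cos (a * t))) ∂μ ≤
      B * ENNReal.ofReal (Real.exp (l * x + q * x ^ 2 / 2))
  sin : ∀ a : ℝ, ∃ l q : ℝ, q ≤ q0 * (1 + |a|) ∧ l ^ 2 ≤ M * (q0 * (1 + |a|)) ∧ ∀ x : ℝ,
    ∫⁻ ω, W ω * ENNReal.ofReal (Real.exp (x * nuF ρ (s ω) fun t => b t * Real.sin (a * t))) ∂μ ≤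
      B * ENNReal.ofReal (Real.exp (l * x + q * x ^ 2 / 2))

/-- second moments of the Fourier modes of one species, weight `W` not normalised -/
structure MBF {ι : Type*} [Fintype ι] (μ : Measure Ω) (W : Ω → ℝ≥0∞) (b ρ : ℝ → ℝ)
    (s : Ω → ι → ℝ) (m : ℝ) : Prop where
  cos : ∀ a : ℝ, ∫⁻ ω, W ω *
      ENNReal.ofReal ((nuF ρ (s ω) fun t => b t * Real.cos (a * t)) ^ 2) ∂μ ≤
    ENNReal.ofReal (m * (1 + |a|)) * ∫⁻ ω, W ω ∂μ
  sin : ∀ a : ℝ, ∫⁻ ω, W ω *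
      ENNReal.ofReal ((nuF ρ (s ω) fun t => b t * Real.sin (a * t)) ^ 2) ∂μ ≤
    ENNReal.ofReal (m * (1 + |a|)) * ∫⁻ ω, W ω ∂μ

theorem nuF_smul {ι : Type*} [Fintype ι] {ρ : ℝ → ℝ} {s : ι → ℝ} (c : ℝ) (f : ℝ → ℝ) :
    nuF ρ s (fun t => c * f t) = c * nuF ρ s f := by
  unfold nuF
  simp only [mul_assoc]
  rw [integral_const_mul, ← mul_sum]
  ring

theorem nuF2_smul {ι ι' : Type*} [Fintype ι] [Fintype ι'] {ρ ρ' : ℝ → ℝ} {s : ι → ℝ}
    {s' : ι' → ℝ} (c : ℝ) (κ : ℝ → ℝ → ℝ) :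
    nuF2 ρ ρ' s s' (fun t t' => c * κ t t') = c * nuF2 ρ ρ' s s' κ := by
  unfold nuF2
  have h1 : ∀ t, nuF ρ' s' (fun t' => c * κ t t') = c * nuF ρ' s' (κ t) := fun t => nuF_smul c _
  simp only [h1]
  exact nuF_smul c _

/-- the square of a linear statistic -/
theorem nuF2_tensor {ι : Type*} [Fintype ι] {ρ : ℝ → ℝ} {s : ι → ℝ} (b f : ℝ → ℝ) :
    nuF2 ρ ρ s s (fun t t' => b t * b t' * (f t * f t')) =
      (nuF ρ s fun t => b t * f t) ^ 2 := by
  unfold nuF2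
  have h1 : ∀ t, nuF ρ s (fun t' => b t * b t' * (f t * f t')) =
      (nuF ρ s fun t => b t * f t) * (b t * f t) := by
    intro t
    rw [mul_comm, ← nuF_smul]
    congr 1
    funext t'
    ring
  simp only [h1]
  rw [nuF_smul, sq]

theorem measurable_nuF {n : ℕ} {ρ : ℝ → ℝ} {s : Ω → Fin n → ℝ} (hs : Measurable s) {f : ℝ → ℝ}
    (hf : Continuous f) : Measurable fun ω => nuF ρ (s ω) f := by
  unfold nuF
  refine Measurable.sub ?_ measurable_const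
  exact Finset.measurable_fun_sum _ fun i _ => hf.measurable.comp (by fun_prop)

variable {μ : Measure Ω} {W : Ω → ℝ≥0∞} {B : ℝ≥0∞} {R q0 M : ℝ} {b : ℝ → ℝ}

/-- measurability of the cut form for kernels of the class `KC` -/
theorem measurable_nuF2 {n n' : ℕ} (hb : Cutf R b) {ρ ρ' : ℝ → ℝ} (hρ : Continuous ρ)
    (hρ' : Continuous ρ') {s : Ω → Fin n → ℝ} {s' : Ω → Fin n' → ℝ} (hs : Measurable s)
    (hs' : Measurable s') {κ : ℝ → ℝ → ℝ} {Λ : ℝ} (hK : KC R Λ (fun t t' => (κ t t' : ℂ))) :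
    Measurable fun ω => nuF2 ρ ρ' (s ω) (s' ω) (fun t t' => b t * b t' * κ t t') := by
  have hbc := hb.cont
  have h1 := (hK.clamp hb.R0).1
  have m1 : ∀ {N : ℕ} {s : Ω → Fin N → ℝ}, Measurable s → Measurable fun ω i => b (s ω i) := by
    intro N s hs
    refine measurable_pi_lambda _ fun i => ?_
    exact hbc.measurable.comp ((measurable_pi_apply i).comp hs)
  have h2 := NUKer.measurable_nuw2 (R := R) (ρ := fun t => b t * ρ t) (ρ' := fun t => b t * ρ' t)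
    (κ := fun t t' => κ (cl R t) (cl R t')) (m1 hs) hs (m1 hs') hs' (hbc.mul hρ) (hbc.mul hρ') h1
  have e : (fun ω => nuF2 ρ ρ' (s ω) (s' ω) (fun t t' => b t * b t' * κ t t')) =
      fun ω => nuw2 R (fun t => b t * ρ t) (fun t => b t * ρ' t) (fun i => b (s ω i)) (s ω)
        (fun i => b (s' ω i)) (s' ω) (fun t t' => κ (cl R t) (cl R t')) := by
    funext ω
    rw [nuF2_b hb]
    exact (nuw2_congr hb.R0 (hb.wt _) (hb.wt _) fun t t' ht ht' => by
      rw [cl_eq ht, cl_eq ht']).symm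
  rw [e]
  exact h2


/-- the form of all species -/
noncomputable def QFF {σ : Type*} [Fintype σ] {n : σ → ℕ} (b : ℝ → ℝ) (ρ : σ → ℝ → ℝ)
    (κ : σ → σ → ℝ → ℝ → ℝ) (s : ∀ k, Ω → Fin (n k) → ℝ) (ω : Ω) : ℝ :=
  ∑ k, ∑ k', nuF2 (ρ k) (ρ k') (s k ω) (s k' ω) (fun t t' => b t * b t' * κ k k' t t')

theorem ExpF.sq_cos [SFinite μ] {n : ℕ} {ρ : ℝ → ℝ} {s : Ω → Fin n → ℝ} (hb : Continuous b)
    (hs : Measurable s) (hW : Measurable W) (h : ExpF μ W b ρ s B q0 M) (hq0 : 0 ≤ q0) (hM : 0 ≤ M)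
    {c : ℝ} (hc : 0 ≤ c) (hcq : 4 * c * q0 ≤ 1) (a : ℝ) :
    ∫⁻ ω, W ω * ENNReal.ofReal (Real.exp (c / (1 + |a|) *
      (nuF ρ (s ω) fun t => b t * Real.cos (a * t)) ^ 2)) ∂μ ≤
      B * ENNReal.ofReal (Real.sqrt 2 * Real.exp (2 * c * q0 * M)) := by
  obtain ⟨l, q, h1, h2, h3⟩ := h.cos a
  exact sq_of_exp hW (measurable_nuF hs (by fun_prop)) (by positivity) hc hq0 hM hcq h1 h2 h3

theorem ExpF.sq_sin [SFinite μ] {n : ℕ} {ρ : ℝ → ℝ} {s : Ω → Fin n → ℝ} (hb : Continuous b)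
    (hs : Measurable s) (hW : Measurable W) (h : ExpF μ W b ρ s B q0 M) (hq0 : 0 ≤ q0) (hM : 0 ≤ M)
    {c : ℝ} (hc : 0 ≤ c) (hcq : 4 * c * q0 ≤ 1) (a : ℝ) :
    ∫⁻ ω, W ω * ENNReal.ofReal (Real.exp (c / (1 + |a|) *
      (nuF ρ (s ω) fun t => b t * Real.sin (a * t)) ^ 2)) ∂μ ≤
      B * ENNReal.ofReal (Real.sqrt 2 * Real.exp (2 * c * q0 * M)) := by
  obtain ⟨l, q, h1, h2, h3⟩ := h.sin a
  exact sq_of_exp hW (measurable_nuF hs (by fun_prop)) (by positivity) hc hq0 hM hcq h1 h2 h3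

/-- the total weight -/
theorem ExpF.mass {ι : Type*} [Fintype ι] {ρ : ℝ → ℝ} {s : Ω → ι → ℝ}
    (h : ExpF μ W b ρ s B q0 M) : ∫⁻ ω, W ω ∂μ ≤ B := by
  obtain ⟨l, q, _, _, h3⟩ := h.cos 0
  simpa using h3 0

section species

variable {σ : Type} [Fintype σ] [Nonempty σ] {n : σ → ℕ} {s : ∀ k, Ω → Fin (n k) → ℝ}
  {ρ : σ → ℝ → ℝ} {κ : σ → σ → ℝ → ℝ → ℝ} {Λ : σ → σ → ℝ} {Λ0 : ℝ}

omit [MeasurableSpace Ω] [Nonempty σ] in
theorem QFF_smul (c : ℝ) (ω : Ω) :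
    QFF b ρ (fun k k' t t' => c * κ k k' t t') s ω = c * QFF b ρ κ s ω := by
  unfold QFF
  rw [mul_sum]
  refine sum_congr rfl fun k _ => ?_
  rw [mul_sum]
  refine sum_congr rfl fun k' _ => ?_
  rw [← nuF2_smul]
  congr 1
  funext t t'
  ring

omit [Nonempty σ] in
theorem measurable_QFF (hb : Cutf R b) (hs : ∀ k, Measurable (s k)) (hρ : ∀ k, Continuous (ρ k))
    (hK : ∀ k k', KC R (Λ k k') (fun t t' => (κ k k' t t' : ℂ))) :
    Measurable (QFF b ρ κ s) := by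
  unfold QFF
  exact Finset.measurable_fun_sum _ fun k _ => Finset.measurable_fun_sum _ fun k' _ =>
    measurable_nuF2 hb (hρ k) (hρ k') (hs k) (hs k') (hK k k')

/-- **[4.5]** small kernels cost a bounded factor -/
theorem crudeF [SFinite μ] (hb : Cutf R b) (hW : Measurable W) (hs : ∀ k, Measurable (s k))
    (hρ : ∀ k, Continuous (ρ k))
    (hK : ∀ k k', KC R (Λ k k') (fun t t' => (κ k k' t t' : ℂ))) (hΛ0 : 0 < Λ0)
    (hΛ : ∑ k, ∑ k', Λ k k' ≤ Λ0) (hq0 : 0 ≤ q0) (hM : 0 ≤ M) (hq : 8 * Λ0 * q0 ≤ 1)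
    (h : ∀ k, ExpF μ W b (ρ k) (s k) B q0 M) :
    ∫⁻ ω, W ω * ENNReal.ofReal (Real.exp (QFF b ρ κ s ω)) ∂μ ≤
      B * ENNReal.ofReal (Real.sqrt 2 * Real.exp (4 * Λ0 * q0 * M)) := by
  have e : 2 * (2 * Λ0) * q0 * M = 4 * Λ0 * q0 * M := by ring
  refine jensenF hs hb hρ hK hΛ0 hΛ hW (fun k a => ?_) fun k a => ?_
  · rw [← e]
    exact (h k).sq_cos hb.cont (hs k) hW hq0 hM (by positivity) (by linarith) a
  · rw [← e]
    exact (h k).sq_sin hb.cont (hs k) hW hq0 hM (by positivity) (by linarith) a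

/-- **[4.5]** with one more square -/
theorem crudeF_sq [SFinite μ] (hb : Cutf R b) (hW : Measurable W) (hs : ∀ k, Measurable (s k))
    (hρ : ∀ k, Continuous (ρ k))
    (hK : ∀ k k', KC R (Λ k k') (fun t t' => (κ k k' t t' : ℂ))) (hΛ0 : 0 < Λ0)
    (hΛ : ∑ k, ∑ k', Λ k k' ≤ Λ0) (hq0 : 0 ≤ q0) (hM : 0 ≤ M) {c : ℝ} (hc : 2 * Λ0 ≤ c)
    (hcq : 8 * c * q0 ≤ 1) (h : ∀ k, ExpF μ W b (ρ k) (s k) B q0 M) (k : σ) (a : ℝ) :
    ∫⁻ ω, W ω * ENNReal.ofReal (Real.exp (QFF b ρ κ s ω + c / (1 + |a|) *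
      (nuF (ρ k) (s k ω) fun t => b t * Real.cos (a * t)) ^ 2)) ∂μ ≤
      B * ENNReal.ofReal (Real.sqrt 2 * Real.exp (4 * c * q0 * M)) ∧
    ∫⁻ ω, W ω * ENNReal.ofReal (Real.exp (QFF b ρ κ s ω + c / (1 + |a|) *
      (nuF (ρ k) (s k ω) fun t => b t * Real.sin (a * t)) ^ 2)) ∂μ ≤
      B * ENNReal.ofReal (Real.sqrt 2 * Real.exp (4 * c * q0 * M)) := by
  have hbc := hb.cont
  have hc0 : 0 ≤ c := by linarith
  have h8 : 8 * (2 * Λ0) * q0 ≤ 1 := by
    have : 8 * (2 * Λ0) * q0 ≤ 8 * c * q0 := by gcongr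
    linarith
  -- the kernels doubled
  have hG : ∫⁻ ω, W ω * ENNReal.ofReal (Real.exp (2 * QFF b ρ κ s ω)) ∂μ ≤
      B * ENNReal.ofReal (Real.sqrt 2 * Real.exp (4 * c * q0 * M)) := by
    have h1 := crudeF (μ := μ) (κ := fun k k' t t' => 2 * κ k k' t t')
      (Λ := fun k k' => 2 * Λ k k') (Λ0 := 2 * Λ0) hb hW hs hρ (fun k k' => by
        have := (hK k k').smul 2
        simpa using this) (by positivity) (by
        simp_rw [← mul_sum]
        linarith) hq0 hM h8 h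
    refine le_trans (le_of_eq ?_) (h1.trans ?_)
    · exact lintegral_congr fun ω => by rw [QFF_smul]
    · have h2 : 4 * (2 * Λ0) * q0 * M ≤ 4 * c * q0 * M := by gcongr
      have h3 := Real.exp_le_exp.2 h2
      exact mul_le_mul_right (ENNReal.ofReal_le_ofReal
        (mul_le_mul_of_nonneg_left h3 (Real.sqrt_nonneg 2))) B
  have e : 2 * (2 * c) * q0 * M = 4 * c * q0 * M := by ring
  constructor
  · refine two_exp hW (measurable_QFF hb hs hρ hK) ?_ hG ?_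
    · exact ((measurable_nuF (hs k) (by fun_prop)).pow_const 2).const_mul _
    · have h1 := (h k).sq_cos hbc (hs k) hW hq0 hM (c := 2 * c) (by positivity) (by linarith) a
      rw [e] at h1
      refine le_trans (le_of_eq ?_) h1
      refine lintegral_congr fun ω => ?_
      congr 3
      ring
  · refine two_exp hW (measurable_QFF hb hs hρ hK) ?_ hG ?_
    · exact ((measurable_nuF (hs k) (by fun_prop)).pow_const 2).const_mul _
    · have h1 := (h k).sq_sin hbc (hs k) hW hq0 hM (c := 2 * c) (by positivity) (by linarith) a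
      rw [e] at h1
      refine le_trans (le_of_eq ?_) h1
      refine lintegral_congr fun ω => ?_
      congr 3
      ring

/-- **[4.6] dichotomy**: second moments of all Fourier modes for the weight `W₁ ≤ W e^{QFF}`. -/
theorem MBF.of_low [SFinite μ] (hb : Cutf R b) (hW : Measurable W) (hs : ∀ k, Measurable (s k))
    (hρ : ∀ k, Continuous (ρ k))
    (hK : ∀ k k', KC R (Λ k k') (fun t t' => (κ k k' t t' : ℂ))) (hΛ0 : 0 < Λ0)
    (hΛ : ∑ k, ∑ k', Λ k k' ≤ Λ0) (hq0 : 0 < q0) (hM : 0 ≤ M) (hq : 16 * Λ0 * q0 ≤ 1)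
    (hB : B ≠ ∞) (h : ∀ k, ExpF μ W b (ρ k) (s k) B q0 M)
    {W₁ : Ω → ℝ≥0∞} (hW₁ : Measurable W₁)
    (hle : ∀ ω, W₁ ω ≤ W ω * ENNReal.ofReal (Real.exp (QFF b ρ κ s ω)))
    {A : ℝ} (hA : 0 ≤ A) (hlow : B * ENNReal.ofReal (Real.exp (-A)) ≤ ∫⁻ ω, W₁ ω ∂μ) (k : σ) :
    MBF μ W₁ b (ρ k) (s k) (8 * q0 * (A + 1 + M)) := by
  have hbc := hb.cont
  obtain ⟨c, hc⟩ : ∃ c : ℝ, c = 1 / (8 * q0) := ⟨_, rfl⟩
  have hc0 : 0 < c := by rw [hc]; positivity
  have hcq : 8 * c * q0 = 1 := by rw [hc]; field_simp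
  have hcΛ : 2 * Λ0 ≤ c := by
    rw [hc, le_div_iff₀ (by positivity)]
    linarith
  have hs2 : Real.sqrt 2 ≤ Real.exp (1 / 2) := by
    have h1 : Real.sqrt 2 ≤ 3 / 2 := by
      rw [Real.sqrt_le_left (by norm_num)]
      norm_num
    have h2 := Real.add_one_le_exp (1 / 2)
    linarith
  have hK2 : Real.sqrt 2 * Real.exp (4 * c * q0 * M) ≤ Real.exp (1 + M) := by
    have e : 4 * c * q0 * M = M / 2 := by
      rw [show 4 * c * q0 * M = (8 * c * q0) * M / 2 by ring, hcq]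
      ring
    rw [e]
    calc Real.sqrt 2 * Real.exp (M / 2) ≤ Real.exp (1 / 2) * Real.exp (M / 2) := by gcongr
      _ = Real.exp (1 / 2 + M / 2) := (Real.exp_add _ _).symm
      _ ≤ _ := Real.exp_le_exp.2 (by linarith)
  have hcs := crudeF_sq (μ := μ) (c := c) hb hW hs hρ hK hΛ0 hΛ hq0.le hM hcΛ hcq.le h k
  have go : ∀ N : Ω → ℝ, ∀ a : ℝ, ∫⁻ ω, W ω * ENNReal.ofReal (Real.exp (QFF b ρ κ s ω +
      c / (1 + |a|) * N ω ^ 2)) ∂μ ≤ B * ENNReal.ofReal (Real.sqrt 2 * Real.exp (4 * c * q0 * M)) →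
      ∫⁻ ω, W₁ ω * ENNReal.ofReal (Real.exp (c / (1 + |a|) * N ω ^ 2)) ∂μ ≤
        B * ENNReal.ofReal (Real.exp (1 + M)) := by
    intro N a hN
    refine (lintegral_mono fun ω => ?_).trans (hN.trans ?_)
    · rw [Real.exp_add, ENNReal.ofReal_mul (Real.exp_pos _).le, ← mul_assoc]
      exact mul_le_mul_left (hle ω) _
    · exact mul_le_mul_right (ENNReal.ofReal_le_ofReal hK2) B
  have e : (A + (1 + M)) / c = 8 * q0 * (A + 1 + M) := by
    rw [hc]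
    field_simp
    ring
  constructor
  · intro a
    have h1 := sq_moment (μ := μ) (B := B) hW₁ (N := fun ω => nuF (ρ k) (s k ω)
      fun t => b t * Real.cos (a * t)) (measurable_nuF (hs k) (by fun_prop)) (α := 1 + |a|)
      (c := c) (A := A) (K := 1 + M) (by positivity) hc0 (by linarith) hB (go _ a (hcs a).1) hlow
    rwa [e] at h1
  · intro a
    have h1 := sq_moment (μ := μ) (B := B) hW₁ (N := fun ω => nuF (ρ k) (s k ω)
      fun t => b t * Real.sin (a * t)) (measurable_nuF (hs k) (by fun_prop)) (α := 1 + |a|)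
      (c := c) (A := A) (K := 1 + M) (by positivity) hc0 (by linarith) hB (go _ a (hcs a).2) hlow
    rwa [e] at h1

omit [Nonempty σ] in
/-- **[4.6]**: small quadratic forms have small first absolute moment -/
theorem MBF.kcs (hb : Cutf R b) (hW : Measurable W) (hf : ∫⁻ ω, W ω ∂μ ≠ ∞)
    (hs : ∀ k, Measurable (s k)) (hρ : ∀ k, Continuous (ρ k))
    (hK : ∀ k k', KC R (Λ k k') (fun t t' => (κ k k' t t' : ℂ)))
    (hΛ : ∑ k, ∑ k', Λ k k' ≤ Λ0) {m : ℝ} (hm : 0 ≤ m)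
    (h : ∀ k, MBF μ W b (ρ k) (s k) m) :
    ∫⁻ ω, W ω * ENNReal.ofReal (∑ k, ∑ k', |nuF2 (ρ k) (ρ k') (s k ω) (s k' ω)
      (fun t t' => b t * b t' * κ k k' t t')|) ∂μ ≤ ENNReal.ofReal (2 * m * Λ0) * ∫⁻ ω, W ω ∂μ := by
  have hbc := hb.cont
  have hfin : IsFiniteMeasure (μ.withDensity W) := isFiniteMeasure_withDensity hf
  obtain ⟨I, hI⟩ : ∃ I : ℝ, I = (∫⁻ ω, W ω ∂μ).toReal := ⟨_, rfl⟩
  have hI0 : 0 ≤ I := by rw [hI]; exact ENNReal.toReal_nonneg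
  have hI' : ENNReal.ofReal I = ∫⁻ ω, W ω ∂μ := by rw [hI]; exact ENNReal.ofReal_toReal hf
  have e1 : ∀ f : Ω → ℝ≥0∞, Measurable f → ∫⁻ ω, f ω ∂(μ.withDensity W) = ∫⁻ ω, W ω * f ω ∂μ :=
    fun f hf => lintegral_withDensity_eq_lintegral_mul _ hW hf
  have h1 := expectF (μ := μ.withDensity W) hs hb hρ hK hΛ (V := m * I) (by positivity)
    (fun k a => by
      have := measurable_nuF (ρ := ρ k) (hs k) (f := fun t => b t * Real.cos (a * t)) (by fun_prop)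
      rw [e1 _ (by fun_prop)]
      refine ((h k).cos a).trans (le_of_eq ?_)
      rw [← hI', ← ENNReal.ofReal_mul (by positivity)]
      congr 1
      ring)
    (fun k a => by
      have := measurable_nuF (ρ := ρ k) (hs k) (f := fun t => b t * Real.sin (a * t)) (by fun_prop)
      rw [e1 _ (by fun_prop)]
      refine ((h k).sin a).trans (le_of_eq ?_)
      rw [← hI', ← ENNReal.ofReal_mul (by positivity)]
      congr 1
      ring)
  have hm2 : ∀ k k', Measurable fun ω => nuF2 (ρ k) (ρ k') (s k ω) (s k' ω)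
      (fun t t' => b t * b t' * κ k k' t t') := fun k k' =>
    measurable_nuF2 hb (hρ k) (hρ k') (hs k) (hs k') (hK k k')
  rw [e1 _ (by fun_prop)] at h1
  refine h1.trans (le_of_eq ?_)
  have hΛ0' : 0 ≤ Λ0 := le_trans (sum_nonneg fun k _ => sum_nonneg fun k' _ => (hK k k').nonneg) hΛ
  rw [← hI', ← ENNReal.ofReal_mul (by positivity)]
  congr 1
  ring

end species

theorem le_sum2 {F : Bool → Bool → ℝ} (h : ∀ k k', 0 ≤ F k k') :
    F true false ≤ ∑ k, ∑ k', F k k' := by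
  rw [Fintype.sum_bool, Fintype.sum_bool, Fintype.sum_bool]
  have := h true true
  have := h false true
  have := h false false
  linarith

/-- **[4.6]**: one quadratic form -/
theorem MBF.kc {n n' : ℕ} (hb : Cutf R b) {ρ ρ' : ℝ → ℝ} {s : Ω → Fin n → ℝ} {s' : Ω → Fin n' → ℝ}
    (hW : Measurable W) (hf : ∫⁻ ω, W ω ∂μ ≠ ∞) (hs : Measurable s) (hs' : Measurable s')
    (hρ : Continuous ρ) (hρ' : Continuous ρ') {m : ℝ} (hm : 0 ≤ m) (h : MBF μ W b ρ s m)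
    (h' : MBF μ W b ρ' s' m) {κ : ℝ → ℝ → ℝ} {Λ : ℝ} (hK : KC R Λ (fun t t' => (κ t t' : ℂ))) :
    ∫⁻ ω, W ω * ENNReal.ofReal |nuF2 ρ ρ' (s ω) (s' ω) (fun t t' => b t * b t' * κ t t')| ∂μ ≤
      ENNReal.ofReal (2 * m * Λ) * ∫⁻ ω, W ω ∂μ := by
  have h0 : KC R 0 (fun _ _ => ((0 : ℝ) : ℂ)) := by
    have := KC.const (R := R) ((0 : ℝ) : ℂ)
    simpa using this
  have h1 := MBF.kcs (σ := Bool) (n := fun k => if k then n else n')
    (s := fun k => match k with | true => s | false => s')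
    (ρ := fun k => match k with | true => ρ | false => ρ')
    (κ := fun k k' => match k, k' with | true, false => κ | _, _ => fun _ _ => 0)
    (Λ := fun k k' => match k, k' with | true, false => Λ | _, _ => 0) (Λ0 := Λ) hb hW hf
    (by rintro (_ | _) <;> assumption) (by rintro (_ | _) <;> assumption)
    (by rintro (_ | _) (_ | _) <;> assumption) (by simp) hm
    (by rintro (_ | _) <;> assumption)
  refine le_trans (lintegral_mono fun ω => ?_) h1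
  gcongr
  refine le_trans ?_ (le_sum2 fun k k' => abs_nonneg _)
  exact le_rfl

/-- **[4.6]** linear statistics: second moment -/
theorem MBF.lin_sq {n : ℕ} (hb : Cutf R b) {ρ : ℝ → ℝ} {s : Ω → Fin n → ℝ} (hW : Measurable W)
    (hf : ∫⁻ ω, W ω ∂μ ≠ ∞) (hs : Measurable s) (hρ : Continuous ρ) {m : ℝ} (hm : 0 ≤ m)
    (h : MBF μ W b ρ s m) {f : ℝ → ℝ} {Λ : ℝ} (hK : KC R Λ (fun t _ => (f t : ℂ))) :
    ∫⁻ ω, W ω * ENNReal.ofReal ((nuF ρ (s ω) fun t => b t * f t) ^ 2) ∂μ ≤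
      ENNReal.ofReal (2 * m * Λ ^ 2) * ∫⁻ ω, W ω ∂μ := by
  have hR := hb.R0
  have hK' : KC R Λ (fun _ t' => (f t' : ℂ)) := by
    intro ε hε
    obtain ⟨ι, hι, c, a, a', h1, h2⟩ := hK ε hε
    refine ⟨ι, hι, fun i => c i * cexp (((a' i * 0 : ℝ) : ℂ) * I), fun _ => 0, a, ?_, ?_⟩
    · refine le_trans (sum_le_sum fun i _ => ?_) h1
      rw [norm_mul, norm_e, mul_one, abs_zero, add_zero]
      have := abs_nonneg (a' i)
      exact mul_le_mul_of_nonneg_left (by linarith) (norm_nonneg _)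
    · intro t t' ht ht'
      have h3 := h2 t' 0 ht' (by simpa using hR)
      refine le_trans (le_of_eq ?_) h3
      congr 2
      refine sum_congr rfl fun i _ => ?_
      rw [mul_assoc, ← Complex.exp_add]
      congr 2
      push_cast
      ring
  have hT : KC R (Λ * Λ) (fun t t' => ((f t * f t' : ℝ) : ℂ)) := by
    have := hK.mul hK'
    simpa using this
  have h1 := MBF.kc hb hW hf hs hs hρ hρ hm h h hT
  rw [sq Λ]
  refine le_trans (le_of_eq ?_) h1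
  refine lintegral_congr fun ω => ?_
  rw [nuF2_tensor, abs_of_nonneg (sq_nonneg _)]

theorem measurable_nuF' {n : ℕ} (hb : Cutf R b) {ρ : ℝ → ℝ} {s : Ω → Fin n → ℝ} (hs : Measurable s)
    {f : ℝ → ℝ} {Λ : ℝ} (hK : KC R Λ (fun t _ => (f t : ℂ))) :
    Measurable fun ω => nuF ρ (s ω) fun t => b t * f t := by
  have hbc := hb.cont
  obtain ⟨h1, _⟩ := lin_clamp hb.R0 hK
  have e : (fun t => b t * f t) = fun t => b t * f (cl R t) := by
    funext t
    rcases le_or_gt |t| R with h | h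
    · rw [cl_eq h]
    · rw [hb.zero t h, zero_mul, zero_mul]
  rw [e]
  exact measurable_nuF hs (hbc.mul h1)

/-- **[4.6]** linear statistics: first absolute moment -/
theorem MBF.lin {n : ℕ} (hb : Cutf R b) {ρ : ℝ → ℝ} {s : Ω → Fin n → ℝ} (hW : Measurable W)
    (hf : ∫⁻ ω, W ω ∂μ ≠ ∞) (hs : Measurable s) (hρ : Continuous ρ) {m : ℝ} (hm : 0 < m)
    (h : MBF μ W b ρ s m) {f : ℝ → ℝ} {Λ : ℝ} (hΛ : 0 < Λ) (hK : KC R Λ (fun t _ => (f t : ℂ))) :
    ∫⁻ ω, W ω * ENNReal.ofReal |nuF ρ (s ω) fun t => b t * f t| ∂μ ≤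
      ENNReal.ofReal (2 * Real.sqrt m * Λ) * ∫⁻ ω, W ω ∂μ := by
  have h1 := MBF.lin_sq hb hW hf hs hρ hm.le h hK
  obtain ⟨β, hβ⟩ : ∃ β : ℝ, β = 2 * Real.sqrt m * Λ := ⟨_, rfl⟩
  have hsm := Real.sqrt_pos.2 hm
  have hβ0 : 0 < β := by rw [hβ]; positivity
  have hβ2 : 2 * m * Λ ^ 2 = β ^ 2 / 2 := by
    rw [hβ, mul_pow, mul_pow, Real.sq_sqrt hm.le]
    ring
  -- `|x| ≤ x²/(2β) + β/2`
  have h2 : ∀ ω, W ω * ENNReal.ofReal |nuF ρ (s ω) fun t => b t * f t| ≤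
      ENNReal.ofReal (1 / (2 * β)) *
        (W ω * ENNReal.ofReal ((nuF ρ (s ω) fun t => b t * f t) ^ 2)) +
        ENNReal.ofReal (β / 2) * W ω := by
    intro ω
    set X := nuF ρ (s ω) fun t => b t * f t with hX
    have h3 : |X| ≤ 1 / (2 * β) * X ^ 2 + β / 2 := by
      rw [← sq_abs X]
      have e : 1 / (2 * β) * |X| ^ 2 + β / 2 - |X| = (|X| - β) ^ 2 / (2 * β) := by
        field_simp
        ring
      have : 0 ≤ (|X| - β) ^ 2 / (2 * β) := by positivity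
      linarith
    have h4 := ENNReal.ofReal_le_ofReal h3
    rw [ENNReal.ofReal_add (by positivity) (by positivity), ENNReal.ofReal_mul (by positivity)] at h4
    calc _ ≤ W ω * (ENNReal.ofReal (1 / (2 * β)) * ENNReal.ofReal (X ^ 2) +
        ENNReal.ofReal (β / 2)) := by gcongr
      _ = _ := by ring
  refine (lintegral_mono h2).trans ?_
  have := (measurable_nuF' (ρ := ρ) hb hs hK)
  rw [lintegral_add_left (by fun_prop), lintegral_const_mul _ (by fun_prop),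
    lintegral_const_mul _ hW]
  calc _ ≤ ENNReal.ofReal (1 / (2 * β)) * (ENNReal.ofReal (2 * m * Λ ^ 2) * ∫⁻ ω, W ω ∂μ) +
      ENNReal.ofReal (β / 2) * ∫⁻ ω, W ω ∂μ := by gcongr
    _ = ENNReal.ofReal (1 / (2 * β) * (β ^ 2 / 2) + β / 2) * ∫⁻ ω, W ω ∂μ := by
      rw [hβ2, ← mul_assoc, ← ENNReal.ofReal_mul (by positivity), ← add_mul,
        ← ENNReal.ofReal_add (by positivity) (by positivity)]
    _ ≤ _ := by
      refine mul_le_mul_left (ENNReal.ofReal_le_ofReal ?_) _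
      rw [← hβ]
      have : 1 / (2 * β) * (β ^ 2 / 2) = β / 4 := by
        field_simp
        ring
      rw [this]
      linarith

end NUDi
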