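import Pool.Agent.NUDi.Wrap
import Pool.Agent.NUR2.Core

/-!
# Expectations of the window gas

`μ = (volume.restrict (Bx R)).withDensity g`. From the second moments of the Fourier modes (`MB`) of
`1_{Bx R} g` for both species: `|∫ ν(f) dμ|`, `|∫ <ν, κ ν'> dμ| ≤ S Λ μ(univ)`, `S = 2 m + 1`.
`rig_of_low`: from the one component bounds and a lower bound of the total weight.
-/

set_option autoImplicit false

open Finset Filter MeasureTheory
open scoped Topology ENNReal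

namespace NUDi

open NUKer NUR2

variable {p n : ℕ} {R m : ℝ} {ρ : ℝ → ℝ} {g : Cfg p n → ℝ≥0∞}

/-- the window measure -/
noncomputable def mWin (R : ℝ) (g : Cfg p n → ℝ≥0∞) : Measure (Cfg p n) :=
  (volume.restrict (Bx R)).withDensity g

theorem mWin_eq : mWin R g = volume.withDensity ((Bx R).indicator g) := by
  unfold mWin
  rw [withDensity_indicator (measurableSet_Bx R)]

theorem sp_true {x : Cfg p n} (hx : x ∈ Bx R) : sp R p n true x = x.1 := by
  funext i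
  exact cl_eq (hx.1 i)

theorem sp_false {x : Cfg p n} (hx : x ∈ Bx R) : sp R p n false x = x.2 := by
  funext i
  exact cl_eq (hx.2 i)

theorem lint_mWin (hg : Measurable g) {F : Cfg p n → ℝ} (hF : Measurable F) :
    ∫⁻ x, ENNReal.ofReal (F x) ∂(mWin R g) =
      ∫⁻ x, (Bx R).indicator g x * ENNReal.ofReal (F x) := by
  rw [mWin_eq, lintegral_withDensity_eq_lintegral_mul _ (hg.indicator (measurableSet_Bx R))
    (by fun_prop)]
  rfl

theorem mWin_univ : mWin R g Set.univ = ∫⁻ x, (Bx R).indicator g x := by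
  rw [mWin_eq, withDensity_apply _ MeasurableSet.univ, Measure.restrict_univ]

/-- from a bound of the first absolute moment to the expectation -/
theorem abs_int_le (hg : Measurable g) (hf : ∫⁻ x, (Bx R).indicator g x ≠ ∞)
    {F F' : Cfg p n → ℝ} (hF' : Measurable F') (he : ∀ x ∈ Bx (p := p) (n := n) R, F x = F' x)
    {K : ℝ} (hK : 0 ≤ K)
    (h : ∫⁻ x, (Bx R).indicator g x * ENNReal.ofReal |F' x| ≤
      ENNReal.ofReal K * ∫⁻ x, (Bx R).indicator g x) :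
    |∫ x, F x ∂(mWin R g)| ≤ K * (mWin R g).real Set.univ := by
  have e1 : ∫ x, F x ∂(mWin R g) = ∫ x, F' x ∂(mWin R g) := by
    refine integral_congr_ae ?_
    have h1 : ∀ᵐ x ∂(volume.restrict (Bx (p := p) (n := n) R)), F x = F' x := by
      filter_upwards [ae_restrict_mem (measurableSet_Bx R)] with x hx
      exact he x hx
    exact (withDensity_absolutelyContinuous _ _).ae_le h1
  rw [e1]
  have h2 := norm_integral_le_lintegral_norm (μ := mWin R g) F'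
  rw [Real.norm_eq_abs] at h2
  refine h2.trans ?_
  simp only [Real.norm_eq_abs]
  rw [lint_mWin hg (by fun_prop)]
  have h3 : (ENNReal.ofReal K * ∫⁻ x, (Bx R).indicator g x).toReal =
      K * (mWin R g).real Set.univ := by
    rw [ENNReal.toReal_mul, ENNReal.toReal_ofReal hK, measureReal_def, mWin_univ]
  rw [← h3]
  exact ENNReal.toReal_mono (ENNReal.mul_ne_top ENNReal.ofReal_ne_top hf) h

/-- linear statistics of one species -/
theorem rig_lin (hR : 0 ≤ R) (hρ : Continuous ρ) (hg : Measurable g)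
    (hf : ∫⁻ x, (Bx R).indicator g x ≠ ∞) (hm : 0 < m) {k : Bool}
    (h : MB volume ((Bx R).indicator g) R ρ (sp R p n k) m) {F : Cfg p n → ℝ} {f : ℝ → ℝ}
    (he : ∀ x ∈ Bx (p := p) (n := n) R, F x = nu R ρ (sp R p n k x) f) {Λ : ℝ}
    (hK : KC R Λ (fun t _ => (f t : ℂ))) :
    |∫ x, F x ∂(mWin R g)| ≤ (2 * m + 1) * Λ * (mWin R g).real Set.univ := by
  have hg' := hg.indicator (measurableSet_Bx (p := p) (n := n) R)
  have hΛ := hK.nonneg
  have hs2 : 2 * Real.sqrt m ≤ 2 * m + 1 := by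
    nlinarith [sq_nonneg (Real.sqrt m - 1), Real.sq_sqrt hm.le]
  have h0 : 0 ≤ (mWin R g).real Set.univ := measureReal_nonneg
  refine le_of_forall_pos_le_add fun δ hδ => ?_
  obtain ⟨γ, hγ⟩ : ∃ γ, γ = δ / ((2 * m + 1) * (1 + (mWin R g).real Set.univ)) := ⟨_, rfl⟩
  have hγ0 : 0 < γ := by rw [hγ]; positivity
  have h1 := MB.lin' hg' hf (measurable_sp R k) hR (abs_sp hR k) hρ hm h (Λ := Λ + γ)
    (by positivity) (hK.mono (by linarith))
  have h2 := abs_int_le (F := F) (K := 2 * Real.sqrt m * (Λ + γ)) hg hf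
    (measurable_nu' (ρ := ρ) (measurable_sp R k) hR (abs_sp hR k) hK) he (by positivity) h1
  have h3 : 2 * Real.sqrt m * (Λ + γ) * (mWin R g).real Set.univ ≤
      (2 * m + 1) * (Λ + γ) * (mWin R g).real Set.univ := by gcongr
  have h4 : (2 * m + 1) * γ * (mWin R g).real Set.univ ≤ δ := by
    have h5 : (2 * m + 1) * γ * (mWin R g).real Set.univ =
        δ * ((mWin R g).real Set.univ / (1 + (mWin R g).real Set.univ)) := by
      rw [hγ]
      field_simp
    rw [h5]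
    have h6 : (mWin R g).real Set.univ / (1 + (mWin R g).real Set.univ) ≤ 1 := by
      rw [div_le_one (by positivity)]
      linarith
    calc _ ≤ δ * 1 := mul_le_mul_of_nonneg_left h6 hδ.le
      _ = δ := mul_one δ
  nlinarith

/-- quadratic forms of two species -/
theorem rig_kc (hR : 0 ≤ R) (hρ : Continuous ρ) (hg : Measurable g)
    (hf : ∫⁻ x, (Bx R).indicator g x ≠ ∞) (hm : 0 ≤ m) {k k' : Bool}
    (h : MB volume ((Bx R).indicator g) R ρ (sp R p n k) m)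
    (h' : MB volume ((Bx R).indicator g) R ρ (sp R p n k') m) {F : Cfg p n → ℝ} {κ : ℝ → ℝ → ℝ}
    (he : ∀ x ∈ Bx (p := p) (n := n) R, F x = nu2 R ρ ρ (sp R p n k x) (sp R p n k' x) κ) {Λ : ℝ}
    (hK : KC R Λ (fun t t' => (κ t t' : ℂ))) :
    |∫ x, F x ∂(mWin R g)| ≤ (2 * m + 1) * Λ * (mWin R g).real Set.univ := by
  have hg' := hg.indicator (measurableSet_Bx (p := p) (n := n) R)
  have hΛ := hK.nonneg
  have h0 : 0 ≤ (mWin R g).real Set.univ := measureReal_nonneg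
  have h1 := MB.kc' hg' hf (measurable_sp R k) (measurable_sp R k') hR (abs_sp hR k) (abs_sp hR k')
    hρ hρ hm h h' hK
  have h2 := abs_int_le (F := F) (K := 2 * m * Λ) hg hf
    (measurable_nu2' (measurable_sp R k) (measurable_sp R k') hR (abs_sp hR k) (abs_sp hR k') hρ hρ
      hK) he (by positivity) h1
  refine h2.trans ?_
  gcongr
  linarith

/-- the bounds of the expectations (the fields of `Rig`) -/
structure RigB (μ : Measure (Cfg p n)) (R : ℝ) (ρ : ℝ → ℝ) (S : ℝ) : Prop where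
  linX : ∀ (f : ℝ → ℝ) (Λ : ℝ), KC R Λ (fun t _ => (f t : ℂ)) →
    |∫ x, nu R ρ x.1 f ∂μ| ≤ S * Λ * μ.real Set.univ
  linY : ∀ (f : ℝ → ℝ) (Λ : ℝ), KC R Λ (fun t _ => (f t : ℂ)) →
    |∫ x, nu R ρ x.2 f ∂μ| ≤ S * Λ * μ.real Set.univ
  XX : ∀ (κ : ℝ → ℝ → ℝ) (Λ : ℝ), KC R Λ (fun t t' => (κ t t' : ℂ)) →
    |∫ x, nu2 R ρ ρ x.1 x.1 κ ∂μ| ≤ S * Λ * μ.real Set.univ
  YY : ∀ (κ : ℝ → ℝ → ℝ) (Λ : ℝ), KC R Λ (fun t t' => (κ t t' : ℂ)) →
    |∫ x, nu2 R ρ ρ x.2 x.2 κ ∂μ| ≤ S * Λ * μ.real Set.univ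
  XY : ∀ (κ : ℝ → ℝ → ℝ) (Λ : ℝ), KC R Λ (fun t t' => (κ t t' : ℂ)) →
    |∫ x, nu2 R ρ ρ x.1 x.2 κ ∂μ| ≤ S * Λ * μ.real Set.univ

theorem rig_of_MB (hR : 0 ≤ R) (hρ : Continuous ρ) (hg : Measurable g)
    (hf : ∫⁻ x, (Bx R).indicator g x ≠ ∞) (hm : 0 < m)
    (h : ∀ k, MB volume ((Bx R).indicator g) R ρ (sp R p n k) m) :
    RigB (mWin R g) R ρ (2 * m + 1) where
  linX _ _ hK := rig_lin hR hρ hg hf hm (h true) (fun x hx => by rw [sp_true hx]; rfl) hK
  linY _ _ hK := rig_lin hR hρ hg hf hm (h false) (fun x hx => by rw [sp_false hx]; rfl) hK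
  XX _ _ hK := rig_kc hR hρ hg hf hm.le (h true) (h true) (fun x hx => by rw [sp_true hx]; rfl) hK
  YY _ _ hK := rig_kc hR hρ hg hf hm.le (h false) (h false)
    (fun x hx => by rw [sp_false hx]; rfl) hK
  XY _ _ hK := rig_kc hR hρ hg hf hm.le (h true) (h false)
    (fun x hx => by rw [sp_true hx, sp_false hx]; rfl) hK

/-- **the expectations from the one component bounds and a lower bound of the total weight** -/
theorem rig_of_low (hR : 0 ≤ R) (hρ : Continuous ρ) {WX : (Fin p → ℝ) → ℝ≥0∞}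
    {WY : (Fin n → ℝ) → ℝ≥0∞} (hX : Measurable WX) (hY : Measurable WY) {BX BY : ℝ≥0∞}
    {κ : Bool → Bool → ℝ → ℝ → ℝ} {Λ : Bool → Bool → ℝ} {Λ0 q0 M : ℝ}
    (hK : ∀ k k', KC R (Λ k k') (fun t t' => (κ k k' t t' : ℂ))) (hΛ0 : 0 < Λ0)
    (hΛ : ∑ k, ∑ k', Λ k k' ≤ Λ0) (hq0 : 0 < q0) (hM : 0 ≤ M) (hq : 16 * Λ0 * q0 ≤ 1)
    (hBX : BX ≠ ∞) (hBY : BY ≠ ∞) (hWX : OneB R ρ WX BX q0 M) (hWY : OneB R ρ WY BY q0 M)
    (hg : Measurable g)
    (hle : ∀ x ∈ Bx (p := p) (n := n) R, g x ≤ WX x.1 * WY x.2 *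
      ENNReal.ofReal (Real.exp (∑ k, ∑ k', nu2 R ρ ρ (sp R p n k x) (sp R p n k' x) (κ k k'))))
    {A : ℝ} (hA : 0 ≤ A)
    (hlow : BX * BY * ENNReal.ofReal (Real.exp (-A)) ≤ mWin R g Set.univ) :
    IsFiniteMeasure (mWin R g) ∧ RigB (mWin R g) R ρ (16 * q0 * (A + 1 + M) + 1) := by
  have hg' := hg.indicator (measurableSet_Bx (p := p) (n := n) R)
  have hle' : ∀ ω : Cfg p n, (Bx R).indicator g ω ≤ WX ω.1 * WY ω.2 *
      ENNReal.ofReal (Real.exp (QF R (fun _ : Bool => ρ) κ (sp R p n) ω)) := by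
    intro ω
    by_cases hω : ω ∈ Bx (p := p) (n := n) R
    · rw [Set.indicator_of_mem hω]
      exact hle ω hω
    · rw [Set.indicator_of_notMem hω]
      exact bot_le
  rw [mWin_univ] at hlow
  have hfin : ∫⁻ x, (Bx R).indicator g x ≠ ∞ := by
    have h1 := crude2 (ρ := fun _ => ρ) hR (fun _ => hρ) hX hY hK hΛ0 hΛ hq0.le hM
      (by nlinarith [mul_pos hΛ0 hq0]) hWX hWY hle'
    exact ne_top_of_le_ne_top (ENNReal.mul_ne_top (ENNReal.mul_ne_top hBX hBY)
      ENNReal.ofReal_ne_top) h1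
  have h2 : ∀ k, MB volume ((Bx R).indicator g) R ρ (sp R p n k) (8 * q0 * (A + 1 + M)) :=
    fun k => dicho2 (ρ := fun _ => ρ) hR (fun _ => hρ) hX hY hK hΛ0 hΛ hq0 hM hq hBX hBY hWX hWY hg'
      hle' hA hlow k
  refine ⟨?_, ?_⟩
  · constructor
    rw [mWin_univ]
    exact lt_top_iff_ne_top.2 hfin
  · have h3 := rig_of_MB hR hρ hg hfin (by positivity) h2
    have e : 2 * (8 * q0 * (A + 1 + M)) + 1 = 16 * q0 * (A + 1 + M) + 1 := by ring
    rwa [e] at h3

end NUDi
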