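import Pool.Agent.NUDi.OneW
import Pool.Agent.NUDi.Rig

/-!
# From the whole line form to the window form of the exponential moments

* `cb R`: a `C^1` cut function, `1` on `[-R, R]`, `0` off `[-R-1, R+1]`, derivative bounded
  uniformly in `R` (`exists_cb`);
* `ExpF.toB`: `ExpF` with `b = 1` on `[-R, R]` gives `ExpB` for weights supported in the window;
* `oneB_win`: `oneF_win` in the window form.
-/

set_option autoImplicit false

open MeasureTheory Set Filter Topology
open Pool.Agent.Szego62 (Aser)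
open scoped Real ENNReal

namespace NUDi

open NUWC NUC62 NUKer

noncomputable section

theorem exists_sig : ∃ C : ℝ, 0 ≤ C ∧ ∀ x, |deriv Real.smoothTransition x| ≤ C := by
  have hc : Continuous (deriv Real.smoothTransition) :=
    (Real.smoothTransition.contDiff (n := 1)).continuous_deriv le_rfl
  obtain ⟨C, hC⟩ := isCompact_Icc.exists_bound_of_continuousOn (s := Icc (-1 : ℝ) 2) hc.continuousOn
  refine ⟨max C 0, le_max_right _ _, fun x => ?_⟩
  by_cases hx : x ∈ Icc (-1 : ℝ) 2
  · exact (hC x hx).trans (le_max_left _ _)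
  · have h0 : deriv Real.smoothTransition x = 0 := by
      rw [mem_Icc, not_and_or, not_le, not_le] at hx
      rcases hx with h | h
      · have e : Real.smoothTransition =ᶠ[𝓝 x] fun _ => (0 : ℝ) := by
          filter_upwards [Iio_mem_nhds (show x < 0 by linarith)] with y hy
          exact Real.smoothTransition.zero_of_nonpos (le_of_lt hy)
        rw [e.deriv_eq, deriv_const]
      · have e : Real.smoothTransition =ᶠ[𝓝 x] fun _ => (1 : ℝ) := by
          filter_upwards [Ioi_mem_nhds (show 1 < x by linarith)] with y hy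
          exact Real.smoothTransition.one_of_one_le (le_of_lt hy)
        rw [e.deriv_eq, deriv_const]
    rw [h0, abs_zero]
    exact le_max_right _ _

/-- the cut function -/
def cb (R t : ℝ) : ℝ := Real.smoothTransition (R + 1 - t) * Real.smoothTransition (R + 1 + t)

/-- its derivative -/
def cb1 (R t : ℝ) : ℝ :=
  -(deriv Real.smoothTransition (R + 1 - t)) * Real.smoothTransition (R + 1 + t) +
    Real.smoothTransition (R + 1 - t) * deriv Real.smoothTransition (R + 1 + t)

theorem sig_hd (x : ℝ) : HasDerivAt Real.smoothTransition (deriv Real.smoothTransition x) x :=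
  ((Real.smoothTransition.contDiff (n := 1)).differentiable (by norm_num) x).hasDerivAt

theorem cb_hd (R t : ℝ) : HasDerivAt (cb R) (cb1 R t) t := by
  have h1 : HasDerivAt (fun t => Real.smoothTransition (R + 1 - t))
      (-(deriv Real.smoothTransition (R + 1 - t))) t := by
    have := (sig_hd (R + 1 - t)).comp t ((hasDerivAt_id t).const_sub (R + 1))
    rw [mul_neg_one] at this
    exact this
  have h2 : HasDerivAt (fun t => Real.smoothTransition (R + 1 + t))
      (deriv Real.smoothTransition (R + 1 + t)) t := by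
    have := (sig_hd (R + 1 + t)).comp t ((hasDerivAt_id t).const_add (R + 1))
    rw [mul_one] at this
    exact this
  exact h1.mul h2

theorem cb_nonneg (R t : ℝ) : 0 ≤ cb R t :=
  mul_nonneg (Real.smoothTransition.nonneg _) (Real.smoothTransition.nonneg _)

theorem cb_le (R t : ℝ) : cb R t ≤ 1 := by
  unfold cb
  have h1 := Real.smoothTransition.le_one (R + 1 - t)
  have h2 := Real.smoothTransition.le_one (R + 1 + t)
  have h3 := Real.smoothTransition.nonneg (R + 1 - t)
  have h4 := Real.smoothTransition.nonneg (R + 1 + t)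
  nlinarith

theorem cb_one {R t : ℝ} (h : |t| ≤ R) : cb R t = 1 := by
  rw [abs_le] at h
  unfold cb
  rw [Real.smoothTransition.one_of_one_le (by linarith),
    Real.smoothTransition.one_of_one_le (by linarith), mul_one]

theorem cb_zero {R t : ℝ} (h : R + 1 < |t|) : cb R t = 0 := by
  unfold cb
  rcases lt_abs.1 h with h | h
  · rw [Real.smoothTransition.zero_of_nonpos (by linarith), zero_mul]
  · rw [Real.smoothTransition.zero_of_nonpos (x := R + 1 + t) (by linarith), mul_zero]

theorem cb1_zero {R t : ℝ} (h : R + 1 < |t|) : cb1 R t = 0 := by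
  have e : cb R =ᶠ[𝓝 t] fun _ => (0 : ℝ) := by
    have ho : IsOpen {y : ℝ | R + 1 < |y|} := isOpen_lt continuous_const continuous_abs
    filter_upwards [ho.mem_nhds h] with y hy
    exact cb_zero hy
  rw [← (cb_hd R t).deriv, e.deriv_eq, deriv_const]

/-- the data of the cut function -/
theorem exists_cb : ∃ C : ℝ, 0 ≤ C ∧ ∀ R : ℝ, 0 ≤ R → Bdat (R + 1) (cb R) (cb1 R) C := by
  obtain ⟨C, hC0, hC⟩ := exists_sig
  refine ⟨2 * C, by positivity, fun R hR => ⟨by linarith, cb_hd R, ?_, ?_, ?_, ?_, ?_⟩⟩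
  · have hc : Continuous (deriv Real.smoothTransition) :=
      (Real.smoothTransition.contDiff (n := 1)).continuous_deriv le_rfl
    have hs := Real.smoothTransition.continuous
    unfold cb1
    fun_prop
  · intro x
    rw [abs_of_nonneg (cb_nonneg R x)]
    exact cb_le R x
  · intro x
    unfold cb1
    have h1 := Real.smoothTransition.le_one (R + 1 - x)
    have h2 := Real.smoothTransition.le_one (R + 1 + x)
    have h3 := Real.smoothTransition.nonneg (R + 1 - x)
    have h4 := Real.smoothTransition.nonneg (R + 1 + x)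
    refine (abs_add_le _ _).trans ?_
    rw [abs_mul, abs_mul, abs_neg, abs_of_nonneg h3, abs_of_nonneg h4]
    have h5 := hC (R + 1 - x)
    have h6 := hC (R + 1 + x)
    have h7 : |deriv Real.smoothTransition (R + 1 - x)| * Real.smoothTransition (R + 1 + x) ≤
        C * 1 := by gcongr
    have h8 : Real.smoothTransition (R + 1 - x) * |deriv Real.smoothTransition (R + 1 + x)| ≤
        1 * C := by gcongr
    linarith
  · intro x hx
    exact cb_zero hx
  · intro x hx
    exact cb1_zero hx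

/-- **window form from the whole line form** -/
theorem ExpF.toB {Ω ι : Type*} [MeasurableSpace Ω] [Fintype ι] {μ : Measure Ω} {W : Ω → ℝ≥0∞}
    {b ρ : ℝ → ℝ} {s : Ω → ι → ℝ} {B : ℝ≥0∞} {q0 M R τ : ℝ} (hR : 0 ≤ R) (hbc : Continuous b)
    (hb1 : ∀ t, |t| ≤ R → b t = 1) (hbl : ∀ t, |b t| ≤ 1) (hρ : Integrable ρ)
    (hτ : ∫ t in {t | R < |t|}, |ρ t| ≤ τ) (hq0 : 0 < q0) (hW : ∀ ω, W ω ≠ 0 → ∀ i, |s ω i| ≤ R)
    (h : ExpF μ W b ρ s B q0 M) :
    ExpB μ W R ρ (fun ω i => cl R (s ω i)) B q0 (2 * M + 2 * τ ^ 2 / q0) := by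
  have hτ0 : 0 ≤ τ := le_trans (integral_nonneg fun t => abs_nonneg _) hτ
  have hms : MeasurableSet {t : ℝ | R < |t|} := measurableSet_lt measurable_const measurable_norm
  have go : ∀ f : ℝ → ℝ, Continuous f → (∀ t, |f t| ≤ 1) → ∀ a : ℝ,
      (∃ l q : ℝ, q ≤ q0 * (1 + |a|) ∧ l ^ 2 ≤ M * (q0 * (1 + |a|)) ∧ ∀ x : ℝ,
        ∫⁻ ω, W ω * ENNReal.ofReal (Real.exp (x * nuF ρ (s ω) fun t => b t * f t)) ∂μ ≤
          B * ENNReal.ofReal (Real.exp (l * x + q * x ^ 2 / 2))) →
      ∃ l q : ℝ, q ≤ q0 * (1 + |a|) ∧ l ^ 2 ≤ (2 * M + 2 * τ ^ 2 / q0) * (q0 * (1 + |a|)) ∧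
        ∀ x : ℝ, ∫⁻ ω, W ω * ENNReal.ofReal (Real.exp (x * nu R ρ (fun i => cl R (s ω i)) f)) ∂μ ≤
          B * ENNReal.ofReal (Real.exp (l * x + q * x ^ 2 / 2)) := by
    intro f hf hf1 a h
    obtain ⟨l, q, h1, h2, h3⟩ := h
    obtain ⟨c, hc⟩ : ∃ c : ℝ, c = (∫ t, b t * f t * ρ t) - ∫ t in (-R)..R, f t * ρ t := ⟨_, rfl⟩
    have hcb : |c| ≤ τ := by
      have hbf : Integrable fun t => b t * f t * ρ t := by
        refine hρ.bdd_mul (c := 1) (hbc.mul hf).aestronglyMeasurable (ae_of_all _ fun t => ?_)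
        rw [norm_mul, Real.norm_eq_abs, Real.norm_eq_abs]
        have := mul_le_mul (hbl t) (hf1 t) (abs_nonneg _) zero_le_one
        linarith
      have e1 := integral_add_compl (s := {t : ℝ | R < |t|}) hms hbf
      have e2 : ∫ t in {t : ℝ | R < |t|}ᶜ, b t * f t * ρ t = ∫ t in (-R)..R, f t * ρ t := by
        rw [intervalIntegral.integral_of_le (by linarith), ← integral_Icc_eq_integral_Ioc]
        have e3 : {t : ℝ | R < |t|}ᶜ = Icc (-R) R := by
          ext t
          simp [abs_le]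
        rw [e3]
        refine setIntegral_congr_fun measurableSet_Icc fun t ht => ?_
        rw [hb1 t (abs_le.2 ht), one_mul]
      have e4 : c = ∫ t in {t : ℝ | R < |t|}, b t * f t * ρ t := by
        rw [hc, ← e1, e2]
        ring
      rw [e4]
      refine le_trans ?_ hτ
      have e5 := norm_integral_le_of_norm_le (μ := volume.restrict {t : ℝ | R < |t|})
        (f := fun t => b t * f t * ρ t) (g := fun t => |ρ t|) hρ.abs.integrableOn
        (ae_of_all _ fun t => by
          rw [norm_mul, norm_mul, Real.norm_eq_abs, Real.norm_eq_abs, Real.norm_eq_abs]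
          have := mul_le_mul (hbl t) (hf1 t) (abs_nonneg _) zero_le_one
          have h5 := abs_nonneg (ρ t)
          nlinarith)
      exact e5
    refine ⟨l + c, q, h1, ?_, fun x => ?_⟩
    · have h4 : (l + c) ^ 2 ≤ 2 * l ^ 2 + 2 * c ^ 2 := by nlinarith [sq_nonneg (l - c)]
      have h5 : c ^ 2 ≤ τ ^ 2 := sq_le_sq' (by linarith [(abs_le.1 hcb).1]) (abs_le.1 hcb).2
      have h6 : (2 * M + 2 * τ ^ 2 / q0) * (q0 * (1 + |a|)) =
          2 * (M * (q0 * (1 + |a|))) + 2 * τ ^ 2 * (1 + |a|) := by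
        field_simp
      have h7 : 0 ≤ τ ^ 2 * |a| := by positivity
      rw [h6]
      nlinarith
    · have e6 : ∀ ω, W ω * ENNReal.ofReal (Real.exp (x * nu R ρ (fun i => cl R (s ω i)) f)) =
          ENNReal.ofReal (Real.exp (x * c)) *
            (W ω * ENNReal.ofReal (Real.exp (x * nuF ρ (s ω) fun t => b t * f t))) := by
        intro ω
        by_cases h0 : W ω = 0
        · rw [h0, zero_mul, zero_mul, mul_zero]
        · have e7 : nu R ρ (fun i => cl R (s ω i)) f = c + nuF ρ (s ω) fun t => b t * f t := by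
            unfold nu nuF
            rw [hc]
            have e8 : ∀ i, f (cl R (s ω i)) = b (s ω i) * f (s ω i) := by
              intro i
              rw [cl_eq (hW ω h0 i), hb1 _ (hW ω h0 i), one_mul]
            simp only [e8]
            ring
          rw [e7, mul_add, Real.exp_add, ENNReal.ofReal_mul (Real.exp_pos _).le]
          ring
      rw [lintegral_congr e6, lintegral_const_mul' _ _ ENNReal.ofReal_ne_top]
      calc _ ≤ ENNReal.ofReal (Real.exp (x * c)) *
          (B * ENNReal.ofReal (Real.exp (l * x + q * x ^ 2 / 2))) := by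
            have := h3 x
            gcongr
        _ = _ := by
          rw [mul_left_comm, ← ENNReal.ofReal_mul (Real.exp_pos _).le, ← Real.exp_add]
          congr 3
          ring
  constructor
  · intro a
    exact go _ (by fun_prop) (fun t => Real.abs_cos_le_one _) a (h.cos a)
  · intro a
    exact go _ (by fun_prop) (fun t => Real.abs_sin_le_one _) a (h.sin a)

theorem ExpB.monoM {Ω ι : Type*} [MeasurableSpace Ω] [Fintype ι] {μ : Measure Ω} {W : Ω → ℝ≥0∞}
    {ρ : ℝ → ℝ} {s : Ω → ι → ℝ} {B : ℝ≥0∞} {q0 M M' R : ℝ} (hq0 : 0 ≤ q0) (hM : M ≤ M')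
    (h : ExpB μ W R ρ s B q0 M) : ExpB μ W R ρ s B q0 M' := by
  constructor
  · intro a
    obtain ⟨l, q, h1, h2, h3⟩ := h.cos a
    exact ⟨l, q, h1, h2.trans (by gcongr), h3⟩
  · intro a
    obtain ⟨l, q, h1, h2, h3⟩ := h.sin a
    exact ⟨l, q, h1, h2.trans (by gcongr), h3⟩

/-- **the window form** of `oneF_win`, window `[-R, R]` -/
theorem oneB_win : ∃ C : ℝ, 1 ≤ C ∧ ∀ {G R δ M' : ℝ}, 9 ≤ G → 0 < R → ∀ (n : ℕ)
    {ρ' : ℝ → ℝ}, Continuous ρ' → Integrable ρ' → (∀ s, |ρ' s| ≤ M') →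
    (∀ s, R ≤ |s| → |ρ' s| ≤ δ * Real.exp (-(|s| - R))) → ∀ (f0 : ℝ) {f : ℕ → ℂ},
    (Summable fun k => ‖f k‖) → QS G (2 * R + 2 * G) f →
    ∀ {F : ℝ → ℝ}, (∀ x, |x| ≤ R → F x ≤ f0 + Aser f (2 * π * x / (2 * R + 2 * G))) →
    ∀ {ρ : ℝ → ℝ}, Continuous ρ → Integrable ρ → ∀ {D : ℝ},
    2 * (∫ t, |ρ' t - ρ t|) + 3 * (∫ t in {t | R < |t|}, |ρ t|) ≤ D →
    OneB R ρ (WW R n ρ' F) (BW G R δ n ρ' f0 f) (C * (R + 1))
      (7 * D ^ 2 + 24 * ((n : ℝ) - mW (2 * R + 2 * G) ρ') ^ 2 +
        12 * NUWC.QF G (2 * R + 2 * G) f) := by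
  obtain ⟨C, hC0, hC⟩ := exists_cb
  refine ⟨8 * (C + 3), by linarith, ?_⟩
  intro G R δ M' hG hR n ρ' hρc' hρ' hM' hδ f0 f hf hfe F hF ρ hρc hρ D hD
  have hb := hC R hR.le
  have h1 := oneF_win hb hG hR n hρc' hρ' hM' hδ f0 hf hfe hF hρc hρ hD
  have hI1 : 0 ≤ ∫ t, |ρ' t - ρ t| := integral_nonneg fun t => abs_nonneg _
  have hI2 : 0 ≤ ∫ t in {t | R < |t|}, |ρ t| := integral_nonneg fun t => abs_nonneg _
  have hD0 : 0 ≤ D := by linarith
  have hq : 0 < 8 * (R + 1) * (C + 3) := by positivity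
  have h2 := ExpF.toB (τ := D) hR.le hb.cutf.cont (fun t ht => cb_one ht) hb.le hρ
    (by linarith) hq (fun ω h0 i => WW_zero h0 i) h1
  have e : 8 * (R + 1) * (C + 3) = 8 * (C + 3) * (R + 1) := by ring
  have hq24 : 24 ≤ 8 * (R + 1) * (C + 3) := by nlinarith
  rw [e] at h2 hq24 hq
  refine ExpB.monoM hq.le ?_ h2
  have h3 : 2 * D ^ 2 / (8 * (C + 3) * (R + 1)) ≤ D ^ 2 := by
    rw [div_le_iff₀ hq]
    nlinarith [sq_nonneg D]
  linarith

end

end NUDi
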