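import Pool.Agent.NUDi.Crude

/-!
# Second moments of the statistics of the positive gas ([4.6])

* `MB.of_low`: the dichotomy: a lower bound of the total weight gives the second moments;
* `MB.kc`: `∫ W |<ν, κ ν'>| ≤ 2 m Λ ∫ W`;
* `MB.lin`, `MB.lin_sq`: linear statistics `ν(f)`, `f` of the class `KC` (one variable);
* `MB.kc_int`, `MB.lin_int`: the same as Bochner integrals for a probability measure.
-/

set_option autoImplicit false

open Complex Finset Filter MeasureTheory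
open scoped Topology ENNReal

namespace NUDi

open NUKer

variable {Ω : Type*} [MeasurableSpace Ω] {μ : Measure Ω} {W : Ω → ℝ≥0∞} {B : ℝ≥0∞} {R q0 M : ℝ}

/-- pointwise bound of a quadratic form by the squares of the modes -/
theorem abs_nu2_exp {ι ι' : Type*} [Fintype ι] [Fintype ι'] {ρ ρ' : ℝ → ℝ} {s : ι → ℝ}
    {s' : ι' → ℝ} (hρ : Continuous ρ) (hρ' : Continuous ρ') (c : ℂ) (a b : ℝ) :
    |nu2 R ρ ρ' s s' (fun t t' => (c * cexp (((a * t + b * t' : ℝ) : ℂ) * I)).re)| ≤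
      ‖c‖ * (((nu R ρ s fun t => Real.cos (a * t)) ^ 2 + (nu R ρ s fun t => Real.sin (a * t)) ^ 2) +
        ((nu R ρ' s' fun t => Real.cos (b * t)) ^ 2 +
          (nu R ρ' s' fun t => Real.sin (b * t)) ^ 2)) / 2 := by
  rw [abs_le]
  constructor
  · have h1 := nu2_exp (R := R) (s := s) (s' := s') hρ hρ' (-c) a b
    have h2 : (fun t t' : ℝ => (-c * cexp (((a * t + b * t' : ℝ) : ℂ) * I)).re) =
        fun t t' : ℝ => (-1 : ℝ) * (c * cexp (((a * t + b * t' : ℝ) : ℂ) * I)).re := by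
      funext t t'
      rw [neg_mul, Complex.neg_re]
      ring
    rw [h2, nu2_smul, norm_neg] at h1
    linarith
  · exact nu2_exp hρ hρ' c a b

/-- the finite combination and the error -/
theorem abs_nu2_kc {n n' : ℕ} {ρ ρ' : ℝ → ℝ} (hR : 0 ≤ R) (hρ : Continuous ρ)
    (hρ' : Continuous ρ') {κ : ℝ → ℝ → ℝ} (hκ : Continuous fun p : ℝ × ℝ => κ p.1 p.2) {ε : ℝ}
    {ι : Type} [Fintype ι] (c : ι → ℂ) (a b : ι → ℝ)
    (h : ∀ t t' : ℝ, |t| ≤ R → |t'| ≤ R →
      ‖(κ t t' : ℂ) - ∑ i, c i * cexp (((a i * t + b i * t' : ℝ) : ℂ) * I)‖ ≤ ε)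
    {s : Fin n → ℝ} {s' : Fin n' → ℝ} (hs : ∀ i, |s i| ≤ R) (hs' : ∀ i, |s' i| ≤ R) :
    |nu2 R ρ ρ' s s' κ| ≤ tv (Fin n) R ρ * (tv (Fin n') R ρ' * ε) +
      ∑ i, ‖c i‖ / 2 * ((nu R ρ s fun t => Real.cos (a i * t)) ^ 2 +
        (nu R ρ s fun t => Real.sin (a i * t)) ^ 2 +
        (nu R ρ' s' fun t => Real.cos (b i * t)) ^ 2 +
          (nu R ρ' s' fun t => Real.sin (b i * t)) ^ 2) := by
  have c1 : Continuous fun q : ℝ × ℝ => ∑ i,
      (c i * cexp (((a i * q.1 + b i * q.2 : ℝ) : ℂ) * I)).re := by fun_prop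
  have h3 := nu2_sub (R := R) (s := s) (s' := s') hρ hρ' hκ (κ' := fun t t' => ∑ i,
    (c i * cexp (((a i * t + b i * t' : ℝ) : ℂ) * I)).re) c1
  have h4 := abs_nu2_le (s := s) (s' := s') hR hρ hρ' hs hs' (κ := fun t t' => κ t t' - ∑ i,
    (c i * cexp (((a i * t + b i * t' : ℝ) : ℂ) * I)).re) (C := ε) (by
      intro t t' ht ht'
      have h5 := h t t' ht ht'
      have h6 := Complex.abs_re_le_norm ((κ t t' : ℂ) -
        ∑ i, c i * cexp (((a i * t + b i * t' : ℝ) : ℂ) * I))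
      rw [Complex.sub_re, Complex.ofReal_re, Complex.re_sum] at h6
      exact h6.trans h5)
  have h7 := nu2_sum (R := R) (s := s) (s' := s') hρ hρ' (univ : Finset ι)
    (κ := fun i t t' => (c i * cexp (((a i * t + b i * t' : ℝ) : ℂ) * I)).re)
    (fun i _ => by fun_prop)
  have h8 : |nu2 R ρ ρ' s s' (fun t t' => ∑ i,
      (c i * cexp (((a i * t + b i * t' : ℝ) : ℂ) * I)).re)| ≤
      ∑ i, ‖c i‖ / 2 * ((nu R ρ s fun t => Real.cos (a i * t)) ^ 2 +
        (nu R ρ s fun t => Real.sin (a i * t)) ^ 2 +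
        (nu R ρ' s' fun t => Real.cos (b i * t)) ^ 2 +
          (nu R ρ' s' fun t => Real.sin (b i * t)) ^ 2) := by
    rw [h7]
    refine (abs_sum_le_sum_abs _ _).trans (sum_le_sum fun i _ => ?_)
    refine (abs_nu2_exp hρ hρ' (c i) (a i) (b i)).trans (le_of_eq ?_)
    ring
  rw [h3] at h4
  have h9 := abs_sub_abs_le_abs_sub (nu2 R ρ ρ' s s' κ) (nu2 R ρ ρ' s s' (fun t t' => ∑ i,
      (c i * cexp (((a i * t + b i * t' : ℝ) : ℂ) * I)).re))
  linarith

/-- **[4.6]**: small quadratic forms have small first absolute moment -/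
theorem MB.kc {n n' : ℕ} {ρ ρ' : ℝ → ℝ} {s : Ω → Fin n → ℝ} {s' : Ω → Fin n' → ℝ}
    (hW : Measurable W) (hf : ∫⁻ ω, W ω ∂μ ≠ ∞)
    (hs : Measurable s) (hs' : Measurable s') (hR : 0 ≤ R)
    (hsR : ∀ ω i, |s ω i| ≤ R) (hsR' : ∀ ω i, |s' ω i| ≤ R) (hρ : Continuous ρ)
    (hρ' : Continuous ρ') {m : ℝ} (hm : 0 ≤ m) (h : MB μ W R ρ s m) (h' : MB μ W R ρ' s' m)
    {κ : ℝ → ℝ → ℝ} (hκ : Continuous fun p : ℝ × ℝ => κ p.1 p.2) {Λ : ℝ}
    (hK : KC R Λ (fun t t' => (κ t t' : ℂ))) :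
    ∫⁻ ω, W ω * ENNReal.ofReal |nu2 R ρ ρ' (s ω) (s' ω) κ| ∂μ ≤
      ENNReal.ofReal (2 * m * Λ) * ∫⁻ ω, W ω ∂μ := by
  have hΛ := hK.nonneg
  obtain ⟨T, hT⟩ : ∃ T, T = tv (Fin n) R ρ * tv (Fin n') R ρ' := ⟨_, rfl⟩
  have hT0 : 0 ≤ T := by
    rw [hT]
    unfold tv
    have h1 : 0 ≤ ∫ t in (-R)..R, |ρ t| :=
      intervalIntegral.integral_nonneg (by linarith) fun t _ => abs_nonneg _
    have h2 : 0 ≤ ∫ t in (-R)..R, |ρ' t| :=
      intervalIntegral.integral_nonneg (by linarith) fun t _ => abs_nonneg _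
    positivity
  have key : ∀ ε : ℝ, 0 < ε → ∫⁻ ω, W ω * ENNReal.ofReal |nu2 R ρ ρ' (s ω) (s' ω) κ| ∂μ ≤
      ENNReal.ofReal (T * ε + 2 * m * Λ) * ∫⁻ ω, W ω ∂μ := by
    intro ε hε
    obtain ⟨ι, hι, c, a, b, h1, h2⟩ := hK ε hε
    -- the modes
    set C : ι → Ω → ℝ := fun i ω => (nu R ρ (s ω) fun t => Real.cos (a i * t)) ^ 2 with hC
    set S : ι → Ω → ℝ := fun i ω => (nu R ρ (s ω) fun t => Real.sin (a i * t)) ^ 2 with hS
    set C' : ι → Ω → ℝ := fun i ω => (nu R ρ' (s' ω) fun t => Real.cos (b i * t)) ^ 2 with hC'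
    set S' : ι → Ω → ℝ := fun i ω => (nu R ρ' (s' ω) fun t => Real.sin (b i * t)) ^ 2 with hS'
    have mC : ∀ i, Measurable (C i) := fun i => (measurable_nu hs (by fun_prop)).pow_const 2
    have mS : ∀ i, Measurable (S i) := fun i => (measurable_nu hs (by fun_prop)).pow_const 2
    have mC' : ∀ i, Measurable (C' i) := fun i => (measurable_nu hs' (by fun_prop)).pow_const 2
    have mS' : ∀ i, Measurable (S' i) := fun i => (measurable_nu hs' (by fun_prop)).pow_const 2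
    have hpt : ∀ ω, W ω * ENNReal.ofReal |nu2 R ρ ρ' (s ω) (s' ω) κ| ≤
        ENNReal.ofReal (T * ε) * W ω + ∑ i, ENNReal.ofReal (‖c i‖ / 2) *
          (W ω * ENNReal.ofReal (C i ω) + W ω * ENNReal.ofReal (S i ω) +
            W ω * ENNReal.ofReal (C' i ω) + W ω * ENNReal.ofReal (S' i ω)) := by
      intro ω
      have h3 := abs_nu2_kc (R := R) hR hρ hρ' hκ c a b h2 (hsR ω) (hsR' ω)
      have h4 : |nu2 R ρ ρ' (s ω) (s' ω) κ| ≤ T * ε + ∑ i, ‖c i‖ / 2 *
          (C i ω + S i ω + C' i ω + S' i ω) := by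
        rw [hT, mul_assoc]
        exact h3
      have h5 := ENNReal.ofReal_le_ofReal h4
      have p1 : ∀ i, 0 ≤ C i ω := fun i => sq_nonneg _
      have p2 : ∀ i, 0 ≤ S i ω := fun i => sq_nonneg _
      have p3 : ∀ i, 0 ≤ C' i ω := fun i => sq_nonneg _
      have p4 : ∀ i, 0 ≤ S' i ω := fun i => sq_nonneg _
      have p5 : ∀ i, 0 ≤ ‖c i‖ / 2 := fun i => by positivity
      rw [ENNReal.ofReal_add (by positivity) (sum_nonneg fun i _ => mul_nonneg (p5 i)
        (by linarith [p1 i, p2 i, p3 i, p4 i])), ENNReal.ofReal_sum_of_nonneg (fun i _ =>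
        mul_nonneg (p5 i) (by linarith [p1 i, p2 i, p3 i, p4 i]))] at h5
      calc W ω * ENNReal.ofReal |nu2 R ρ ρ' (s ω) (s' ω) κ| ≤
          W ω * (ENNReal.ofReal (T * ε) + ∑ i, ENNReal.ofReal (‖c i‖ / 2 *
            (C i ω + S i ω + C' i ω + S' i ω))) := by gcongr
        _ = _ := by
          rw [mul_add, mul_sum, mul_comm (W ω) (ENNReal.ofReal (T * ε))]
          congr 1
          refine sum_congr rfl fun i _ => ?_
          rw [ENNReal.ofReal_mul (p5 i), ENNReal.ofReal_add (by linarith [p1 i, p2 i, p3 i]) (p4 i),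
            ENNReal.ofReal_add (by linarith [p1 i, p2 i]) (p3 i), ENNReal.ofReal_add (p1 i) (p2 i)]
          ring
    refine (lintegral_mono hpt).trans ?_
    rw [lintegral_add_left (by fun_prop), lintegral_const_mul _ hW,
      lintegral_finsetSum _ (fun i _ => by
        have := mC i; have := mS i; have := mC' i; have := mS' i
        fun_prop)]
    have h6 : ∀ i, ∫⁻ ω, ENNReal.ofReal (‖c i‖ / 2) *
          (W ω * ENNReal.ofReal (C i ω) + W ω * ENNReal.ofReal (S i ω) +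
            W ω * ENNReal.ofReal (C' i ω) + W ω * ENNReal.ofReal (S' i ω)) ∂μ ≤
        ENNReal.ofReal (2 * m * (‖c i‖ * (1 + |a i| + |b i|))) * ∫⁻ ω, W ω ∂μ := by
      intro i
      have := mC i; have := mS i; have := mC' i; have := mS' i
      rw [lintegral_const_mul _ (by fun_prop), lintegral_add_left (by fun_prop),
        lintegral_add_left (by fun_prop), lintegral_add_left (by fun_prop)]
      have q1 := h.cos (a i)
      have q2 := h.sin (a i)
      have q3 := h'.cos (b i)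
      have q4 := h'.sin (b i)
      have p5 : 0 ≤ ‖c i‖ / 2 := by positivity
      have pa : 0 ≤ m * (1 + |a i|) := by positivity
      have pb : 0 ≤ m * (1 + |b i|) := by positivity
      calc _ ≤ ENNReal.ofReal (‖c i‖ / 2) *
          (ENNReal.ofReal (m * (1 + |a i|)) * ∫⁻ ω, W ω ∂μ +
            ENNReal.ofReal (m * (1 + |a i|)) * ∫⁻ ω, W ω ∂μ +
            ENNReal.ofReal (m * (1 + |b i|)) * ∫⁻ ω, W ω ∂μ +
            ENNReal.ofReal (m * (1 + |b i|)) * ∫⁻ ω, W ω ∂μ) := by gcongr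
        _ = ENNReal.ofReal (‖c i‖ / 2 * (m * (1 + |a i|) + m * (1 + |a i|) + m * (1 + |b i|) +
            m * (1 + |b i|))) * ∫⁻ ω, W ω ∂μ := by
          rw [ENNReal.ofReal_mul p5, ENNReal.ofReal_add (by linarith) pb,
            ENNReal.ofReal_add (by linarith) pb, ENNReal.ofReal_add pa pa]
          ring
        _ ≤ _ := by
          refine mul_le_mul_left (ENNReal.ofReal_le_ofReal ?_) _
          nlinarith [mul_nonneg (mul_nonneg hm (norm_nonneg (c i))) (abs_nonneg (a i)),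
            mul_nonneg (mul_nonneg hm (norm_nonneg (c i))) (abs_nonneg (b i)),
            mul_nonneg hm (norm_nonneg (c i))]
    calc _ ≤ ENNReal.ofReal (T * ε) * ∫⁻ ω, W ω ∂μ +
        ∑ i, ENNReal.ofReal (2 * m * (‖c i‖ * (1 + |a i| + |b i|))) * ∫⁻ ω, W ω ∂μ := by
          gcongr with i
          exact h6 i
      _ = ENNReal.ofReal (T * ε + 2 * m * ∑ i, ‖c i‖ * (1 + |a i| + |b i|)) * ∫⁻ ω, W ω ∂μ := by
        rw [← sum_mul, ← add_mul, ← ENNReal.ofReal_sum_of_nonneg (fun i _ => by positivity),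
          ← ENNReal.ofReal_add (by positivity) (sum_nonneg fun i _ => by positivity), mul_sum]
      _ ≤ _ := by gcongr
  -- `ε → 0`
  have lim : Tendsto (fun ε : ℝ => ENNReal.ofReal (T * ε + 2 * m * Λ) * ∫⁻ ω, W ω ∂μ)
      (𝓝[>] 0) (𝓝 (ENNReal.ofReal (2 * m * Λ) * ∫⁻ ω, W ω ∂μ)) := by
    have l1 : Tendsto (fun ε : ℝ => T * ε + 2 * m * Λ) (𝓝[>] 0) (𝓝 (T * 0 + 2 * m * Λ)) := by
      apply Tendsto.mono_left _ nhdsWithin_le_nhds
      exact (by fun_prop : Continuous fun ε : ℝ => T * ε + 2 * m * Λ).tendsto 0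
    have l2 := ENNReal.Tendsto.mul_const (b := ∫⁻ ω, W ω ∂μ) (ENNReal.tendsto_ofReal l1)
      (Or.inr hf)
    simpa using l2
  exact ge_of_tendsto lim (eventually_nhdsWithin_of_forall fun ε hε => key ε hε)

end NUDi
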