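import Pool.Agent.NUWC.WC

/-!
# Bilinear form of the circle energy, Gaussian exponential moments of one linear statistic

* `QF_add`: `QF (f + x c) = QF f + 2 x QB f c + x² QF c`, `QB_sq : QB² ≤ QF QF`;
* `wc_mode`: `∫ W e^{x Σ g(t_i)} ≤ B e^{l x + q x²}`.
-/

set_option autoImplicit false

open MeasureTheory Set Filter Topology
open Pool.Agent.Szego62 (Aser abs_term_c)
open scoped Real ENNReal

namespace NUDi

open NUWC NUC62

noncomputable section

/-- bilinear form of the circle energy -/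
def QB (G L : ℝ) (f c : ℕ → ℂ) : ℝ :=
  ∑' k : ℕ, L * (f k * (starRingEnd ℂ) (c k)).re / NUC62.uh G (NUC62.kp L k)

/-- summability of the energy -/
def QS (G L : ℝ) (f : ℕ → ℂ) : Prop :=
  Summable fun k : ℕ => L * ‖f k‖ ^ 2 / NUC62.uh G (NUC62.kp L k)

theorem abs_re_mul (z w : ℂ) : |(z * (starRingEnd ℂ) w).re| ≤ (‖z‖ ^ 2 + ‖w‖ ^ 2) / 2 := by
  have h1 := Complex.abs_re_le_norm (z * (starRingEnd ℂ) w)
  rw [norm_mul, Complex.norm_conj] at h1
  nlinarith [sq_nonneg (‖z‖ - ‖w‖)]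

variable {G L : ℝ}

theorem QB_summable (hG : 9 ≤ G) (hL : 0 < L) {f c : ℕ → ℂ} (hf : QS G L f) (hc : QS G L c) :
    Summable fun k : ℕ => L * (f k * (starRingEnd ℂ) (c k)).re / NUC62.uh G (NUC62.kp L k) := by
  refine Summable.of_norm_bounded ((hf.add hc).mul_left (1 / 2)) fun k => ?_
  have hu := NUC62.uh_pos hG (NUC62.kp_pos hL k)
  rw [Real.norm_eq_abs, abs_div, abs_mul, abs_of_pos hL, abs_of_pos hu]
  have := abs_re_mul (f k) (c k)
  calc L * |(f k * (starRingEnd ℂ) (c k)).re| / NUC62.uh G (NUC62.kp L k) ≤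
      L * ((‖f k‖ ^ 2 + ‖c k‖ ^ 2) / 2) / NUC62.uh G (NUC62.kp L k) := by gcongr
    _ = _ := by ring

theorem norm_add_smul_sq (z w : ℂ) (x : ℝ) :
    ‖z + (x : ℂ) * w‖ ^ 2 = ‖z‖ ^ 2 + 2 * x * (z * (starRingEnd ℂ) w).re + x ^ 2 * ‖w‖ ^ 2 := by
  rw [← Complex.normSq_eq_norm_sq, ← Complex.normSq_eq_norm_sq, ← Complex.normSq_eq_norm_sq]
  simp only [Complex.normSq_apply, Complex.add_re, Complex.add_im, Complex.mul_re, Complex.mul_im,
    Complex.ofReal_re, Complex.ofReal_im, Complex.conj_re, Complex.conj_im]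
  ring

theorem QF_hasSum (hG : 9 ≤ G) (hL : 0 < L) {f c : ℕ → ℂ} (hf : QS G L f) (hc : QS G L c) (x : ℝ) :
    HasSum (fun k : ℕ => L * ‖f k + (x : ℂ) * c k‖ ^ 2 / NUC62.uh G (NUC62.kp L k))
      (QF G L f + 2 * x * QB G L f c + x ^ 2 * QF G L c) := by
  have h1 := (hf.hasSum.add (((QB_summable hG hL hf hc).hasSum).mul_left (2 * x))).add
    (hc.hasSum.mul_left (x ^ 2))
  have e : (fun k : ℕ => L * ‖f k + (x : ℂ) * c k‖ ^ 2 / NUC62.uh G (NUC62.kp L k)) = fun k : ℕ =>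
      L * ‖f k‖ ^ 2 / NUC62.uh G (NUC62.kp L k) +
        2 * x * (L * (f k * (starRingEnd ℂ) (c k)).re / NUC62.uh G (NUC62.kp L k)) +
        x ^ 2 * (L * ‖c k‖ ^ 2 / NUC62.uh G (NUC62.kp L k)) := by
    funext k
    rw [norm_add_smul_sq]
    ring
  rw [e]
  exact h1

theorem QS_add (hG : 9 ≤ G) (hL : 0 < L) {f c : ℕ → ℂ} (hf : QS G L f) (hc : QS G L c) (x : ℝ) :
    QS G L (fun k => f k + (x : ℂ) * c k) := (QF_hasSum hG hL hf hc x).summable

theorem QF_add (hG : 9 ≤ G) (hL : 0 < L) {f c : ℕ → ℂ} (hf : QS G L f) (hc : QS G L c) (x : ℝ) :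
    QF G L (fun k => f k + (x : ℂ) * c k) = QF G L f + 2 * x * QB G L f c + x ^ 2 * QF G L c :=
  (QF_hasSum hG hL hf hc x).tsum_eq

theorem QF_nonneg (hG : 9 ≤ G) (hL : 0 < L) (f : ℕ → ℂ) : 0 ≤ QF G L f :=
  tsum_nonneg fun k => by
    have hu := NUC62.uh_pos hG (NUC62.kp_pos hL k)
    positivity

theorem QB_sq (hG : 9 ≤ G) (hL : 0 < L) {f c : ℕ → ℂ} (hf : QS G L f) (hc : QS G L c) :
    QB G L f c ^ 2 ≤ QF G L f * QF G L c := by
  have h1 : ∀ x : ℝ, 0 ≤ QF G L c * (x * x) + 2 * QB G L f c * x + QF G L f := by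
    intro x
    have h2 := QF_add hG hL hf hc x
    have h3 := QF_nonneg hG hL (fun k => f k + (x : ℂ) * c k)
    rw [h2] at h3
    linarith
  have h4 := discrim_le_zero h1
  unfold discrim at h4
  nlinarith

theorem Aser_add {f c : ℕ → ℂ} (hf : Summable fun k => ‖f k‖) (hc : Summable fun k => ‖c k‖)
    (x y : ℝ) : Aser (fun k => f k + (x : ℂ) * c k) y = Aser f y + x * Aser c y := by
  unfold Aser
  have s1 : Summable fun k : ℕ => 2 * (f k * Complex.exp ((k + 1 : ℂ) * y * Complex.I)).re :=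
    Summable.of_norm_bounded (hf.mul_left 2) fun k => by
      rw [Real.norm_eq_abs]; exact abs_term_c f k y
  have s2 : Summable fun k : ℕ => 2 * (c k * Complex.exp ((k + 1 : ℂ) * y * Complex.I)).re :=
    Summable.of_norm_bounded (hc.mul_left 2) fun k => by
      rw [Real.norm_eq_abs]; exact abs_term_c c k y
  rw [← tsum_mul_left, ← s1.tsum_add (s2.mul_left x)]
  congr 1
  funext k
  rw [add_mul, Complex.add_re, mul_assoc (x : ℂ), Complex.re_ofReal_mul]
  ring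

theorem Aser_cont {c : ℕ → ℂ} (hc : Summable fun k => ‖c k‖) : Continuous (Aser c) := by
  unfold Aser
  refine continuous_tsum (fun k => by fun_prop) (hc.mul_left 2) fun k x => ?_
  rw [Real.norm_eq_abs]
  exact abs_term_c c k x

/-- **Gaussian exponential moment** of one linear statistic -/
theorem wc_mode {G T : ℝ} (hG : 9 ≤ G) (hT : 0 < T) (n : ℕ) {ρ : ℝ → ℝ} (hρc : Continuous ρ)
    (hρ : Integrable ρ) {M : ℝ} (hM : ∀ s, |ρ s| ≤ M) (f0 : ℝ) {f : ℕ → ℂ}
    (hf : Summable fun k => ‖f k‖) (hfe : QS G (2 * T + 2 * G) f)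
    {F : ℝ → ℝ} (hF : ∀ x, |x| ≤ T → F x ≤ f0 + Aser f (2 * Real.pi * x / (2 * T + 2 * G)))
    (g0 : ℝ) {c : ℕ → ℂ} (hc : Summable fun k => ‖c k‖) (hce : QS G (2 * T + 2 * G) c)
    {g : ℝ → ℝ} (hg : ∀ x, |x| ≤ T → g x = g0 + Aser c (2 * Real.pi * x / (2 * T + 2 * G))) (x : ℝ) :
    ∫⁻ t : Fin n → ℝ in Set.univ.pi fun _ => Icc (-T) T,
      ENNReal.ofReal ((∏ i, ∏ j ∈ Finset.Ioi i, om (t i - t j)) *
        ∏ i, Real.exp ((∫ s, ρ s * NUMF.V (t i - s)) + F (t i))) * ENNReal.ofReal (Real.exp (x * ∑ i, g (t i))) ≤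
    ENNReal.ofReal ((n.factorial : ℝ) * (2 * Real.pi / √NUC62.cω) ^ n *
      Real.exp (EI G (2 * T + 2 * G) ρ +
        (∫ t in (-((2 * T + 2 * G) / 2))..((2 * T + 2 * G) / 2), ρ t * (f0 + Aser f (2 * Real.pi * t / (2 * T + 2 * G)))) -
        NUC62.uG G (2 * T + 2 * G) / 2 * (n - mI (2 * T + 2 * G) ρ) ^ 2 +
        (n - mI (2 * T + 2 * G) ρ) * f0 + QF G (2 * T + 2 * G) f + 7 / 12 * (2 * T + 2 * G) +
        NUC62.err G (2 * T + 2 * G) n)) *
    ENNReal.ofReal (Real.exp (((∫ t in (-((2 * T + 2 * G) / 2))..((2 * T + 2 * G) / 2),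
        ρ t * (g0 + Aser c (2 * Real.pi * t / (2 * T + 2 * G)))) +
        (n - mI (2 * T + 2 * G) ρ) * g0 + 2 * QB G (2 * T + 2 * G) f c) * x +
        QF G (2 * T + 2 * G) c * x ^ 2)) := by
  set L := 2 * T + 2 * G with hL
  have hL0 : 0 < L := by linarith
  have hfc : Summable fun k => ‖f k + (x : ℂ) * c k‖ := by
    refine Summable.of_nonneg_of_le (fun k => norm_nonneg _) (fun k => ?_) (hf.add (hc.mul_left |x|))
    refine (norm_add_le _ _).trans ?_
    rw [norm_mul, Complex.norm_real, Real.norm_eq_abs]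
  have h := wc1 hG hT n hρc hρ hM (f0 + x * g0) hfc (QS_add hG hL0 hfe hce x)
    (F := fun y => F y + x * g y) (by
      intro y hy
      rw [Aser_add hf hc, hg y hy]
      have := hF y hy
      rw [← hL]
      linarith)
  rw [← hL] at h
  have e1 : ∀ t : Fin n → ℝ, ENNReal.ofReal ((∏ i, ∏ j ∈ Finset.Ioi i, om (t i - t j)) *
        ∏ i, Real.exp ((∫ s, ρ s * NUMF.V (t i - s)) + F (t i))) * ENNReal.ofReal (Real.exp (x * ∑ i, g (t i))) =
      ENNReal.ofReal ((∏ i, ∏ j ∈ Finset.Ioi i, om (t i - t j)) *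
        ∏ i, Real.exp ((∫ s, ρ s * NUMF.V (t i - s)) + (F (t i) + x * g (t i)))) := by
    intro t
    rw [← ENNReal.ofReal_mul (mul_nonneg (Finset.prod_nonneg fun i _ => Finset.prod_nonneg fun j _ =>
      om_nonneg _) (Finset.prod_nonneg fun i _ => (Real.exp_pos _).le))]
    congr 1
    rw [mul_assoc, Finset.mul_sum, Real.exp_sum, ← Finset.prod_mul_distrib]
    congr 1
    refine Finset.prod_congr rfl fun i _ => ?_
    rw [← Real.exp_add]
    congr 1
    ring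
  simp_rw [e1]
  refine h.trans (le_of_eq ?_)
  rw [← ENNReal.ofReal_mul (by positivity), mul_assoc, mul_assoc, mul_assoc, ← Real.exp_add]
  congr 4
  have e2 : ∫ t in (-(L / 2))..(L / 2), ρ t * (f0 + x * g0 + Aser (fun k => f k + (x : ℂ) * c k) (2 * Real.pi * t / L)) =
      (∫ t in (-(L / 2))..(L / 2), ρ t * (f0 + Aser f (2 * Real.pi * t / L))) +
      x * ∫ t in (-(L / 2))..(L / 2), ρ t * (g0 + Aser c (2 * Real.pi * t / L)) := by
    rw [← intervalIntegral.integral_const_mul, ← intervalIntegral.integral_add]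
    · refine intervalIntegral.integral_congr fun t _ => ?_
      rw [Aser_add hf hc]
      ring
    · apply Continuous.intervalIntegrable
      have := Aser_cont hf
      fun_prop
    · apply Continuous.intervalIntegrable
      have := Aser_cont hc
      fun_prop
  rw [e2, QF_add hG hL0 hfe hce]
  ring

end

end NUDi
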