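import Pool.Agent.NUDi.Extend
import Pool.Agent.NUDi.Quad
import Pool.Agent.NUKer.Glob

/-!
# Gaussian exponential moments of the cut Fourier modes

`mode_bound`: window gas, `f = b h` with `b` cut function of support in `[-R, R]`, `|h| ≤ 1`,
`|h'| ≤ α`; constants uniform in the length of the window.
-/

set_option autoImplicit false

open MeasureTheory Set Filter Topology
open Pool.Agent.Szego62 (Aser abs_term_c)
open scoped Real ENNReal

namespace NUDi

open NUWC NUC62 NUKer

noncomputable section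

/-- a `C¹` cut function -/
structure Bdat (R : ℝ) (b b1 : ℝ → ℝ) (Cb : ℝ) : Prop where
  R1 : 1 ≤ R
  deriv : ∀ x, HasDerivAt b (b1 x) x
  cont : Continuous b1
  le : ∀ x, |b x| ≤ 1
  le1 : ∀ x, |b1 x| ≤ Cb
  zero : ∀ x, R < |x| → b x = 0
  zero1 : ∀ x, R < |x| → b1 x = 0

variable {R Cb α : ℝ} {b b1 h h1 : ℝ → ℝ}

theorem Bdat.Cb0 (hb : Bdat R b b1 Cb) : 0 ≤ Cb := (abs_nonneg _).trans (hb.le1 0)

theorem Bdat.mul_deriv (hb : Bdat R b b1 Cb) (hh : ∀ x, HasDerivAt h (h1 x) x) (x : ℝ) :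
    HasDerivAt (fun x => b x * h x) (b1 x * h x + b x * h1 x) x := (hb.deriv x).mul (hh x)

theorem Bdat.mul_cont (hb : Bdat R b b1 Cb) (hh : ∀ x, HasDerivAt h (h1 x) x) (hc : Continuous h1) :
    Continuous fun x => b1 x * h x + b x * h1 x := by
  have c1 : Continuous h := continuous_iff_continuousAt.2 fun x => (hh x).continuousAt
  have c2 : Continuous b := continuous_iff_continuousAt.2 fun x => (hb.deriv x).continuousAt
  have c3 := hb.cont
  fun_prop

theorem Bdat.mul_le (hb : Bdat R b b1 Cb) (h0 : ∀ x, |h x| ≤ 1) (x : ℝ) : |b x * h x| ≤ 1 := by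
  rw [abs_mul]
  calc |b x| * |h x| ≤ 1 * 1 := mul_le_mul (hb.le x) (h0 x) (abs_nonneg _) zero_le_one
    _ = 1 := one_mul 1

theorem Bdat.mul_le1 (hb : Bdat R b b1 Cb) (h0 : ∀ x, |h x| ≤ 1) (h1' : ∀ x, |h1 x| ≤ α) (x : ℝ) :
    |b1 x * h x + b x * h1 x| ≤ Cb + α := by
  have hCb := hb.Cb0
  refine (abs_add_le _ _).trans ?_
  rw [abs_mul, abs_mul]
  have e1 : |b1 x| * |h x| ≤ Cb * 1 := mul_le_mul (hb.le1 x) (h0 x) (abs_nonneg _) hCb
  have e2 : |b x| * |h1 x| ≤ 1 * α := mul_le_mul (hb.le x) (h1' x) (abs_nonneg _) zero_le_one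
  linarith

/-- integral of the square of a bounded function with support in `[-R, R]` or on a short interval -/
theorem int_sq_le {L : ℝ} (hL : 0 < L) (hR : 0 ≤ R) {g : ℝ → ℝ} (hg : Continuous g) {C : ℝ}
    (hC : ∀ x, |x| ≤ L / 2 → |g x| ≤ C) (h0 : L / 2 ≤ R ∨ ∀ x, R < |x| → g x = 0) :
    ∫ x in (-(L / 2))..(L / 2), g x ^ 2 ≤ 2 * R * C ^ 2 := by
  have hC0 : 0 ≤ C := (abs_nonneg _).trans (hC 0 (by rw [abs_zero]; linarith))
  have hsq : ∀ x, |x| ≤ L / 2 → g x ^ 2 ≤ C ^ 2 := by
    intro x hx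
    rw [← sq_abs]
    exact pow_le_pow_left₀ (abs_nonneg _) (hC x hx) 2
  rcases le_or_gt (L / 2) R with hLR | hLR
  · have h1 : ∫ x in (-(L / 2))..(L / 2), g x ^ 2 ≤ ∫ x in (-(L / 2))..(L / 2), C ^ 2 := by
      refine intervalIntegral.integral_mono_on (by linarith) ?_ ?_ fun x hx => hsq x (abs_le.2 hx)
      · exact Continuous.intervalIntegrable (by fun_prop) _ _
      · exact intervalIntegrable_const
    rw [intervalIntegral.integral_const, smul_eq_mul] at h1
    have : (L / 2 - -(L / 2)) * C ^ 2 ≤ 2 * R * C ^ 2 := by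
      refine mul_le_mul_of_nonneg_right (by linarith) (by positivity)
    linarith
  · rcases h0 with h0 | h0
    · linarith
    · have h1 : ∫ x in (-(L / 2))..(L / 2), g x ^ 2 = ∫ x in (-R)..R, g x ^ 2 := by
        rw [intervalIntegral.integral_of_le (by linarith), intervalIntegral.integral_of_le (by linarith)]
        refine (setIntegral_eq_of_subset_of_ae_sdiff_eq_zero measurableSet_Ioc.nullMeasurableSet ?_ ?_)
        · intro x hx
          exact ⟨by linarith [hx.1], by linarith [hx.2]⟩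
        · have hne : ∀ᵐ x : ℝ, x ≠ -R := by
            simp [ae_iff, measure_singleton]
          filter_upwards [hne] with x hx hxx
          have : R < |x| := by
            rw [lt_abs]
            by_contra hcon
            push Not at hcon
            refine hxx.2 ⟨lt_of_le_of_ne (by linarith [hcon.2]) (Ne.symm hx), hcon.1⟩
          rw [h0 x this]
          norm_num
      rw [h1]
      have h2 : ∫ x in (-R)..R, g x ^ 2 ≤ ∫ x in (-R)..R, C ^ 2 := by
        refine intervalIntegral.integral_mono_on (by linarith) ?_ ?_ fun x hx => hsq x ?_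
        · exact Continuous.intervalIntegrable (by fun_prop) _ _
        · exact intervalIntegrable_const
        · exact (abs_le.2 hx).trans hLR.le
      rw [intervalIntegral.integral_const, smul_eq_mul] at h2
      calc _ ≤ _ := h2
        _ = _ := by ring

/-- energy of the cut mode, uniformly in the window -/
theorem mode_energy (hb : Bdat R b b1 Cb) {G T : ℝ} (hG : 9 ≤ G) (hT : 0 < T)
    (hh : ∀ x, HasDerivAt h (h1 x) x) (hc : Continuous h1) (h0 : ∀ x, |h x| ≤ 1)
    (hα : ∀ x, |h1 x| ≤ α) (K : ℕ) :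
    ∑ p ∈ Finset.range K, (2 * T + 2 * G) *
      ‖fc (2 * T + 2 * G) (fe T (2 * T + 2 * G) fun x => b x * h x) ((p : ℤ) + 1)‖ ^ 2 /
        uh G (NUC62.kp (2 * T + 2 * G) p) ≤ 4 * R * (Cb + 3) * (1 + α) := by
  set L := 2 * T + 2 * G with hL
  have hL0 : 0 < L := by linarith
  have hR1 := hb.R1
  have hCb := hb.Cb0
  have hα0 : 0 ≤ α := (abs_nonneg _).trans (hα 0)
  have hTL : T < L / 2 := by linarith
  have hGL : L / 2 - T = G := by rw [hL]; ring
  set f : ℝ → ℝ := fun x => b x * h x with hf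
  set f1 : ℝ → ℝ := fun x => b1 x * h x + b x * h1 x with hf1
  have hfd : ∀ x, HasDerivAt f (f1 x) x := hb.mul_deriv hh
  have hf1c : Continuous f1 := hb.mul_cont hh hc
  have hfle : ∀ x, |f x| ≤ 1 := hb.mul_le h0
  have hf1le : ∀ x, |f1 x| ≤ Cb + α := hb.mul_le1 h0 hα
  have hj : |jmp L f| ≤ 1 := jmp_abs (hfle _) (hfle _)
  have hgd := fe_deriv (Λ := L) (T := T) hfd
  have hg1c : Continuous (fe1 T L f f1) := fe1_cont hf1c
  have hgc : Continuous (fe T L f) := continuous_iff_continuousAt.2 fun x => (hgd x).continuousAt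
  have hz : L / 2 ≤ R ∨ jmp L f = 0 := by
    rcases le_or_gt (L / 2) R with h | h
    · exact Or.inl h
    · right
      unfold jmp
      have e1 : f (L / 2) = 0 := by
        rw [hf]
        simp only
        rw [hb.zero _ (by rw [abs_of_pos (by linarith)]; exact h), zero_mul]
      have e2 : f (-(L / 2)) = 0 := by
        rw [hf]
        simp only
        rw [hb.zero _ (by rw [abs_neg, abs_of_pos (by linarith)]; exact h), zero_mul]
      rw [e1, e2]
      norm_num
  have hgle : ∀ x, |x| ≤ L / 2 → |fe T L f x| ≤ 2 := by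
    intro x hx
    unfold fe
    have e1 := hodd_abs hT.le hTL hx
    have e2 := hfle x
    refine (abs_sub _ _).trans ?_
    rw [abs_mul (jmp L f)]
    have : |jmp L f| * |hodd T L x| ≤ 1 * 1 := mul_le_mul hj e1 (abs_nonneg _) zero_le_one
    linarith
  have hg1le : ∀ x, |x| ≤ L / 2 → |fe1 T L f f1 x| ≤ Cb + α + 1 := by
    intro x hx
    unfold fe1
    have e1 := hodd1_abs hT.le hTL hx
    have e2 := hf1le x
    rw [hGL] at e1
    have e3 : 2 / G ≤ 1 := by rw [div_le_one (by linarith)]; linarith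
    refine (abs_sub _ _).trans ?_
    rw [abs_mul (jmp L f)]
    have : |jmp L f| * |hodd1 T L x| ≤ 1 * 1 := mul_le_mul hj (e1.trans e3) (abs_nonneg _) zero_le_one
    linarith
  have hA := int_sq_le (R := R) hL0 (by linarith) hgc hgle (by
    rcases hz with h | h
    · exact Or.inl h
    · right
      intro x hx
      unfold fe
      rw [h, zero_mul, sub_zero, hf]
      simp only
      rw [hb.zero x hx, zero_mul])
  have hB := int_sq_le (R := R) hL0 (by linarith) hg1c hg1le (by
    rcases hz with h | h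
    · exact Or.inl h
    · right
      intro x hx
      unfold fe1
      rw [h, zero_mul, sub_zero, hf1]
      simp only
      rw [hb.zero x hx, hb.zero1 x hx, zero_mul, zero_mul, add_zero])
  have hA' : ∫ x in (-(L / 2))..(L / 2), fe T L f x ^ 2 ≤ (√(2 * R) * 2) ^ 2 := by
    rw [mul_pow, Real.sq_sqrt (by linarith)]
    exact hA
  have hB' : ∫ x in (-(L / 2))..(L / 2), fe1 T L f f1 x ^ 2 ≤ (√(2 * R) * (Cb + α + 1)) ^ 2 := by
    rw [mul_pow, Real.sq_sqrt (by linarith)]
    exact hB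
  have h3 := energy_uh hG hL0 hgd hg1c (fe_end hT.le hTL f) hA' hB' (by positivity) (by positivity) K
  refine h3.trans ?_
  have e : (√(2 * R) * 2) ^ 2 + √(2 * R) * 2 * (√(2 * R) * (Cb + α + 1)) =
      (√(2 * R)) ^ 2 * (4 + 2 * (Cb + α + 1)) := by ring
  rw [e, Real.sq_sqrt (by linarith)]
  have e2 : 4 + 2 * (Cb + α + 1) ≤ 2 * (Cb + 3) * (1 + α) := by nlinarith
  calc 2 * R * (4 + 2 * (Cb + α + 1)) ≤ 2 * R * (2 * (Cb + 3) * (1 + α)) := by gcongr
    _ = _ := by ring

theorem fc_zero_le {L : ℝ} (hL : 0 < L) {g : ℝ → ℝ} {C : ℝ} (hg : ∀ x, |x| ≤ L / 2 → |g x| ≤ C) :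
    |(fc L g 0).re| ≤ C := by
  refine (Complex.abs_re_le_norm _).trans ?_
  rw [fc_ex, norm_mul, Complex.norm_real, Real.norm_eq_abs, abs_of_pos (by positivity)]
  have h1 : ‖∫ x in (-(L / 2))..(L / 2), ex L 0 x * (g x : ℂ)‖ ≤ C * |L / 2 - -(L / 2)| := by
    refine intervalIntegral.norm_integral_le_of_norm_le_const fun x hx => ?_
    rw [uIoc_of_le (by linarith)] at hx
    rw [norm_mul, Complex.norm_real, Real.norm_eq_abs]
    have e1 : ‖ex L 0 x‖ = 1 := by
      unfold ex
      rw [show (-((2 * π * ((0 : ℤ) : ℝ) / L * x : ℝ) : ℂ) * Complex.I) =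
        (((-(2 * π * ((0 : ℤ) : ℝ) / L * x) : ℝ)) : ℂ) * Complex.I by push_cast; ring]
      exact Complex.norm_exp_ofReal_mul_I _
    rw [e1, one_mul]
    exact hg x (abs_le.2 ⟨hx.1.le, hx.2⟩)
  rw [show L / 2 - -(L / 2) = L by ring, abs_of_pos hL] at h1
  calc 1 / L * ‖∫ x in (-(L / 2))..(L / 2), ex L 0 x * (g x : ℂ)‖ ≤ 1 / L * (C * L) := by gcongr
    _ = C := by field_simp

/-- the difference of the linear terms -/
theorem lin_diff {T L : ℝ} (hT : 0 < T) (hTL : T < L / 2) {ρ' ρ : ℝ → ℝ} (hρ'c : Continuous ρ')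
    (hρ' : Integrable ρ') (hρc : Continuous ρ) (hρ : Integrable ρ) {g f : ℝ → ℝ}
    (hgc : Continuous g) (hfc : Continuous f) (hg : ∀ x, |x| ≤ L / 2 → |g x| ≤ 2)
    (hf : ∀ x, |f x| ≤ 1) (he : ∀ x, |x| ≤ T → g x = f x) :
    |(∫ t in (-(L / 2))..(L / 2), ρ' t * g t) - ∫ t, f t * ρ t| ≤
      2 * (∫ t, |ρ' t - ρ t|) + 3 * ∫ t in {t | T < |t|}, |ρ t| := by
  have hL2 : -(L / 2) ≤ L / 2 := by linarith
  have hmT : MeasurableSet {t : ℝ | T < |t|} := measurableSet_lt measurable_const (by fun_prop)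
  have i1 : Integrable fun t => |ρ' t - ρ t| := (hρ'.sub hρ).abs
  have i2 : IntegrableOn (fun t => |ρ t|) {t | T < |t|} := hρ.abs.integrableOn
  have i3 : Integrable fun t => f t * ρ t := by
    refine hρ.bdd_mul hfc.aestronglyMeasurable (c := 1) (Eventually.of_forall fun t => ?_)
    rw [Real.norm_eq_abs]
    exact hf t
  rw [intervalIntegral.integral_of_le hL2, ← integral_indicator measurableSet_Ioc]
  have i4 : Integrable ((Ioc (-(L / 2)) (L / 2)).indicator fun t => ρ' t * g t) := by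
    rw [integrable_indicator_iff measurableSet_Ioc]
    exact ((hρ'c.mul hgc).integrableOn_Icc (a := -(L / 2)) (b := L / 2)).mono_set Ioc_subset_Icc_self
  rw [← integral_sub i4 i3]
  have i5 : Integrable ({t | T < |t|}.indicator fun t => |ρ t|) := by
    rw [integrable_indicator_iff hmT]
    exact i2
  rw [← integral_indicator hmT, ← integral_const_mul, ← integral_const_mul,
    ← integral_add (i1.const_mul 2) (i5.const_mul 3)]
  rw [← Real.norm_eq_abs]
  refine norm_integral_le_of_norm_le ((i1.const_mul 2).add (i5.const_mul 3))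
    (Eventually.of_forall fun t => ?_)
  rw [Real.norm_eq_abs]
  have e0 : 0 ≤ |ρ' t - ρ t| := abs_nonneg _
  have e1 : 0 ≤ |ρ t| := abs_nonneg _
  have e2 := hf t
  have e3 : |f t * ρ t| ≤ |ρ t| := by
    rw [abs_mul]
    exact mul_le_of_le_one_left e1 e2
  by_cases hI : t ∈ Ioc (-(L / 2)) (L / 2)
  · rw [indicator_of_mem hI]
    have htL : |t| ≤ L / 2 := abs_le.2 ⟨hI.1.le, hI.2⟩
    have e4 := hg t htL
    have e5 : ρ' t * g t - f t * ρ t = (ρ' t - ρ t) * g t + ρ t * (g t - f t) := by ring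
    have e6 : |(ρ' t - ρ t) * g t| ≤ 2 * |ρ' t - ρ t| := by
      rw [abs_mul, mul_comm]
      gcongr
    rw [e5]
    by_cases hTt : T < |t|
    · rw [indicator_of_mem (show t ∈ {t : ℝ | T < |t|} from hTt)]
      have e7 : |ρ t * (g t - f t)| ≤ 3 * |ρ t| := by
        rw [abs_mul, mul_comm]
        have : |g t - f t| ≤ 3 := (abs_sub _ _).trans (by linarith)
        gcongr
      exact (abs_add_le _ _).trans (add_le_add e6 e7)
    · rw [indicator_of_notMem (show t ∉ {t : ℝ | T < |t|} from hTt), he t (not_lt.1 hTt), sub_self,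
        mul_zero, add_zero, mul_zero, add_zero, ← he t (not_lt.1 hTt)]
      exact e6
  · rw [indicator_of_notMem hI, zero_sub, abs_neg]
    have hTt : T < |t| := by
      by_contra hcon
      push Not at hcon
      have := abs_le.1 (hcon.trans hTL.le)
      rcases eq_or_lt_of_le this.1 with h | h
      · rw [← h, abs_neg, abs_of_pos (by linarith)] at hcon
        linarith
      · exact hI ⟨h, this.2⟩
    rw [indicator_of_mem (show t ∈ {t : ℝ | T < |t|} from hTt)]
    linarith

end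

end NUDi
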