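import Pool.Agent.NUDi.Mode
import Pool.Agent.NUWC.WCS

/-!
# Gaussian exponential moments of the cut Fourier modes of the window gas

* `EW_add`, `wcs_mode`: one linear statistic on top of `NUWC.wcs`;
* `mode_bound`: `f = b h`, `|h| ≤ 1`, `|h'| ≤ α`: `q ≤ q0 (1 + α)`, `l² ≤ M q0 (1 + α)`,
  `q0 = 8 R (Cb + 3)`, `M = 3 D² + 12 (n - mass)² + 6 QF`, constants uniform in the window.
-/

set_option autoImplicit false

open MeasureTheory Set Filter Topology
open Pool.Agent.Szego62 (Aser abs_term_c)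
open scoped Real ENNReal

namespace NUDi

open NUWC NUC62 NUKer

noncomputable section

/-- the mass of the density on the circle -/
def mW (L : ℝ) (ρ : ℝ → ℝ) : ℝ := ∫ t in (-(L / 2))..(L / 2), ρ t

/-- coefficient of the linear term -/
def lW (G L : ℝ) (n : ℕ) (ρ : ℝ → ℝ) (f : ℕ → ℂ) (g0 : ℝ) (c : ℕ → ℂ) : ℝ :=
  (∫ t in (-(L / 2))..(L / 2), ρ t * (g0 + Aser c (2 * π * t / L))) + (n - mW L ρ) * g0 +
    2 * QB G L f c

theorem EW_add {G L δ : ℝ} (hG : 9 ≤ G) (hL : 0 < L) (n : ℕ) {ρ : ℝ → ℝ} (hρ : Continuous ρ)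
    (f0 g0 : ℝ) {f c : ℕ → ℂ} (hf : Summable fun k => ‖f k‖) (hc : Summable fun k => ‖c k‖)
    (hfe : QS G L f) (hce : QS G L c) (x : ℝ) :
    EW G L δ n ρ (f0 + x * g0) (fun k => f k + (x : ℂ) * c k) 0 =
      EW G L δ n ρ f0 f 0 + (lW G L n ρ f g0 c * x + QF G L c * x ^ 2) := by
  unfold EW lW mW
  simp only [sub_zero, zero_sub, zero_add]
  have e2 : ∫ t in (-(L / 2))..(L / 2), ρ t * (Aser (fun k => f k + (x : ℂ) * c k) (2 * π * t / L)) =
      (∫ t in (-(L / 2))..(L / 2), ρ t * (Aser f (2 * π * t / L))) +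
      x * ∫ t in (-(L / 2))..(L / 2), ρ t * (Aser c (2 * π * t / L)) := by
    rw [← intervalIntegral.integral_const_mul, ← intervalIntegral.integral_add]
    · refine intervalIntegral.integral_congr fun t _ => ?_
      rw [Aser_add hf hc]
      ring
    · apply Continuous.intervalIntegrable
      have := Aser_cont hf
      fun_prop
    · apply Continuous.intervalIntegrable
      have := Aser_cont hc
      fun_prop
  have e3 : ∫ t in (-(L / 2))..(L / 2), ρ t * (g0 + Aser c (2 * π * t / L)) =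
      (∫ t in (-(L / 2))..(L / 2), ρ t) * g0 +
      ∫ t in (-(L / 2))..(L / 2), ρ t * (Aser c (2 * π * t / L)) := by
    rw [← intervalIntegral.integral_mul_const, ← intervalIntegral.integral_add]
    · refine intervalIntegral.integral_congr fun t _ => ?_
      ring
    · apply Continuous.intervalIntegrable
      fun_prop
    · apply Continuous.intervalIntegrable
      have := Aser_cont hc
      fun_prop
  rw [e2, e3, QF_add hG hL hfe hce]
  ring

/-- **Gaussian exponential moment** of one linear statistic of the window gas -/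
theorem wcs_mode {G T δ M : ℝ} (hG : 9 ≤ G) (hT : 0 < T) (n : ℕ) {ρ : ℝ → ℝ} (hρc : Continuous ρ)
    (hρ : Integrable ρ) (hM : ∀ s, |ρ s| ≤ M)
    (hδ : ∀ s, T ≤ |s| → |ρ s| ≤ δ * Real.exp (-(|s| - T))) (f0 : ℝ) {f : ℕ → ℂ}
    (hf : Summable fun k => ‖f k‖) (hfe : QS G (2 * T + 2 * G) f)
    {F : ℝ → ℝ} (hF : ∀ x, |x| ≤ T → F x ≤ f0 + Aser f (2 * π * x / (2 * T + 2 * G)))
    (g0 : ℝ) {c : ℕ → ℂ} (hc : Summable fun k => ‖c k‖) (hce : QS G (2 * T + 2 * G) c)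
    {g : ℝ → ℝ} (hg : ∀ x, |x| ≤ T → g x = g0 + Aser c (2 * π * x / (2 * T + 2 * G))) (x : ℝ) :
    ∫⁻ t : Fin n → ℝ in Set.univ.pi fun _ => Icc (-T) T,
      ENNReal.ofReal ((∏ i, ∏ j ∈ Finset.Ioi i, om (t i - t j)) *
        ∏ i, Real.exp ((∫ s, ρ s * NUMF.V (t i - s)) + F (t i))) *
        ENNReal.ofReal (Real.exp (x * ∑ i, g (t i))) ≤
    ENNReal.ofReal ((n.factorial : ℝ) * (2 * π / √NUC62.cω) ^ n *
      Real.exp (EW G (2 * T + 2 * G) δ n ρ f0 f 0)) *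
    ENNReal.ofReal (Real.exp (lW G (2 * T + 2 * G) n ρ f g0 c * x +
        QF G (2 * T + 2 * G) c * x ^ 2)) := by
  have hL0 : 0 < 2 * T + 2 * G := by linarith
  have hfc : Summable fun k => ‖f k + (x : ℂ) * c k‖ := by
    refine Summable.of_nonneg_of_le (fun k => norm_nonneg _) (fun k => ?_) (hf.add (hc.mul_left |x|))
    refine (norm_add_le _ _).trans ?_
    rw [norm_mul, Complex.norm_real, Real.norm_eq_abs]
  have h := wcs hG hT n hρc hρ hM hδ (f0 + x * g0) hfc (QS_add hG hL0 hfe hce x)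
    (F := fun y => F y + x * g y) (by
      intro y hy
      rw [Aser_add hf hc, hg y hy]
      have := hF y hy
      linarith)
  have e1 : ∀ t : Fin n → ℝ, ENNReal.ofReal ((∏ i, ∏ j ∈ Finset.Ioi i, om (t i - t j)) *
        ∏ i, Real.exp ((∫ s, ρ s * NUMF.V (t i - s)) + F (t i))) *
        ENNReal.ofReal (Real.exp (x * ∑ i, g (t i))) =
      ENNReal.ofReal ((∏ i, ∏ j ∈ Finset.Ioi i, om (t i - t j)) *
        ∏ i, Real.exp ((∫ s, ρ s * NUMF.V (t i - s)) + (F (t i) + x * g (t i)))) := by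
    intro t
    rw [← ENNReal.ofReal_mul (mul_nonneg (Finset.prod_nonneg fun i _ => Finset.prod_nonneg fun j _ =>
      om_nonneg _) (Finset.prod_nonneg fun i _ => (Real.exp_pos _).le))]
    congr 1
    rw [mul_assoc, Finset.mul_sum, Real.exp_sum, ← Finset.prod_mul_distrib]
    congr 1
    refine Finset.prod_congr rfl fun i _ => ?_
    rw [← Real.exp_add]
    congr 1
    ring
  simp_rw [e1]
  refine h.trans (le_of_eq ?_)
  rw [← ENNReal.ofReal_mul (by positivity), mul_assoc, mul_assoc, mul_assoc, ← Real.exp_add,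
    EW_add hG hL0 n hρc f0 g0 hf hc hfe hce]

theorem lsq {A1 D N g0 B Qf Qc q0 : ℝ} (hA : |A1| ≤ D) (hg : |g0| ≤ 2) (hB : B ^ 2 ≤ Qf * Qc)
    (hQ : Qc ≤ q0 / 2) (hq : 1 ≤ q0) (hQf : 0 ≤ Qf) :
    (A1 + N * g0 + 2 * B) ^ 2 ≤ (3 * D ^ 2 + 12 * N ^ 2 + 6 * Qf) * q0 := by
  have e2 : A1 ^ 2 ≤ D ^ 2 := by
    rw [← sq_abs A1]
    exact pow_le_pow_left₀ (abs_nonneg _) hA 2
  have e3 : (N * g0) ^ 2 ≤ 4 * N ^ 2 := by
    rw [mul_pow]
    have h1 : g0 ^ 2 ≤ 2 ^ 2 := by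
      rw [← sq_abs]
      exact pow_le_pow_left₀ (abs_nonneg _) hg 2
    have h2 : N ^ 2 * g0 ^ 2 ≤ N ^ 2 * 2 ^ 2 := by gcongr
    linarith
  have e4 : (A1 + N * g0 + 2 * B) ^ 2 ≤ 3 * (A1 ^ 2 + (N * g0) ^ 2 + (2 * B) ^ 2) := by
    nlinarith [sq_nonneg (A1 - N * g0), sq_nonneg (A1 - 2 * B), sq_nonneg (N * g0 - 2 * B)]
  have e6 : B ^ 2 ≤ Qf * (q0 / 2) := hB.trans (by gcongr)
  have e7 : 3 * D ^ 2 + 12 * N ^ 2 ≤ (3 * D ^ 2 + 12 * N ^ 2) * q0 :=
    le_mul_of_one_le_right (by positivity) hq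
  have e8 : (2 * B) ^ 2 = 4 * B ^ 2 := by ring
  rw [e8] at e4
  linarith

variable {R Cb α : ℝ} {b b1 h h1 : ℝ → ℝ}

/-- **Exponential moments of the cut modes**, uniform in the window. `ρ'` is the density of the
potential (with the charges of the objects), `ρ` the density in the statistic. -/
theorem mode_bound (hb : Bdat R b b1 Cb) {G T δ M' : ℝ} (hG : 9 ≤ G) (hT : 0 < T) (n : ℕ)
    {ρ' : ℝ → ℝ} (hρc' : Continuous ρ') (hρ' : Integrable ρ') (hM' : ∀ s, |ρ' s| ≤ M')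
    (hδ : ∀ s, T ≤ |s| → |ρ' s| ≤ δ * Real.exp (-(|s| - T))) (f0 : ℝ) {f : ℕ → ℂ}
    (hf : Summable fun k => ‖f k‖) (hfe : QS G (2 * T + 2 * G) f)
    {F : ℝ → ℝ} (hF : ∀ x, |x| ≤ T → F x ≤ f0 + Aser f (2 * π * x / (2 * T + 2 * G)))
    {ρ : ℝ → ℝ} (hρc : Continuous ρ) (hρ : Integrable ρ) {D : ℝ}
    (hD : 2 * (∫ t, |ρ' t - ρ t|) + 3 * (∫ t in {t | T < |t|}, |ρ t|) ≤ D)
    (hh : ∀ x, HasDerivAt h (h1 x) x) (hc : Continuous h1) (h0 : ∀ x, |h x| ≤ 1)
    (hα : ∀ x, |h1 x| ≤ α) :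
    ∃ l q : ℝ, q ≤ 8 * R * (Cb + 3) * (1 + α) ∧
      l ^ 2 ≤ (3 * D ^ 2 + 12 * (n - mW (2 * T + 2 * G) ρ') ^ 2 + 6 * QF G (2 * T + 2 * G) f) *
        (8 * R * (Cb + 3) * (1 + α)) ∧
      ∀ x : ℝ, ∫⁻ t : Fin n → ℝ in Set.univ.pi fun _ => Icc (-T) T,
        ENNReal.ofReal ((∏ i, ∏ j ∈ Finset.Ioi i, om (t i - t j)) *
          ∏ i, Real.exp ((∫ s, ρ' s * NUMF.V (t i - s)) + F (t i))) *
          ENNReal.ofReal (Real.exp (x * nuF ρ t fun y => b y * h y)) ≤
      ENNReal.ofReal ((n.factorial : ℝ) * (2 * π / √NUC62.cω) ^ n *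
        Real.exp (EW G (2 * T + 2 * G) δ n ρ' f0 f 0)) *
      ENNReal.ofReal (Real.exp (l * x + q * x ^ 2 / 2)) := by
  set L := 2 * T + 2 * G with hL
  have hL0 : 0 < L := by linarith
  have hR1 := hb.R1
  have hCb := hb.Cb0
  have hα0 : 0 ≤ α := (abs_nonneg _).trans (hα 0)
  have hTL : T < L / 2 := by linarith
  set u : ℝ → ℝ := fun x => b x * h x with hu
  set u1 : ℝ → ℝ := fun x => b1 x * h x + b x * h1 x with hu1
  have hud : ∀ x, HasDerivAt u (u1 x) x := hb.mul_deriv hh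
  have hu1c : Continuous u1 := hb.mul_cont hh hc
  have hule : ∀ x, |u x| ≤ 1 := hb.mul_le h0
  have huc : Continuous u := continuous_iff_continuousAt.2 fun x => (hud x).continuousAt
  have hj : |jmp L u| ≤ 1 := jmp_abs (hule _) (hule _)
  set g := fe T L u with hg
  have hgd : ∀ x, HasDerivAt g (fe1 T L u u1 x) x := fe_deriv hud
  have hg1c : Continuous (fe1 T L u u1) := fe1_cont hu1c
  have hgc : Continuous g := continuous_iff_continuousAt.2 fun x => (hgd x).continuousAt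
  have hgle : ∀ x, |x| ≤ L / 2 → |g x| ≤ 2 := by
    intro x hx
    rw [hg]
    unfold fe
    have e1 := hodd_abs hT.le hTL hx
    have e2 := hule x
    refine (abs_sub _ _).trans ?_
    rw [abs_mul (jmp L u)]
    have : |jmp L u| * |hodd T L x| ≤ 1 * 1 := mul_le_mul hj e1 (abs_nonneg _) zero_le_one
    linarith
  have hend : g (L / 2) = g (-(L / 2)) := fe_end hT.le hTL u
  set c : ℕ → ℂ := fun k => fc L g ((k : ℤ) + 1) with hcdef
  set g0 : ℝ := (fc L g 0).re with hg0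
  have hcs : Summable fun k => ‖c k‖ := summable_fc hL0 hgd hg1c hend
  have hen : ∀ K, ∑ p ∈ Finset.range K, L * ‖c p‖ ^ 2 / uh G (NUC62.kp L p) ≤
      4 * R * (Cb + 3) * (1 + α) := fun K => mode_energy hb hG hT hh hc h0 hα K
  have hpos : ∀ p : ℕ, 0 ≤ L * ‖c p‖ ^ 2 / uh G (NUC62.kp L p) := fun p => by
    have hu' := NUC62.uh_pos hG (NUC62.kp_pos hL0 p)
    positivity
  have hce : QS G L c := summable_of_sum_range_le hpos hen
  have hQc : QF G L c ≤ 4 * R * (Cb + 3) * (1 + α) := Real.tsum_le_of_sum_range_le hpos hen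
  have hgser : ∀ x, |x| ≤ L / 2 → g x = g0 + Aser c (2 * π * x / L) := fun x hx =>
    ser hL0 hgd hg1c hend hx
  have hgser' : ∀ x, |x| ≤ T → u x = g0 + Aser c (2 * π * x / L) := by
    intro x hx
    rw [← hgser x (by linarith), hg, fe_eq hx]
  have hg0le : |g0| ≤ 2 := fc_zero_le hL0 hgle
  -- the linear term
  set l : ℝ := lW G L n ρ' f g0 c - ∫ t, u t * ρ t with hl
  have hlin := lin_diff hT hTL hρc' hρ' hρc hρ hgc huc hgle hule (fun x hx => by rw [hg, fe_eq hx])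
  have hint : ∫ t in (-(L / 2))..(L / 2), ρ' t * (g0 + Aser c (2 * π * t / L)) =
      ∫ t in (-(L / 2))..(L / 2), ρ' t * g t := by
    refine intervalIntegral.integral_congr fun t ht => ?_
    rw [uIcc_of_le (by linarith)] at ht
    rw [← hgser t (abs_le.2 ht)]
  have hQB := QB_sq hG hL0 hfe hce
  have hQf := QF_nonneg hG hL0 f
  have hQcn := QF_nonneg hG hL0 c
  have hD0 : 0 ≤ D := (abs_nonneg _).trans (hlin.trans hD)
  refine ⟨l, 2 * QF G L c, by linarith, ?_, fun x => ?_⟩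
  · have e1 : l = ((∫ t in (-(L / 2))..(L / 2), ρ' t * g t) - ∫ t, u t * ρ t) +
        (n - mW L ρ') * g0 + 2 * QB G L f c := by
      rw [hl]
      unfold lW
      rw [hint]
      ring
    rw [e1]
    refine lsq (hlin.trans hD) hg0le hQB ?_ ?_ hQf
    · calc QF G L c ≤ 4 * R * (Cb + 3) * (1 + α) := hQc
        _ = _ := by ring
    · have h3 : 1 * 1 ≤ R * (Cb + 3) := mul_le_mul hR1 (by linarith) (by norm_num) (by linarith)
      have h4 : 1 * 1 ≤ (R * (Cb + 3)) * (1 + α) :=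
        mul_le_mul (by linarith) (by linarith) (by norm_num) (by linarith)
      calc (1 : ℝ) ≤ 8 * (R * (Cb + 3) * (1 + α)) := by linarith
        _ = _ := by ring
  · have hm := wcs_mode hG hT n hρc' hρ' hM' hδ f0 hf hfe hF g0 hcs hce hgser' x
    have e1 : ∀ t : Fin n → ℝ, ENNReal.ofReal (Real.exp (x * nuF ρ t u)) =
        ENNReal.ofReal (Real.exp (x * ∑ i, u (t i))) * ENNReal.ofReal (Real.exp (-(x * ∫ t, u t * ρ t))) := by
      intro t
      rw [← ENNReal.ofReal_mul (Real.exp_pos _).le, ← Real.exp_add]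
      congr 2
      unfold nuF
      ring
    simp_rw [e1, ← mul_assoc]
    rw [lintegral_mul_const' _ _ ENNReal.ofReal_ne_top]
    refine (mul_le_mul_left hm _).trans (le_of_eq ?_)
    rw [mul_assoc, ← ENNReal.ofReal_mul (Real.exp_pos _).le, ← Real.exp_add]
    congr 3
    rw [hl]
    ring

end

end NUDi
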