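import Pool.Agent.NUKer.Jensen
import Pool.Agent.Szego62.MixQ

/-!
# From exponential moments to moments (doc proof/NU_ABS_4, [4.5], [4.6])

`W` is a weight on a space of configurations, `nu` the centred linear statistics.

* `sq_of_exp`: `∫ W e^{x ν} ≤ B e^{l x + q x²/2}` for all `x` gives `∫ W e^{c ν²/(1+|a|)} ≤ √2 e^{..} B`;
* `moment`: `∫ W e^G ≤ e^A ∫ W` gives `∫ W G ≤ A ∫ W`;
* `MB`: second moments of the Fourier modes; `MB.kc`: `∫ W |<ν, κ ν'>| ≤ 2 m Λ ∫ W` for kernels of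
  the class `KC`; `MB.lin`: the same for linear statistics.
-/

set_option autoImplicit false

open Complex Finset Filter MeasureTheory
open scoped Topology ENNReal

namespace NUDi

open NUKer

variable {Ω : Type*} [MeasurableSpace Ω] {μ : Measure Ω} {W : Ω → ℝ≥0∞}

/-- exponential moments of `ν` (Gaussian bound) give the exponential of a small square -/
theorem sq_of_exp [SFinite μ] (hW : Measurable W) {N : Ω → ℝ} (hN : Measurable N) {B : ℝ≥0∞}
    {q0 M α c l q : ℝ} (hα : 0 < α) (hc : 0 ≤ c) (hq0 : 0 ≤ q0) (hM : 0 ≤ M) (hcq : 4 * c * q0 ≤ 1)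
    (hq : q ≤ q0 * α) (hl : l ^ 2 ≤ M * (q0 * α))
    (h : ∀ x : ℝ, ∫⁻ ω, W ω * ENNReal.ofReal (Real.exp (x * N ω)) ∂μ ≤
      B * ENNReal.ofReal (Real.exp (l * x + q * x ^ 2 / 2))) :
    ∫⁻ ω, W ω * ENNReal.ofReal (Real.exp (c / α * N ω ^ 2)) ∂μ ≤
      B * ENNReal.ofReal (Real.sqrt 2 * Real.exp (2 * c * q0 * M)) := by
  obtain ⟨β, hβ⟩ : ∃ β, β = Real.sqrt (2 * c / α) := ⟨_, rfl⟩
  have hβ2 : β ^ 2 = 2 * c / α := by rw [hβ, Real.sq_sqrt (by positivity)]
  have hκ : q * β ^ 2 ≤ 1 / 2 := by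
    rw [hβ2]
    have h1 : q * (2 * c / α) ≤ q0 * α * (2 * c / α) := by gcongr
    have h2 : q0 * α * (2 * c / α) = 2 * c * q0 := by field_simp
    linarith
  have h1 := Pool.Agent.Szego62.mix_one hW (hN.const_mul β) (B := B) (κ := q * β ^ 2) (l := l * β)
    (by linarith) (fun s => by
      refine le_trans (le_of_eq ?_) ((h (s * β)).trans (le_of_eq ?_))
      · refine lintegral_congr fun ω => ?_
        ring_nf
      · ring_nf)
  refine le_trans (le_of_eq ?_) (h1.trans ?_)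
  · refine lintegral_congr fun ω => ?_
    have : c / α * N ω ^ 2 = (β * N ω) ^ 2 / 2 := by
      rw [mul_pow, hβ2]
      field_simp
    rw [this]
  · gcongr
    · rw [← Real.sqrt_inv]
      refine Real.sqrt_le_sqrt ?_
      rw [inv_le_comm₀ (by linarith) (by norm_num)]
      linarith
    · rw [div_div, div_le_iff₀ (by linarith)]
      have h3 : (l * β) ^ 2 ≤ M * (q0 * α) * (2 * c / α) := by
        rw [mul_pow, hβ2]
        gcongr
      have h4 : M * (q0 * α) * (2 * c / α) = 2 * c * q0 * M := by field_simp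
      have h5 : 0 ≤ 2 * c * q0 * M := by positivity
      nlinarith

/-- `∫ W G ≤ A ∫ W` from `∫ W e^G ≤ e^A ∫ W` -/
theorem moment (hW : Measurable W) {G : Ω → ℝ} (hG : Measurable G) (hG0 : ∀ ω, 0 ≤ G ω)
    {A : ℝ} (hA : 0 ≤ A) (hf : ∫⁻ ω, W ω ∂μ ≠ ∞)
    (h : ∫⁻ ω, W ω * ENNReal.ofReal (Real.exp (G ω)) ∂μ ≤
      ENNReal.ofReal (Real.exp A) * ∫⁻ ω, W ω ∂μ) :
    ∫⁻ ω, W ω * ENNReal.ofReal (G ω) ∂μ ≤ ENNReal.ofReal A * ∫⁻ ω, W ω ∂μ := by
  -- `G + 1 ≤ A + e^{G - A}`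
  have h1 : ∀ ω, W ω * ENNReal.ofReal (G ω) + W ω ≤
      ENNReal.ofReal A * W ω +
        ENNReal.ofReal (Real.exp (-A)) * (W ω * ENNReal.ofReal (Real.exp (G ω))) := by
    intro ω
    have h2 : G ω + 1 ≤ A + Real.exp (-A) * Real.exp (G ω) := by
      rw [← Real.exp_add]
      have := Real.add_one_le_exp (-A + G ω)
      linarith
    have h3 := ENNReal.ofReal_le_ofReal h2
    rw [ENNReal.ofReal_add (hG0 ω) zero_le_one, ENNReal.ofReal_add hA (by positivity),
      ENNReal.ofReal_one, ENNReal.ofReal_mul (Real.exp_pos _).le] at h3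
    calc W ω * ENNReal.ofReal (G ω) + W ω = W ω * (ENNReal.ofReal (G ω) + 1) := by ring
      _ ≤ W ω * (ENNReal.ofReal A +
          ENNReal.ofReal (Real.exp (-A)) * ENNReal.ofReal (Real.exp (G ω))) := by gcongr
      _ = _ := by ring
  have h2 := lintegral_mono (μ := μ) h1
  rw [lintegral_add_right _ hW, lintegral_add_left (by fun_prop), lintegral_const_mul _ hW,
    lintegral_const_mul _ (by fun_prop)] at h2
  have h3 : ENNReal.ofReal (Real.exp (-A)) *
      ∫⁻ ω, W ω * ENNReal.ofReal (Real.exp (G ω)) ∂μ ≤ ∫⁻ ω, W ω ∂μ := by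
    calc _ ≤ ENNReal.ofReal (Real.exp (-A)) * (ENNReal.ofReal (Real.exp A) * ∫⁻ ω, W ω ∂μ) := by
          gcongr
      _ = _ := by
        rw [← mul_assoc, ← ENNReal.ofReal_mul (Real.exp_pos _).le, ← Real.exp_add]
        simp
  have h4 := h2.trans (add_le_add_right h3 _)
  exact (ENNReal.add_le_add_iff_right hf).1 h4

/-- Cauchy-Schwarz in the form `e^{a + b} ≤ (e^{2a} + e^{2b})/2` -/
theorem two_exp (hW : Measurable W) {G H : Ω → ℝ} (hG : Measurable G) (hH : Measurable H)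
    {B : ℝ≥0∞}
    (h1 : ∫⁻ ω, W ω * ENNReal.ofReal (Real.exp (2 * G ω)) ∂μ ≤ B)
    (h2 : ∫⁻ ω, W ω * ENNReal.ofReal (Real.exp (2 * H ω)) ∂μ ≤ B) :
    ∫⁻ ω, W ω * ENNReal.ofReal (Real.exp (G ω + H ω)) ∂μ ≤ B := by
  have h0 : ∀ ω, W ω * ENNReal.ofReal (Real.exp (G ω + H ω)) ≤
      ENNReal.ofReal (1 / 2) * (W ω * ENNReal.ofReal (Real.exp (2 * G ω))) +
        ENNReal.ofReal (1 / 2) * (W ω * ENNReal.ofReal (Real.exp (2 * H ω))) := by
    intro ω
    have h3 : Real.exp (G ω + H ω) ≤ 1 / 2 * Real.exp (2 * G ω) + 1 / 2 * Real.exp (2 * H ω) := by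
      have e1 : Real.exp (2 * G ω) = Real.exp (G ω) ^ 2 := by rw [← Real.exp_nat_mul]; norm_num
      have e2 : Real.exp (2 * H ω) = Real.exp (H ω) ^ 2 := by rw [← Real.exp_nat_mul]; norm_num
      rw [e1, e2, Real.exp_add]
      nlinarith [sq_nonneg (Real.exp (G ω) - Real.exp (H ω))]
    have h4 := ENNReal.ofReal_le_ofReal h3
    rw [ENNReal.ofReal_add (by positivity) (by positivity), ENNReal.ofReal_mul (by norm_num),
      ENNReal.ofReal_mul (by norm_num)] at h4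
    calc W ω * ENNReal.ofReal (Real.exp (G ω + H ω)) ≤
        W ω * (ENNReal.ofReal (1 / 2) * ENNReal.ofReal (Real.exp (2 * G ω)) +
          ENNReal.ofReal (1 / 2) * ENNReal.ofReal (Real.exp (2 * H ω))) := by gcongr
      _ = _ := by ring
  refine (lintegral_mono h0).trans ?_
  rw [lintegral_add_left (by fun_prop), lintegral_const_mul _ (by fun_prop),
    lintegral_const_mul _ (by fun_prop)]
  calc ENNReal.ofReal (1 / 2) * ∫⁻ ω, W ω * ENNReal.ofReal (Real.exp (2 * G ω)) ∂μ +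
        ENNReal.ofReal (1 / 2) * ∫⁻ ω, W ω * ENNReal.ofReal (Real.exp (2 * H ω)) ∂μ ≤
      ENNReal.ofReal (1 / 2) * B + ENNReal.ofReal (1 / 2) * B := by gcongr
    _ = (ENNReal.ofReal (1 / 2) + ENNReal.ofReal (1 / 2)) * B := by ring
    _ = B := by
      rw [← ENNReal.ofReal_add (by norm_num) (by norm_num)]
      norm_num

end NUDi
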