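import Pool.Agent.NUDi.Sq

/-!
# The dichotomy with the numbers of TARGET-A

`dicho_rig`: window `R ≤ 2 (log m)²`, exponential squares with `c = 1/(8 C₁ (R+1))`, `K = 1 + M`,
`M ≤ C₂ (log m)⁶`, crude bound `B = A m^a e^{C₃}`: either the total weight is at most `A m^{a - 1/2}` or
the expectations satisfy `RigB` with `S = C₄ (log m)⁸`.
-/

set_option autoImplicit false

open MeasureTheory Set Filter Topology
open scoped Real ENNReal

namespace NUDi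

open NUKer NUR2

theorem RigB.mono {p n : ℕ} {μ : Measure (Cfg p n)} {R : ℝ} {ρ : ℝ → ℝ} {S S' : ℝ}
    (h : RigB μ R ρ S) (hS : S ≤ S') : RigB μ R ρ S' := by
  have go : ∀ (I Λ : ℝ), 0 ≤ Λ → |I| ≤ S * Λ * μ.real Set.univ → |I| ≤ S' * Λ * μ.real Set.univ := by
    intro I Λ hΛ h1
    have h0 : 0 ≤ μ.real Set.univ := measureReal_nonneg
    exact h1.trans (by gcongr)
  exact ⟨fun f Λ hK => go _ _ hK.nonneg (h.linX f Λ hK), fun f Λ hK => go _ _ hK.nonneg (h.linY f Λ hK),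
    fun f Λ hK => go _ _ hK.nonneg (h.XX f Λ hK), fun f Λ hK => go _ _ hK.nonneg (h.YY f Λ hK),
    fun f Λ hK => go _ _ hK.nonneg (h.XY f Λ hK)⟩

theorem one_le_log {m : ℕ} (hm : 3 ≤ m) : 1 ≤ Real.log m := by
  have h3 : (3 : ℝ) ≤ m := by exact_mod_cast hm
  rw [Real.le_log_iff_exp_le (by linarith)]
  have := Real.exp_one_lt_d9
  linarith

/-- **the dichotomy with the numbers** -/
theorem dicho_rig {C₁ C₂ C₃ : ℝ} (h1 : 0 < C₁) (h2 : 0 ≤ C₂) (h3 : 0 ≤ C₃) : ∃ C₄ : ℝ, 1 ≤ C₄ ∧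
    ∀ m : ℕ, 3 ≤ m → ∀ R : ℝ, 0 ≤ R → R ≤ 2 * Real.log m ^ 2 → ∀ {p n : ℕ} {g : Cfg p n → ℝ≥0∞},
      Measurable g → ∀ {ρ : ℝ → ℝ}, Continuous ρ → ∀ A a M : ℝ, 0 ≤ A → 0 ≤ M →
      M ≤ C₂ * Real.log m ^ 6 →
      SqW g R ρ (ENNReal.ofReal (A * (m : ℝ) ^ a * Real.exp C₃)) (1 / (8 * (C₁ * (R + 1)))) (1 + M) →
      mWin R g Set.univ ≤ ENNReal.ofReal (A * (m : ℝ) ^ (a - 1 / 2)) ∨
        (IsFiniteMeasure (mWin R g) ∧ RigB (mWin R g) R ρ (C₄ * Real.log m ^ 8)) := by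
  refine ⟨1 + 48 * C₁ * (C₂ + C₃ + 2), by nlinarith [mul_nonneg h1.le (by linarith : 0 ≤ C₂ + C₃ + 2)],
    ?_⟩
  intro m hm R hR hR2 p n g hg ρ hρ A a M hA hM hM2 hsq
  have hL := one_le_log hm
  obtain ⟨L, hLe⟩ : ∃ L, L = Real.log m := ⟨_, rfl⟩
  rw [← hLe] at hL hR2 hM2 ⊢
  have hm0 : (0 : ℝ) < m := by
    have : 0 < m := by omega
    exact_mod_cast this
  rcases le_or_gt (mWin R g Set.univ) (ENNReal.ofReal (A * (m : ℝ) ^ (a - 1 / 2))) with h | h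
  · exact Or.inl h
  · right
    have hlow : ENNReal.ofReal (A * (m : ℝ) ^ a * Real.exp C₃) *
        ENNReal.ofReal (Real.exp (-(L / 2 + C₃))) ≤ mWin R g Set.univ := by
      refine le_trans (le_of_eq ?_) h.le
      rw [← ENNReal.ofReal_mul (by positivity)]
      congr 1
      have e1 : (m : ℝ) ^ (a - 1 / 2) = (m : ℝ) ^ a * Real.exp (-(L / 2)) := by
        rw [Real.rpow_sub hm0, hLe, Real.exp_neg, div_eq_mul_inv]
        congr 2
        rw [Real.rpow_def_of_pos hm0]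
        congr 1
        ring
      rw [e1, mul_assoc, mul_assoc]
      congr 2
      rw [← Real.exp_add]
      congr 1
      ring
    have hc0 : 0 < 1 / (8 * (C₁ * (R + 1))) := by positivity
    obtain ⟨f1, f2⟩ := rig_of_sq hR hρ hg hc0 ENNReal.ofReal_ne_top hsq (A := L / 2 + C₃)
      (by positivity) hlow
    refine ⟨f1, f2.mono ?_⟩
    have e2 : 2 * ((L / 2 + C₃ + (1 + M)) / (1 / (8 * (C₁ * (R + 1))))) + 1 =
        16 * C₁ * (R + 1) * (L / 2 + C₃ + 1 + M) + 1 := by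
      field_simp
      ring
    rw [e2]
    have hL2 : 1 ≤ L ^ 2 := one_le_pow₀ hL
    have hL6 : 1 ≤ L ^ 6 := one_le_pow₀ hL
    have hL8 : 1 ≤ L ^ 8 := one_le_pow₀ hL
    have h4 : R + 1 ≤ 3 * L ^ 2 := by linarith
    have h5 : L ≤ L ^ 6 := by
      calc L = L ^ 1 := (pow_one L).symm
        _ ≤ L ^ 6 := pow_le_pow_right₀ hL (by norm_num)
    have h6 : L / 2 + C₃ + 1 + M ≤ (C₂ + C₃ + 2) * L ^ 6 := by nlinarith
    have h7 : 0 ≤ L / 2 + C₃ + 1 + M := by positivity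
    calc 16 * C₁ * (R + 1) * (L / 2 + C₃ + 1 + M) + 1 ≤
        16 * C₁ * (3 * L ^ 2) * ((C₂ + C₃ + 2) * L ^ 6) + 1 * L ^ 8 := by
          gcongr
          linarith
      _ = (1 + 48 * C₁ * (C₂ + C₃ + 2)) * L ^ 8 := by ring

end NUDi
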