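import Pool.Agent.NUDi.ModeW
import Pool.Agent.NUDi.F2

/-!
# `OneF` for the window gas

`oneF_win`: the one component gas on the window `[-T, T]`, potential `V * ρ' + F`, satisfies `OneF`
with `B` the bound of `NUWC.wcs`, `q0 = 8 R (Cb + 3)`, `M = 3 D² + 12 (n - mass)² + 6 QF`.
-/

set_option autoImplicit false

open MeasureTheory Set Filter Topology
open Pool.Agent.Szego62 (Aser)
open scoped Real ENNReal

namespace NUDi

open NUWC NUC62 NUKer

noncomputable section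

/-- weight of the one component gas on the window -/
def WW (T : ℝ) (n : ℕ) (ρ F : ℝ → ℝ) (t : Fin n → ℝ) : ℝ≥0∞ :=
  (Set.univ.pi fun _ : Fin n => Icc (-T) T).indicator
    (fun t => ENNReal.ofReal ((∏ i, ∏ j ∈ Finset.Ioi i, om (t i - t j)) *
      ∏ i, Real.exp ((∫ s, ρ s * NUMF.V (t i - s)) + F (t i)))) t

/-- the bound of `NUWC.wcs` -/
def BW (G T δ : ℝ) (n : ℕ) (ρ : ℝ → ℝ) (f0 : ℝ) (f : ℕ → ℂ) : ℝ≥0∞ :=
  ENNReal.ofReal ((n.factorial : ℝ) * (2 * π / √NUC62.cω) ^ n *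
        Real.exp (EW G (2 * T + 2 * G) δ n ρ f0 f 0))

theorem BW_ne_top (G T δ : ℝ) (n : ℕ) (ρ : ℝ → ℝ) (f0 : ℝ) (f : ℕ → ℂ) : BW G T δ n ρ f0 f ≠ ∞ :=
  ENNReal.ofReal_ne_top

theorem lint_WW (T : ℝ) (n : ℕ) (ρ F : ℝ → ℝ) (g : (Fin n → ℝ) → ℝ≥0∞) :
    ∫⁻ t, WW T n ρ F t * g t = ∫⁻ t : Fin n → ℝ in Set.univ.pi fun _ => Icc (-T) T,
      ENNReal.ofReal ((∏ i, ∏ j ∈ Finset.Ioi i, om (t i - t j)) *
        ∏ i, Real.exp ((∫ s, ρ s * NUMF.V (t i - s)) + F (t i))) * g t := by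
  have hm : MeasurableSet (Set.univ.pi fun _ : Fin n => Icc (-T) T) :=
    MeasurableSet.univ_pi fun _ => measurableSet_Icc
  rw [← lintegral_indicator hm]
  refine lintegral_congr fun t => ?_
  unfold WW
  by_cases h : t ∈ Set.univ.pi fun _ : Fin n => Icc (-T) T
  · rw [indicator_of_mem h, indicator_of_mem h]
  · rw [indicator_of_notMem h, indicator_of_notMem h, zero_mul]

theorem WW_zero {T : ℝ} {n : ℕ} {ρ F : ℝ → ℝ} {t : Fin n → ℝ} (h : WW T n ρ F t ≠ 0) (i : Fin n) :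
    |t i| ≤ T := by
  by_contra hcon
  refine h (indicator_of_notMem ?_ _)
  intro hm
  exact hcon (abs_le.2 (hm i (mem_univ i)))

variable {R Cb : ℝ} {b b1 : ℝ → ℝ}

theorem Bdat.cutf (hb : Bdat R b b1 Cb) : Cutf R b :=
  ⟨by linarith [hb.R1], continuous_iff_continuousAt.2 fun x => (hb.deriv x).continuousAt, hb.le, hb.zero⟩

/-- **`OneF`** of the window gas -/
theorem oneF_win (hb : Bdat R b b1 Cb) {G T δ M' : ℝ} (hG : 9 ≤ G) (hT : 0 < T) (n : ℕ)
    {ρ' : ℝ → ℝ} (hρc' : Continuous ρ') (hρ' : Integrable ρ') (hM' : ∀ s, |ρ' s| ≤ M')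
    (hδ : ∀ s, T ≤ |s| → |ρ' s| ≤ δ * Real.exp (-(|s| - T))) (f0 : ℝ) {f : ℕ → ℂ}
    (hf : Summable fun k => ‖f k‖) (hfe : QS G (2 * T + 2 * G) f)
    {F : ℝ → ℝ} (hF : ∀ x, |x| ≤ T → F x ≤ f0 + Aser f (2 * π * x / (2 * T + 2 * G)))
    {ρ : ℝ → ℝ} (hρc : Continuous ρ) (hρ : Integrable ρ) {D : ℝ}
    (hD : 2 * (∫ t, |ρ' t - ρ t|) + 3 * (∫ t in {t | T < |t|}, |ρ t|) ≤ D) :
    OneF b ρ (WW T n ρ' F) (BW G T δ n ρ' f0 f) (8 * R * (Cb + 3))
      (3 * D ^ 2 + 12 * ((n : ℝ) - mW (2 * T + 2 * G) ρ') ^ 2 + 6 * NUWC.QF G (2 * T + 2 * G) f) := by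
  constructor
  · intro a
    obtain ⟨l, q, h1, h2, h3⟩ := mode_bound hb hG hT n hρc' hρ' hM' hδ f0 hf hfe hF hρc hρ hD
      (h := fun t => Real.cos (a * t)) (h1 := fun t => -Real.sin (a * t) * a) (α := |a|)
      (fun x => by
        have := (Real.hasDerivAt_cos (a * x)).comp x ((hasDerivAt_id x).const_mul a)
        rw [mul_one] at this
        exact this) (by fun_prop) (fun x => Real.abs_cos_le_one _) (fun x => by
        rw [abs_mul, abs_neg]
        exact mul_le_of_le_one_left (abs_nonneg _) (Real.abs_sin_le_one _))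
    refine ⟨l, q, h1, h2, fun x => ?_⟩
    rw [lint_WW]
    exact h3 x
  · intro a
    obtain ⟨l, q, h1, h2, h3⟩ := mode_bound hb hG hT n hρc' hρ' hM' hδ f0 hf hfe hF hρc hρ hD
      (h := fun t => Real.sin (a * t)) (h1 := fun t => Real.cos (a * t) * a) (α := |a|)
      (fun x => by
        have := (Real.hasDerivAt_sin (a * x)).comp x ((hasDerivAt_id x).const_mul a)
        rw [mul_one] at this
        exact this) (by fun_prop) (fun x => Real.abs_sin_le_one _) (fun x => by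
        rw [abs_mul]
        exact mul_le_of_le_one_left (abs_nonneg _) (Real.abs_cos_le_one _))
    refine ⟨l, q, h1, h2, fun x => ?_⟩
    rw [lint_WW]
    exact h3 x

theorem WW_mass {G T δ M' : ℝ} (hG : 9 ≤ G) (hT : 0 < T) (n : ℕ)
    {ρ' : ℝ → ℝ} (hρc' : Continuous ρ') (hρ' : Integrable ρ') (hM' : ∀ s, |ρ' s| ≤ M')
    (hδ : ∀ s, T ≤ |s| → |ρ' s| ≤ δ * Real.exp (-(|s| - T))) (f0 : ℝ) {f : ℕ → ℂ}
    (hf : Summable fun k => ‖f k‖) (hfe : QS G (2 * T + 2 * G) f)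
    {F : ℝ → ℝ} (hF : ∀ x, |x| ≤ T → F x ≤ f0 + Aser f (2 * π * x / (2 * T + 2 * G))) :
    ∫⁻ t, WW T n ρ' F t ≤ BW G T δ n ρ' f0 f := by
  have h := wcs hG hT n hρc' hρ' hM' hδ f0 hf hfe hF
  have e : ∫⁻ t, WW T n ρ' F t = ∫⁻ t, WW T n ρ' F t * 1 := by simp
  rw [e, lint_WW]
  simp only [mul_one]
  exact h

theorem Vconv_cont_of {ρ : ℝ → ℝ} (h : Continuous fun x => ∫ s, ρ s * NUMF.V (x - s)) {F : ℝ → ℝ}
    (hF : Continuous F) (T : ℝ) (n : ℕ) : Measurable (WW T n ρ F) := by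
  unfold WW
  refine Measurable.indicator ?_ (MeasurableSet.univ_pi fun _ => measurableSet_Icc)
  refine ENNReal.measurable_ofReal.comp ?_
  refine Measurable.mul ?_ ?_
  · refine Finset.measurable_fun_prod _ fun i _ => Finset.measurable_fun_prod _ fun j _ => ?_
    exact om_meas.comp ((measurable_pi_apply i).sub (measurable_pi_apply j))
  · refine Finset.measurable_fun_prod _ fun i _ => ?_
    exact ((Real.continuous_exp.comp (h.add hF)).measurable).comp (measurable_pi_apply i)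

end

end NUDi
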