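import Pool.Agent.NUDi.FtoB

/-!
# The dichotomy from exponential squares (sums over shells allowed)

* `SqW g R ρ B c K`: on the window, `∫ g e^{c ν_R(cos a·)²/(1+|a|)} ≤ B e^K` for both species and
  all modes;
* `SqW.mono`, `SqW.smul`, `SqW.tsum`, `SqW.mass`; `SqW.of_one`: from the one component bounds and
  small kernels, `c = 1/(8 q0)`, `K = 1 + M`;
* `rig_of_sq`: `SqW` and a lower bound of the total weight give the expectations `RigB`.
* `oneB_win'`: `oneB_win` for every window `T ≤ R`.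
-/

set_option autoImplicit false

open MeasureTheory Set Filter Topology
open Pool.Agent.Szego62 (Aser)
open scoped Real ENNReal

namespace NUDi

open NUWC NUC62 NUKer NUR2

variable {p n : ℕ} {R c K : ℝ} {ρ : ℝ → ℝ} {g : Cfg p n → ℝ≥0∞} {B : ℝ≥0∞}

/-- exponential squares of all the modes of both species, on the window -/
structure SqW (g : Cfg p n → ℝ≥0∞) (R : ℝ) (ρ : ℝ → ℝ) (B : ℝ≥0∞) (c K : ℝ) : Prop where
  cosX : ∀ a : ℝ, ∫⁻ x in Bx R, g x * ENNReal.ofReal (Real.exp (c / (1 + |a|) *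
    (nu R ρ x.1 fun t => Real.cos (a * t)) ^ 2)) ≤ B * ENNReal.ofReal (Real.exp K)
  sinX : ∀ a : ℝ, ∫⁻ x in Bx R, g x * ENNReal.ofReal (Real.exp (c / (1 + |a|) *
    (nu R ρ x.1 fun t => Real.sin (a * t)) ^ 2)) ≤ B * ENNReal.ofReal (Real.exp K)
  cosY : ∀ a : ℝ, ∫⁻ x in Bx R, g x * ENNReal.ofReal (Real.exp (c / (1 + |a|) *
    (nu R ρ x.2 fun t => Real.cos (a * t)) ^ 2)) ≤ B * ENNReal.ofReal (Real.exp K)
  sinY : ∀ a : ℝ, ∫⁻ x in Bx R, g x * ENNReal.ofReal (Real.exp (c / (1 + |a|) *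
    (nu R ρ x.2 fun t => Real.sin (a * t)) ^ 2)) ≤ B * ENNReal.ofReal (Real.exp K)

theorem SqW.mass (hc : 0 ≤ c) (h : SqW g R ρ B c K) :
    ∫⁻ x in Bx R, g x ≤ B * ENNReal.ofReal (Real.exp K) := by
  refine le_trans (lintegral_mono fun x => ?_) (h.cosX 0)
  calc g x = g x * ENNReal.ofReal 1 := by simp
    _ ≤ _ := by
      gcongr
      exact Real.one_le_exp (by positivity)

/-- majorant -/
theorem SqW.mono {g' : Cfg p n → ℝ≥0∞} {B' : ℝ≥0∞} (h : SqW g R ρ B c K)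
    (hg : ∀ x ∈ Bx (p := p) (n := n) R, g' x ≤ g x) (hB : B ≤ B') : SqW g' R ρ B' c K := by
  have go : ∀ F : Cfg p n → ℝ≥0∞, ∫⁻ x in Bx R, g x * F x ≤ B * ENNReal.ofReal (Real.exp K) →
      ∫⁻ x in Bx R, g' x * F x ≤ B' * ENNReal.ofReal (Real.exp K) := by
    intro F hF
    refine le_trans (setLIntegral_mono' (measurableSet_Bx R) fun x hx => ?_) (hF.trans (by gcongr))
    have := hg x hx
    gcongr
  exact ⟨fun a => go _ (h.cosX a), fun a => go _ (h.sinX a), fun a => go _ (h.cosY a),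
    fun a => go _ (h.sinY a)⟩

theorem SqW.smul (h : SqW g R ρ B c K) {w : ℝ≥0∞} (hw : w ≠ ∞) :
    SqW (fun x => w * g x) R ρ (w * B) c K := by
  have go : ∀ F : Cfg p n → ℝ≥0∞, ∫⁻ x in Bx R, g x * F x ≤ B * ENNReal.ofReal (Real.exp K) →
      ∫⁻ x in Bx R, w * g x * F x ≤ w * B * ENNReal.ofReal (Real.exp K) := by
    intro F hF
    simp_rw [mul_assoc]
    rw [lintegral_const_mul' _ _ hw]
    gcongr
  exact ⟨fun a => go _ (h.cosX a), fun a => go _ (h.sinX a), fun a => go _ (h.cosY a),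
    fun a => go _ (h.sinY a)⟩

theorem meas_modeX (f : ℝ → ℝ) (hf : Continuous f) :
    Measurable fun x : Cfg p n => nu R ρ x.1 f :=
  measurable_nu (n := p) (s := fun x : Cfg p n => x.1) measurable_fst hf

theorem meas_modeY (f : ℝ → ℝ) (hf : Continuous f) :
    Measurable fun x : Cfg p n => nu R ρ x.2 f :=
  measurable_nu (n := n) (s := fun x : Cfg p n => x.2) measurable_snd hf

/-- sum over the shells -/
theorem SqW.tsum {gj : ℕ → Cfg p n → ℝ≥0∞} {Bj : ℕ → ℝ≥0∞} (hm : ∀ j, Measurable (gj j))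
    (h : ∀ j, SqW (gj j) R ρ (Bj j) c K) :
    SqW (fun x => ∑' j, gj j x) R ρ (∑' j, Bj j) c K := by
  have go : ∀ F : Cfg p n → ℝ≥0∞, Measurable F →
      (∀ j, ∫⁻ x in Bx R, gj j x * F x ≤ Bj j * ENNReal.ofReal (Real.exp K)) →
      ∫⁻ x in Bx R, (∑' j, gj j x) * F x ≤ (∑' j, Bj j) * ENNReal.ofReal (Real.exp K) := by
    intro F hF hj
    have hm' : ∀ j, Measurable fun x => gj j x * F x := fun j => (hm j).mul hF
    simp_rw [← ENNReal.tsum_mul_right]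
    rw [lintegral_tsum fun j => (hm' j).aemeasurable]
    exact ENNReal.tsum_le_tsum hj
  have mX : ∀ (a : ℝ) (f : ℝ → ℝ), Continuous f → Measurable fun x : Cfg p n =>
      ENNReal.ofReal (Real.exp (c / (1 + |a|) * (nu R ρ x.1 f) ^ 2)) := by
    intro a f hf
    have := meas_modeX (p := p) (n := n) (R := R) (ρ := ρ) f hf
    fun_prop
  have mY : ∀ (a : ℝ) (f : ℝ → ℝ), Continuous f → Measurable fun x : Cfg p n =>
      ENNReal.ofReal (Real.exp (c / (1 + |a|) * (nu R ρ x.2 f) ^ 2)) := by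
    intro a f hf
    have := meas_modeY (p := p) (n := n) (R := R) (ρ := ρ) f hf
    fun_prop
  exact ⟨fun a => go _ (mX a _ (by fun_prop)) fun j => (h j).cosX a,
    fun a => go _ (mX a _ (by fun_prop)) fun j => (h j).sinX a,
    fun a => go _ (mY a _ (by fun_prop)) fun j => (h j).cosY a,
    fun a => go _ (mY a _ (by fun_prop)) fun j => (h j).sinY a⟩

/-- finitely many shells -/
theorem SqW.sum {J : ℕ} {gj : ℕ → Cfg p n → ℝ≥0∞} {Bj : ℕ → ℝ≥0∞} (hm : ∀ j, Measurable (gj j))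
    (h : ∀ j < J, SqW (gj j) R ρ (Bj j) c K) :
    SqW (fun x => ∑ j ∈ Finset.range J, gj j x) R ρ (∑ j ∈ Finset.range J, Bj j) c K := by
  have go : ∀ F : Cfg p n → ℝ≥0∞, Measurable F →
      (∀ j < J, ∫⁻ x in Bx R, gj j x * F x ≤ Bj j * ENNReal.ofReal (Real.exp K)) →
      ∫⁻ x in Bx R, (∑ j ∈ Finset.range J, gj j x) * F x ≤
        (∑ j ∈ Finset.range J, Bj j) * ENNReal.ofReal (Real.exp K) := by
    intro F hF hj
    have hm' : ∀ j, Measurable fun x => gj j x * F x := fun j => (hm j).mul hF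
    simp_rw [Finset.sum_mul]
    rw [lintegral_finsetSum _ fun j _ => hm' j]
    exact Finset.sum_le_sum fun j hj' => hj j (Finset.mem_range.1 hj')
  have mX : ∀ (a : ℝ) (f : ℝ → ℝ), Continuous f → Measurable fun x : Cfg p n =>
      ENNReal.ofReal (Real.exp (c / (1 + |a|) * (nu R ρ x.1 f) ^ 2)) := by
    intro a f hf
    have := meas_modeX (p := p) (n := n) (R := R) (ρ := ρ) f hf
    fun_prop
  have mY : ∀ (a : ℝ) (f : ℝ → ℝ), Continuous f → Measurable fun x : Cfg p n =>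
      ENNReal.ofReal (Real.exp (c / (1 + |a|) * (nu R ρ x.2 f) ^ 2)) := by
    intro a f hf
    have := meas_modeY (p := p) (n := n) (R := R) (ρ := ρ) f hf
    fun_prop
  exact ⟨fun a => go _ (mX a _ (by fun_prop)) fun j hj => (h j hj).cosX a,
    fun a => go _ (mX a _ (by fun_prop)) fun j hj => (h j hj).sinX a,
    fun a => go _ (mY a _ (by fun_prop)) fun j hj => (h j hj).cosY a,
    fun a => go _ (mY a _ (by fun_prop)) fun j hj => (h j hj).sinY a⟩

/-- two species, clamped kernels, one more square -/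
theorem crudeSq_two (hR : 0 ≤ R) (hρ : Continuous ρ) {WX : (Fin p → ℝ) → ℝ≥0∞}
    {WY : (Fin n → ℝ) → ℝ≥0∞} (hX : Measurable WX) (hY : Measurable WY) {BX BY : ℝ≥0∞}
    {κ : Bool → Bool → ℝ → ℝ → ℝ} {Λ : Bool → Bool → ℝ} {Λ0 q0 M : ℝ}
    (hK : ∀ k k', KC R (Λ k k') (fun t t' => (κ k k' t t' : ℂ))) (hΛ0 : 0 < Λ0)
    (hΛ : ∑ k, ∑ k', Λ k k' ≤ Λ0) (hq0 : 0 ≤ q0) (hM : 0 ≤ M) {c : ℝ} (hc : 2 * Λ0 ≤ c)
    (hcq : 8 * c * q0 ≤ 1)
    (hWX : OneB R ρ WX BX q0 M) (hWY : OneB R ρ WY BY q0 M) (k : Bool) (a : ℝ) :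
    ∫⁻ x : Cfg p n, WX x.1 * WY x.2 * ENNReal.ofReal (Real.exp (QF R (fun _ : Bool => ρ) κ
        (sp R p n) x + c / (1 + |a|) * (nu R ρ (sp R p n k x) fun t => Real.cos (a * t)) ^ 2)) ≤
        BX * BY * ENNReal.ofReal (Real.sqrt 2 * Real.exp (4 * c * q0 * M)) ∧
    ∫⁻ x : Cfg p n, WX x.1 * WY x.2 * ENNReal.ofReal (Real.exp (QF R (fun _ : Bool => ρ) κ
        (sp R p n) x + c / (1 + |a|) * (nu R ρ (sp R p n k x) fun t => Real.sin (a * t)) ^ 2)) ≤
        BX * BY * ENNReal.ofReal (Real.sqrt 2 * Real.exp (4 * c * q0 * M)) := by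
  have h := crude_sq (μ := (volume : Measure (Cfg p n))) (κ := fun k k' t t' => κ k k' (cl R t) (cl R t'))
    (ρ := fun _ : Bool => ρ)
    (W := fun ω : Cfg p n => WX ω.1 * WY ω.2) (by fun_prop) (measurable_sp R) hR
    (abs_sp hR) (fun _ => hρ) (fun k k' => ((hK k k').clamp hR).1)
    (fun k k' => ((hK k k').clamp hR).2) hΛ0 hΛ hq0 hM hc hcq
    (two_exp_b (ρ := fun _ => ρ) hX hY hWX hWY) k a
  have e : ∀ x : Cfg p n, QF R (fun _ : Bool => ρ) (fun k k' t t' => κ k k' (cl R t) (cl R t'))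
      (sp R p n) x = QF R (fun _ : Bool => ρ) κ (sp R p n) x := fun x =>
    QF_clamp hR (abs_sp hR) (fun _ : Bool => ρ) κ x
  simp only [e] at h
  exact h

/-- one shell: from the one component bounds and small kernels -/
theorem SqW.of_one (hR : 0 ≤ R) (hρ : Continuous ρ) {WX : (Fin p → ℝ) → ℝ≥0∞}
    {WY : (Fin n → ℝ) → ℝ≥0∞} (hX : Measurable WX) (hY : Measurable WY) {BX BY : ℝ≥0∞}
    {κ : Bool → Bool → ℝ → ℝ → ℝ} {Λ : Bool → Bool → ℝ} {Λ0 q0 M : ℝ}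
    (hK : ∀ k k', KC R (Λ k k') (fun t t' => (κ k k' t t' : ℂ))) (hΛ0 : 0 < Λ0)
    (hΛ : ∑ k, ∑ k', Λ k k' ≤ Λ0) (hq0 : 0 < q0) (hM : 0 ≤ M) (hq : 16 * Λ0 * q0 ≤ 1)
    (hWX : OneB R ρ WX BX q0 M) (hWY : OneB R ρ WY BY q0 M)
    (hle : ∀ x ∈ Bx (p := p) (n := n) R, g x ≤ WX x.1 * WY x.2 *
      ENNReal.ofReal (Real.exp (∑ k, ∑ k', nu2 R ρ ρ (sp R p n k x) (sp R p n k' x) (κ k k')))) :
    SqW g R ρ (BX * BY) (1 / (8 * q0)) (1 + M) := by
  obtain ⟨c, hc⟩ : ∃ c : ℝ, c = 1 / (8 * q0) := ⟨_, rfl⟩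
  have hc0 : 0 < c := by rw [hc]; positivity
  have hcq : 8 * c * q0 = 1 := by rw [hc]; field_simp
  have hcΛ : 2 * Λ0 ≤ c := by
    rw [hc, le_div_iff₀ (by positivity)]
    linarith
  have hs2 : Real.sqrt 2 ≤ Real.exp (1 / 2) := by
    have h1 : Real.sqrt 2 ≤ 3 / 2 := by
      rw [Real.sqrt_le_left (by norm_num)]
      norm_num
    have h2 := Real.add_one_le_exp (1 / 2)
    linarith
  have hK2 : Real.sqrt 2 * Real.exp (4 * c * q0 * M) ≤ Real.exp (1 + M) := by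
    have e : 4 * c * q0 * M = M / 2 := by
      rw [show 4 * c * q0 * M = (8 * c * q0) * M / 2 by ring, hcq]
      ring
    rw [e]
    calc Real.sqrt 2 * Real.exp (M / 2) ≤ Real.exp (1 / 2) * Real.exp (M / 2) := by gcongr
      _ = Real.exp (1 / 2 + M / 2) := (Real.exp_add _ _).symm
      _ ≤ _ := Real.exp_le_exp.2 (by linarith)
  have hcs := crudeSq_two (p := p) (n := n) hR hρ hX hY hK hΛ0 hΛ hq0.le hM hcΛ hcq.le hWX hWY
  rw [← hc]
  have go : ∀ (k : Bool) (f : ℝ → ℝ) (N : Cfg p n → ℝ) (a : ℝ),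
      (∀ x ∈ Bx (p := p) (n := n) R, N x = nu R ρ (sp R p n k x) f) →
      ∫⁻ x : Cfg p n, WX x.1 * WY x.2 * ENNReal.ofReal (Real.exp (QF R (fun _ : Bool => ρ) κ
        (sp R p n) x + c / (1 + |a|) * (nu R ρ (sp R p n k x) f) ^ 2)) ≤
        BX * BY * ENNReal.ofReal (Real.sqrt 2 * Real.exp (4 * c * q0 * M)) →
      ∫⁻ x in Bx R, g x * ENNReal.ofReal (Real.exp (c / (1 + |a|) * N x ^ 2)) ≤
        BX * BY * ENNReal.ofReal (Real.exp (1 + M)) := by
    intro k f N a hN h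
    refine le_trans ?_ (h.trans (by gcongr))
    refine (setLIntegral_mono' (measurableSet_Bx R) fun x hx => ?_).trans
      (setLIntegral_le_lintegral _ _)
    rw [hN x hx, Real.exp_add, ENNReal.ofReal_mul (Real.exp_pos _).le, ← mul_assoc]
    exact mul_le_mul_left (hle x hx) _
  refine ⟨fun a => go true _ _ a (fun x hx => by rw [sp_true hx]; rfl) (hcs true a).1,
    fun a => go true _ _ a (fun x hx => by rw [sp_true hx]; rfl) (hcs true a).2,
    fun a => go false _ _ a (fun x hx => by rw [sp_false hx]; rfl) (hcs false a).1,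
    fun a => go false _ _ a (fun x hx => by rw [sp_false hx]; rfl) (hcs false a).2⟩


/-- **the expectations** from exponential squares and a lower bound of the total weight -/
theorem rig_of_sq (hR : 0 ≤ R) (hρ : Continuous ρ) (hg : Measurable g) (hc : 0 < c) (hB : B ≠ ∞)
    (h : SqW g R ρ B c K) {A : ℝ} (hA : 0 < A + K)
    (hlow : B * ENNReal.ofReal (Real.exp (-A)) ≤ mWin R g Set.univ) :
    IsFiniteMeasure (mWin R g) ∧ RigB (mWin R g) R ρ (2 * ((A + K) / c) + 1) := by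
  have hms := measurableSet_Bx (p := p) (n := n) R
  have hg' := hg.indicator hms
  have e0 : ∀ F : Cfg p n → ℝ≥0∞, ∫⁻ x, (Bx R).indicator g x * F x = ∫⁻ x in Bx R, g x * F x := by
    intro F
    rw [← lintegral_indicator hms]
    refine lintegral_congr fun x => ?_
    by_cases hx : x ∈ Bx (p := p) (n := n) R
    · rw [indicator_of_mem hx, indicator_of_mem hx]
    · rw [indicator_of_notMem hx, indicator_of_notMem hx, zero_mul]
  rw [mWin_univ] at hlow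
  have e1 : ∫⁻ x, (Bx R).indicator g x = ∫⁻ x in Bx R, g x := lintegral_indicator hms _
  have hfin : ∫⁻ x, (Bx R).indicator g x ≠ ∞ := by
    rw [e1]
    exact ne_top_of_le_ne_top (ENNReal.mul_ne_top hB ENNReal.ofReal_ne_top) (h.mass hc.le)
  have go : ∀ (k : Bool) (f : ℝ → ℝ) (N : Cfg p n → ℝ) (a : ℝ), Continuous f →
      (∀ x ∈ Bx (p := p) (n := n) R, N x = nu R ρ (sp R p n k x) f) →
      ∫⁻ x in Bx R, g x * ENNReal.ofReal (Real.exp (c / (1 + |a|) * N x ^ 2)) ≤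
        B * ENNReal.ofReal (Real.exp K) →
      ∫⁻ x, (Bx R).indicator g x * ENNReal.ofReal ((nu R ρ (sp R p n k x) f) ^ 2) ≤
        ENNReal.ofReal ((A + K) / c * (1 + |a|)) * ∫⁻ x, (Bx R).indicator g x := by
    intro k f N a hf hN h1
    refine sq_moment (B := B) hg' (N := fun x => nu R ρ (sp R p n k x) f)
      (measurable_nu (measurable_sp R k) hf) (α := 1 + |a|) (c := c) (A := A)
      (K := K) (by positivity) hc hA.le hB ?_ hlow
    rw [e0]
    refine le_trans (le_of_eq ?_) h1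
    refine setLIntegral_congr_fun hms fun x hx => ?_
    rw [hN x hx]
  have h2 : ∀ k, MB volume ((Bx R).indicator g) R ρ (sp R p n k) ((A + K) / c) := by
    intro k
    cases k
    · exact ⟨fun a => go false _ _ a (by fun_prop) (fun x hx => by rw [sp_false hx]; rfl) (h.cosY a),
        fun a => go false _ _ a (by fun_prop) (fun x hx => by rw [sp_false hx]; rfl) (h.sinY a)⟩
    · exact ⟨fun a => go true _ _ a (by fun_prop) (fun x hx => by rw [sp_true hx]; rfl) (h.cosX a),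
        fun a => go true _ _ a (by fun_prop) (fun x hx => by rw [sp_true hx]; rfl) (h.sinX a)⟩
  refine ⟨?_, rig_of_MB hR hρ hg hfin (by positivity) h2⟩
  constructor
  rw [mWin_univ]
  exact lt_top_iff_ne_top.2 hfin

/-- **the window form** of `oneF_win`, window `[-T, T]`, statistics on `[-R, R]`, `T ≤ R` -/
theorem oneB_win' : ∃ C : ℝ, 1 ≤ C ∧ ∀ {G T R δ M' : ℝ}, 9 ≤ G → 0 < T → T ≤ R → ∀ (n : ℕ)
    {ρ' : ℝ → ℝ}, Continuous ρ' → Integrable ρ' → (∀ s, |ρ' s| ≤ M') →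
    (∀ s, T ≤ |s| → |ρ' s| ≤ δ * Real.exp (-(|s| - T))) → ∀ (f0 : ℝ) {f : ℕ → ℂ},
    (Summable fun k => ‖f k‖) → QS G (2 * T + 2 * G) f →
    ∀ {F : ℝ → ℝ}, (∀ x, |x| ≤ T → F x ≤ f0 + Aser f (2 * π * x / (2 * T + 2 * G))) →
    ∀ {ρ : ℝ → ℝ}, Continuous ρ → Integrable ρ → ∀ {D : ℝ},
    2 * (∫ t, |ρ' t - ρ t|) + 3 * (∫ t in {t | T < |t|}, |ρ t|) ≤ D →
    OneB R ρ (WW T n ρ' F) (BW G T δ n ρ' f0 f) (C * (R + 1))
      (7 * D ^ 2 + 24 * ((n : ℝ) - mW (2 * T + 2 * G) ρ') ^ 2 +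
        12 * NUWC.QF G (2 * T + 2 * G) f) := by
  obtain ⟨C, hC0, hC⟩ := exists_cb
  refine ⟨8 * (C + 3), by linarith, ?_⟩
  intro G T R δ M' hG hT hTR n ρ' hρc' hρ' hM' hδ f0 f hf hfe F hF ρ hρc hρ D hD
  have hR : 0 < R := lt_of_lt_of_le hT hTR
  have hb := hC R hR.le
  have h1 := oneF_win hb hG hT n hρc' hρ' hM' hδ f0 hf hfe hF hρc hρ hD
  have hI1 : 0 ≤ ∫ t, |ρ' t - ρ t| := integral_nonneg fun t => abs_nonneg _
  have hI2 : 0 ≤ ∫ t in {t | T < |t|}, |ρ t| := integral_nonneg fun t => abs_nonneg _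
  have hI3 : ∫ t in {t | R < |t|}, |ρ t| ≤ ∫ t in {t | T < |t|}, |ρ t| := by
    refine setIntegral_mono_set hρ.abs.integrableOn (ae_of_all _ fun t => abs_nonneg _) ?_
    exact Eventually.of_forall fun t ht => lt_of_le_of_lt hTR ht
  have hD0 : 0 ≤ D := by linarith
  have hq : 0 < 8 * (R + 1) * (C + 3) := by positivity
  have h2 := ExpF.toB (τ := D) hR.le hb.cutf.cont (fun t ht => cb_one ht) hb.le hρ
    (by linarith) hq (fun ω h0 i => (WW_zero h0 i).trans hTR) h1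
  have e : 8 * (R + 1) * (C + 3) = 8 * (C + 3) * (R + 1) := by ring
  have hq24 : 24 ≤ 8 * (R + 1) * (C + 3) := by nlinarith
  rw [e] at h2 hq24 hq
  refine ExpB.monoM hq.le ?_ h2
  have h3 : 2 * D ^ 2 / (8 * (C + 3) * (R + 1)) ≤ D ^ 2 := by
    rw [div_le_iff₀ hq]
    nlinarith [sq_nonneg D]
  linarith

end NUDi
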