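import Pool.Agent.NUDi.Dicho
import Pool.Agent.NUKer.Expect

/-!
# Two species: crude bound and second moments from the one component bounds

`Ω = (Fin p → ℝ) × (Fin n → ℝ)`, weight `W₁(t, t') ≤ WX(t) WY(t') e^{QF}`, `WX`, `WY` supported in the
window `[-R, R]`.
-/

set_option autoImplicit false

open Finset Filter MeasureTheory
open scoped Topology ENNReal

namespace NUDi

open NUKer

theorem measurable_cl (R : ℝ) : Measurable (cl R) := (cl_cont R).measurable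

variable {p n : ℕ}

/-- numbers of quanta of the two species -/
def nn (p n : ℕ) : Bool → ℕ := fun k => if k then p else n

/-- positions of the two species, clamped -/
noncomputable def sp (R : ℝ) (p n : ℕ) : ∀ k : Bool, (Fin p → ℝ) × (Fin n → ℝ) → Fin (nn p n k) → ℝ
  | true => fun ω i => cl R (ω.1 i)
  | false => fun ω i => cl R (ω.2 i)

theorem measurable_sp (R : ℝ) (k : Bool) : Measurable (sp R p n k) := by
  cases k
  · unfold sp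
    exact measurable_pi_lambda _ fun i => (measurable_cl R).comp (by fun_prop)
  · unfold sp
    exact measurable_pi_lambda _ fun i => (measurable_cl R).comp (by fun_prop)

theorem abs_sp {R : ℝ} (hR : 0 ≤ R) (k : Bool) (ω : (Fin p → ℝ) × (Fin n → ℝ))
    (i : Fin (nn p n k)) : |sp R p n k ω i| ≤ R := by
  cases k
  · exact cl_abs hR _
  · exact cl_abs hR _

/-- one component: exponential moments of the Fourier modes -/
def OneB (R : ℝ) (ρ : ℝ → ℝ) (W : (Fin n → ℝ) → ℝ≥0∞) (B : ℝ≥0∞) (q0 M : ℝ) : Prop :=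
  ExpB volume W R ρ (fun t i => cl R (t i)) B q0 M

theorem ExpB.mass {Ω ι : Type*} [MeasurableSpace Ω] [Fintype ι] {μ : Measure Ω} {W : Ω → ℝ≥0∞}
    {R q0 M : ℝ} {ρ : ℝ → ℝ} {s : Ω → ι → ℝ} {B : ℝ≥0∞} (h : ExpB μ W R ρ s B q0 M) :
    ∫⁻ ω, W ω ∂μ ≤ B := by
  obtain ⟨l, q, _, _, h3⟩ := h.cos 0
  simpa using h3 0

theorem ExpB.prod {Ω Ω' ι : Type*} [MeasurableSpace Ω] [MeasurableSpace Ω'] [Fintype ι]
    {μ : Measure Ω} {μ' : Measure Ω'} [SFinite μ] [SFinite μ'] {W : Ω → ℝ≥0∞} {W' : Ω' → ℝ≥0∞}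
    (hW : Measurable W) (hW' : Measurable W') {R q0 M : ℝ} {ρ : ℝ → ℝ}
    {s : Ω → ι → ℝ} (hs : Measurable s) {B B' : ℝ≥0∞} (h : ExpB μ W R ρ s B q0 M)
    (h' : ∫⁻ ω, W' ω ∂μ' ≤ B') :
    ExpB (μ.prod μ') (fun ω => W ω.1 * W' ω.2) R ρ (fun ω => s ω.1) (B * B') q0 M := by
  have hm : ∀ f : ℝ → ℝ, Continuous f → Measurable fun ω => nu R ρ (s ω) f := by
    intro f hf
    unfold nu
    refine Measurable.sub ?_ measurable_const
    exact Finset.measurable_fun_sum _ fun i _ => hf.measurable.comp (by fun_prop)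
  have go : ∀ f : ℝ → ℝ, Continuous f → ∀ x l q : ℝ,
      ∫⁻ ω, W ω * ENNReal.ofReal (Real.exp (x * nu R ρ (s ω) f)) ∂μ ≤
        B * ENNReal.ofReal (Real.exp (l * x + q * x ^ 2 / 2)) →
      ∫⁻ ω : Ω × Ω', W ω.1 * W' ω.2 * ENNReal.ofReal (Real.exp (x * nu R ρ (s ω.1) f)) ∂μ.prod μ' ≤
        B * B' * ENNReal.ofReal (Real.exp (l * x + q * x ^ 2 / 2)) := by
    intro f hf x l q hx
    have hmf := hm f hf
    have e : ∀ ω : Ω × Ω', W ω.1 * W' ω.2 * ENNReal.ofReal (Real.exp (x * nu R ρ (s ω.1) f)) =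
        (W ω.1 * ENNReal.ofReal (Real.exp (x * nu R ρ (s ω.1) f))) * W' ω.2 := fun ω => by ring
    rw [lintegral_congr e, lintegral_prod_mul (f := fun ω => W ω *
      ENNReal.ofReal (Real.exp (x * nu R ρ (s ω) f))) (g := W') (by fun_prop) (by fun_prop)]
    calc _ ≤ (B * ENNReal.ofReal (Real.exp (l * x + q * x ^ 2 / 2))) * B' := by gcongr
      _ = _ := by ring
  constructor
  · intro a
    obtain ⟨l, q, h1, h2, h3⟩ := h.cos a
    exact ⟨l, q, h1, h2, fun x => go _ (by fun_prop) x l q (h3 x)⟩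
  · intro a
    obtain ⟨l, q, h1, h2, h3⟩ := h.sin a
    exact ⟨l, q, h1, h2, fun x => go _ (by fun_prop) x l q (h3 x)⟩

theorem ExpB.swap {Ω Ω' ι : Type*} [MeasurableSpace Ω] [MeasurableSpace Ω'] [Fintype ι]
    {μ : Measure Ω} {μ' : Measure Ω'} [SFinite μ] [SFinite μ'] {W : Ω → ℝ≥0∞} {W' : Ω' → ℝ≥0∞}
    (hW : Measurable W) (hW' : Measurable W') {R q0 M : ℝ} {ρ : ℝ → ℝ}
    {s : Ω' → ι → ℝ} (hs : Measurable s) {B B' : ℝ≥0∞} (h : ∫⁻ ω, W ω ∂μ ≤ B)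
    (h' : ExpB μ' W' R ρ s B' q0 M) :
    ExpB (μ.prod μ') (fun ω => W ω.1 * W' ω.2) R ρ (fun ω => s ω.2) (B * B') q0 M := by
  have hm : ∀ f : ℝ → ℝ, Continuous f → Measurable fun ω => nu R ρ (s ω) f := by
    intro f hf
    unfold nu
    refine Measurable.sub ?_ measurable_const
    exact Finset.measurable_fun_sum _ fun i _ => hf.measurable.comp (by fun_prop)
  have go : ∀ f : ℝ → ℝ, Continuous f → ∀ x l q : ℝ,
      ∫⁻ ω, W' ω * ENNReal.ofReal (Real.exp (x * nu R ρ (s ω) f)) ∂μ' ≤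
        B' * ENNReal.ofReal (Real.exp (l * x + q * x ^ 2 / 2)) →
      ∫⁻ ω : Ω × Ω', W ω.1 * W' ω.2 * ENNReal.ofReal (Real.exp (x * nu R ρ (s ω.2) f)) ∂μ.prod μ' ≤
        B * B' * ENNReal.ofReal (Real.exp (l * x + q * x ^ 2 / 2)) := by
    intro f hf x l q hx
    have hmf := hm f hf
    have e : ∀ ω : Ω × Ω', W ω.1 * W' ω.2 * ENNReal.ofReal (Real.exp (x * nu R ρ (s ω.2) f)) =
        W ω.1 * (W' ω.2 * ENNReal.ofReal (Real.exp (x * nu R ρ (s ω.2) f))) := fun ω => by ring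
    rw [lintegral_congr e, lintegral_prod_mul (f := W) (g := fun ω => W' ω *
      ENNReal.ofReal (Real.exp (x * nu R ρ (s ω) f))) (by fun_prop) (by fun_prop)]
    calc _ ≤ B * (B' * ENNReal.ofReal (Real.exp (l * x + q * x ^ 2 / 2))) := by gcongr
      _ = _ := by ring
  constructor
  · intro a
    obtain ⟨l, q, h1, h2, h3⟩ := h'.cos a
    exact ⟨l, q, h1, h2, fun x => go _ (by fun_prop) x l q (h3 x)⟩
  · intro a
    obtain ⟨l, q, h1, h2, h3⟩ := h'.sin a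
    exact ⟨l, q, h1, h2, fun x => go _ (by fun_prop) x l q (h3 x)⟩

variable {R q0 M : ℝ} {ρ : Bool → ℝ → ℝ} {WX : (Fin p → ℝ) → ℝ≥0∞} {WY : (Fin n → ℝ) → ℝ≥0∞}
  {BX BY : ℝ≥0∞} {κ : Bool → Bool → ℝ → ℝ → ℝ} {Λ : Bool → Bool → ℝ} {Λ0 : ℝ}

theorem two_exp_b (hX : Measurable WX) (hY : Measurable WY)
    (hWX : OneB R (ρ true) WX BX q0 M) (hWY : OneB R (ρ false) WY BY q0 M) (k : Bool) :
    ExpB volume (fun ω : (Fin p → ℝ) × (Fin n → ℝ) => WX ω.1 * WY ω.2) R (ρ k) (sp R p n k)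
      (BX * BY) q0 M := by
  have m1 : ∀ N : ℕ, Measurable fun (t : Fin N → ℝ) (i : Fin N) => cl R (t i) := fun N =>
    measurable_pi_lambda _ fun i => (measurable_cl R).comp (by fun_prop)
  cases k
  · exact ExpB.swap hX hY (m1 n) hWX.mass hWY
  · exact ExpB.prod hX hY (m1 p) hWX hWY.mass

/-- the kernels may be clamped -/
theorem QF_clamp {Ω σ : Type*} [Fintype σ] {n : σ → ℕ} {s : ∀ k, Ω → Fin (n k) → ℝ} {R : ℝ} (hR : 0 ≤ R)
    (hsR : ∀ k ω i, |s k ω i| ≤ R) (ρ : σ → ℝ → ℝ) (κ : σ → σ → ℝ → ℝ → ℝ) (ω : Ω) :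
    (∑ k, ∑ k', nu2 R (ρ k) (ρ k') (s k ω) (s k' ω) (fun t t' => κ k k' (cl R t) (cl R t'))) =
      ∑ k, ∑ k', nu2 R (ρ k) (ρ k') (s k ω) (s k' ω) (κ k k') := by
  refine sum_congr rfl fun k _ => sum_congr rfl fun k' _ => ?_
  exact nu2_congr hR (hsR k ω) (hsR k' ω) fun t t' ht ht' => by rw [cl_eq ht, cl_eq ht']

/-- **[4.5]**, two species -/
theorem crude2 (hR : 0 ≤ R) (hρ : ∀ k, Continuous (ρ k)) (hX : Measurable WX) (hY : Measurable WY)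
    (hK : ∀ k k', KC R (Λ k k') (fun t t' => (κ k k' t t' : ℂ))) (hΛ0 : 0 < Λ0)
    (hΛ : ∑ k, ∑ k', Λ k k' ≤ Λ0) (hq0 : 0 ≤ q0) (hM : 0 ≤ M) (hq : 8 * Λ0 * q0 ≤ 1)
    (hWX : OneB R (ρ true) WX BX q0 M) (hWY : OneB R (ρ false) WY BY q0 M)
    {W₁ : (Fin p → ℝ) × (Fin n → ℝ) → ℝ≥0∞}
    (hle : ∀ ω, W₁ ω ≤ WX ω.1 * WY ω.2 * ENNReal.ofReal (Real.exp (QF R ρ κ (sp R p n) ω))) :
    ∫⁻ ω, W₁ ω ≤ BX * BY * ENNReal.ofReal (Real.sqrt 2 * Real.exp (4 * Λ0 * q0 * M)) := by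
  refine (lintegral_mono hle).trans ?_
  have h := crude (μ := volume) (κ := fun k k' t t' => κ k k' (cl R t) (cl R t'))
    (W := fun ω : (Fin p → ℝ) × (Fin n → ℝ) => WX ω.1 * WY ω.2) (by fun_prop) (measurable_sp R) hR
    (abs_sp hR) hρ (fun k k' => ((hK k k').clamp hR).1) (fun k k' => ((hK k k').clamp hR).2) hΛ0 hΛ
    hq0 hM hq (two_exp_b hX hY hWX hWY)
  refine le_trans (le_of_eq ?_) h
  refine lintegral_congr fun ω => ?_
  congr 3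
  exact (QF_clamp hR (abs_sp hR) ρ κ ω).symm

/-- **[4.6]**, two species -/
theorem dicho2 (hR : 0 ≤ R) (hρ : ∀ k, Continuous (ρ k)) (hX : Measurable WX) (hY : Measurable WY)
    (hK : ∀ k k', KC R (Λ k k') (fun t t' => (κ k k' t t' : ℂ))) (hΛ0 : 0 < Λ0)
    (hΛ : ∑ k, ∑ k', Λ k k' ≤ Λ0) (hq0 : 0 < q0) (hM : 0 ≤ M) (hq : 16 * Λ0 * q0 ≤ 1)
    (hBX : BX ≠ ∞) (hBY : BY ≠ ∞)
    (hWX : OneB R (ρ true) WX BX q0 M) (hWY : OneB R (ρ false) WY BY q0 M)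
    {W₁ : (Fin p → ℝ) × (Fin n → ℝ) → ℝ≥0∞} (hW₁ : Measurable W₁)
    (hle : ∀ ω, W₁ ω ≤ WX ω.1 * WY ω.2 * ENNReal.ofReal (Real.exp (QF R ρ κ (sp R p n) ω)))
    {A : ℝ} (hA : 0 ≤ A) (hlow : BX * BY * ENNReal.ofReal (Real.exp (-A)) ≤ ∫⁻ ω, W₁ ω) (k : Bool) :
    MB volume W₁ R (ρ k) (sp R p n k) (8 * q0 * (A + 1 + M)) := by
  refine MB.of_low (κ := fun k k' t t' => κ k k' (cl R t) (cl R t'))
    (W := fun ω : (Fin p → ℝ) × (Fin n → ℝ) => WX ω.1 * WY ω.2) (by fun_prop) (measurable_sp R) hR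
    (abs_sp hR) hρ (fun k k' => ((hK k k').clamp hR).1) (fun k k' => ((hK k k').clamp hR).2) hΛ0 hΛ
    hq0 hM hq (ENNReal.mul_ne_top hBX hBY) (two_exp_b hX hY hWX hWY) hW₁ (fun ω => ?_) hA hlow k
  refine (hle ω).trans (le_of_eq ?_)
  congr 3
  exact (QF_clamp hR (abs_sp hR) ρ κ ω).symm

end NUDi
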